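import Pool.Agent.RSL.Def
import Pool.Agent.MRZ.PVb

/-!
# RSL / MertS: consequences of the theorem of Mertens

`mert_win`: `Pool.MRZ.PVb.mertens_nat` and `Pool.MRZ.PVb.S_sub`: `∑_{z<p≤w} 1/p ≤ log (log w/log z) + 2C ≤ log 16 + 2C`.

`th_low`: `-log (1 - 1/p) ≤ 1/p + 1/p²`, so `-log (th m) ≤ PVb.S m + 2 ≤ log log m + C + 2`.
-/

namespace Pool.Agent.RSL

open Finset Pool.Agent.RSC

theorem mert_win : ∃ C : ℝ, 0 < C ∧ ∀ z w : ℕ, 2 ≤ z → z ≤ w → w ≤ z ^ 16 →
    ∑ p ∈ (Ioc z w).filter Nat.Prime, 1 / (p : ℝ) ≤ C := by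
  obtain ⟨C, hC0, hC⟩ := Pool.MRZ.PVb.mertens_nat
  have h16 : 0 < Real.log 16 := Real.log_pos (by norm_num)
  refine ⟨Real.log 16 + 2 * C, by positivity, fun z w hz hzw hw => ?_⟩
  rw [Pool.MRZ.PVb.S_sub hzw]
  have h1 := (abs_le.1 (hC z hz)).1
  have h2 := (abs_le.1 (hC w (hz.trans hzw))).2
  have hz1 : (1 : ℝ) < z := by
    have : 1 < z := by omega
    exact_mod_cast this
  have hlz : 0 < Real.log z := Real.log_pos hz1
  have hw1 : (1 : ℝ) < w := lt_of_lt_of_le hz1 (by exact_mod_cast hzw)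
  have hlw : 0 < Real.log w := Real.log_pos hw1
  have h3 : Real.log (Real.log w) ≤ Real.log 16 + Real.log (Real.log z) := by
    rw [← Real.log_mul (by norm_num) hlz.ne']
    refine Real.log_le_log hlw ?_
    have h4 : Real.log w ≤ Real.log ((z : ℝ) ^ 16) :=
      Real.log_le_log (by linarith) (by exact_mod_cast hw)
    rw [Real.log_pow] at h4
    push_cast at h4
    exact h4
  linarith

private theorem mert_log {p : ℕ} (hp : 2 ≤ p) :
    -(1 / (p : ℝ)) - 2 * (1 / ((p : ℝ) - 1) - 1 / (p : ℝ)) ≤ Real.log (1 - 1 / (p : ℝ)) := by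
  have hp2 : (2 : ℝ) ≤ p := by exact_mod_cast hp
  have hp0 : (0 : ℝ) < p := by linarith
  have hp1 : (0 : ℝ) < (p : ℝ) - 1 := by linarith
  have h1 : 1 - 1 / (p : ℝ) = ((p : ℝ) - 1) / p := by
    field_simp
  have h2 := Real.one_sub_inv_le_log_of_pos (x := ((p : ℝ) - 1) / p) (by positivity)
  rw [h1]
  refine le_trans ?_ h2
  rw [inv_div]
  have h3 : (p : ℝ) / ((p : ℝ) - 1) = 1 + 1 / ((p : ℝ) - 1) := by
    field_simp
    ring
  have h4 : 0 ≤ 1 / ((p : ℝ) - 1) - 1 / (p : ℝ) := by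
    rw [sub_nonneg]
    exact one_div_le_one_div_of_le hp1 (by linarith)
  rw [h3]
  linarith

private theorem mert_tele (m : ℕ) :
    ∑ n ∈ Ico 2 (m + 2), (1 / ((n : ℝ) - 1) - 1 / (n : ℝ)) = 1 - 1 / ((m : ℝ) + 1) := by
  induction m with
  | zero => simp
  | succ m ih =>
    rw [Finset.sum_Ico_succ_top (by omega), ih]
    push_cast
    have h1 : (m : ℝ) + 1 ≠ 0 := by positivity
    have h2 : (m : ℝ) + 2 ≠ 0 := by positivity
    have h3 : (m : ℝ) + 2 - 1 = m + 1 := by ring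
    have h4 : (m : ℝ) + 1 + 1 = m + 2 := by ring
    rw [h3, h4]
    ring

theorem th_low : ∃ c : ℝ, 0 < c ∧ ∀ m : ℕ, 2 ≤ m → c / Real.log m ≤ th m := by
  obtain ⟨C, hC0, hC⟩ := Pool.MRZ.PVb.mertens_nat
  refine ⟨Real.exp (-(C + 2)), Real.exp_pos _, fun m hm => ?_⟩
  have hm1 : (1 : ℝ) < m := by
    have : 1 < m := by omega
    exact_mod_cast this
  have hlm : 0 < Real.log m := Real.log_pos hm1
  have hfac : ∀ p ∈ (range (m + 1)).filter Nat.Prime, (0 : ℝ) < 1 - 1 / (p : ℝ) := by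
    intro p hp
    have h1 : (2 : ℝ) ≤ p := by exact_mod_cast (Finset.mem_filter.1 hp).2.two_le
    have h2 : 1 / (p : ℝ) ≤ 1 / 2 := one_div_le_one_div_of_le (by norm_num) h1
    linarith
  have hth : 0 < th m := Finset.prod_pos hfac
  have hset : (range (m + 1)).filter Nat.Prime = (Ioc 0 m).filter Nat.Prime := by
    ext p
    simp only [Finset.mem_filter, Finset.mem_range, Finset.mem_Ioc]
    constructor
    · rintro ⟨h1, h2⟩
      exact ⟨⟨h2.pos, by omega⟩, h2⟩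
    · rintro ⟨h1, h2⟩
      exact ⟨by omega, h2⟩
  have hlog : Real.log (th m) = ∑ p ∈ (range (m + 1)).filter Nat.Prime, Real.log (1 - 1 / (p : ℝ)) :=
    Real.log_prod (fun p hp => (hfac p hp).ne')
  have hge : -(Pool.MRZ.PVb.S m) - 2 ≤ Real.log (th m) := by
    rw [hlog]
    have h1 : ∑ p ∈ (range (m + 1)).filter Nat.Prime,
        (-(1 / (p : ℝ)) - 2 * (1 / ((p : ℝ) - 1) - 1 / (p : ℝ))) ≤
        ∑ p ∈ (range (m + 1)).filter Nat.Prime, Real.log (1 - 1 / (p : ℝ)) :=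
      Finset.sum_le_sum fun p hp => mert_log (Finset.mem_filter.1 hp).2.two_le
    refine le_trans ?_ h1
    rw [Finset.sum_sub_distrib, Finset.sum_neg_distrib, ← Finset.mul_sum]
    have h2 : ∑ p ∈ (range (m + 1)).filter Nat.Prime, (1 / ((p : ℝ) - 1) - 1 / (p : ℝ)) ≤
        ∑ n ∈ Ico 2 (m + 2), (1 / ((n : ℝ) - 1) - 1 / (n : ℝ)) := by
      refine Finset.sum_le_sum_of_subset_of_nonneg ?_ ?_
      · intro p hp
        simp only [Finset.mem_filter, Finset.mem_range] at hp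
        rw [Finset.mem_Ico]
        exact ⟨hp.2.two_le, by omega⟩
      · intro n hn _
        have h3 : (2 : ℝ) ≤ n := by exact_mod_cast (Finset.mem_Ico.1 hn).1
        rw [sub_nonneg]
        exact one_div_le_one_div_of_le (by linarith) (by linarith)
    rw [mert_tele] at h2
    have h4 : 0 ≤ 1 / ((m : ℝ) + 1) := by positivity
    have h5 : ∑ p ∈ (range (m + 1)).filter Nat.Prime, 1 / (p : ℝ) = Pool.MRZ.PVb.S m := by
      unfold Pool.MRZ.PVb.S
      rw [hset]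
    rw [h5]
    linarith
  have h1 := (abs_le.1 (hC m hm)).2
  have h2 : -(C + 2) - Real.log (Real.log m) ≤ Real.log (th m) := by linarith
  have h3 := Real.exp_le_exp.2 h2
  rw [Real.exp_log hth, Real.exp_sub, Real.exp_log hlm] at h3
  exact h3

end Pool.Agent.RSL
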