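import Pool.Agent.RSC.Crt
import Pool.Agent.RSC.Per

/-!
# RSL / AvA: averages over a box of products of periodic functions with mean zero

Exchange the sums. `T = ∅` contributes `l²` (`∏ ∅ = 1 ≤ D`). For `T ≠ ∅` put `d = ∏ T ≤ D`: by `crt_two` the product has sum `0` over
`range d × range d`, it is periodic modulo `d` in both variables (`prod_per`, `crt_perdvd`) and bounded by `1`; so by `per_two`
(with `M = 0`, `B = 1`) its sum over the box is at most `2 l d ≤ 2 l D` in absolute value. There are at most `D` such `T`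
(`T ↦ ∏ T` is injective on sets of primes, values in `[1, D]`).
-/

namespace Pool.Agent.RSL

open Finset Pool.Agent.RSC

private theorem AvA_card (P : Finset ℕ) (hP : ∀ p ∈ P, p.Prime) (D : ℕ) :
    (P.powerset.filter (fun T => ∏ p ∈ T, p ≤ D)).card ≤ D := by
  have h1 : (P.powerset.filter (fun T => ∏ p ∈ T, p ≤ D)).card ≤ (Finset.Icc 1 D).card := by
    refine Finset.card_le_card_of_injOn (fun T => ∏ p ∈ T, p) ?_ ?_
    · intro T hT
      have hT' := Finset.mem_filter.mp (Finset.mem_coe.mp hT)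
      have hTP := Finset.mem_powerset.mp hT'.1
      refine Finset.mem_coe.mpr (Finset.mem_Icc.mpr ⟨?_, hT'.2⟩)
      exact Nat.succ_le_of_lt (Finset.prod_pos (fun q hq => (hP q (hTP hq)).pos))
    · intro T hT U hU h
      have hT' := Finset.mem_powerset.mp (Finset.mem_filter.mp (Finset.mem_coe.mp hT)).1
      have hU' := Finset.mem_powerset.mp (Finset.mem_filter.mp (Finset.mem_coe.mp hU)).1
      have e1 : (∏ p ∈ T, p).primeFactors = T :=
        Nat.primeFactors_prod (fun p hp => hP p (hT' hp))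
      have e2 : (∏ p ∈ U, p).primeFactors = U :=
        Nat.primeFactors_prod (fun p hp => hP p (hU' hp))
      have h' : ∏ p ∈ T, p = ∏ p ∈ U, p := h
      rw [← e1, ← e2, h']
  simpa using h1

theorem avS1 (P : Finset ℕ) (hP : ∀ p ∈ P, p.Prime) (x : ℕ → ℕ → ℕ → ℝ)
    (hx1 : ∀ p ∈ P, ∀ b b', x p (b + p) b' = x p b b')
    (hx2 : ∀ p ∈ P, ∀ b b', x p b (b' + p) = x p b b')
    (hx0 : ∀ p ∈ P, ∑ b ∈ range p, ∑ b' ∈ range p, x p b b' = 0)
    (hxB : ∀ p ∈ P, ∀ b b', |x p b b'| ≤ 1) {D : ℕ} (hD : 1 ≤ D) (l : ℕ) :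
    |∑ t ∈ range l, ∑ t' ∈ range l,
      ∑ T ∈ P.powerset.filter (fun T => ∏ p ∈ T, p ≤ D), ∏ p ∈ T, x p t t' - (l : ℝ) ^ 2| ≤
      2 * l * (D : ℝ) ^ 2 := by
  classical
  have hlD : (0 : ℝ) ≤ 2 * l * D := by positivity
  set S := P.powerset.filter (fun T => ∏ p ∈ T, p ≤ D) with hS
  have hemp : (∅ : Finset ℕ) ∈ S := by
    rw [hS, Finset.mem_filter]
    exact ⟨Finset.empty_mem_powerset P, by simpa using hD⟩
  have hswap : ∑ t ∈ range l, ∑ t' ∈ range l, ∑ T ∈ S, ∏ p ∈ T, x p t t' =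
      ∑ T ∈ S, ∑ t ∈ range l, ∑ t' ∈ range l, ∏ p ∈ T, x p t t' := by
    have e1 : ∀ t, ∑ t' ∈ range l, ∑ T ∈ S, ∏ p ∈ T, x p t t' =
        ∑ T ∈ S, ∑ t' ∈ range l, ∏ p ∈ T, x p t t' := fun t => Finset.sum_comm
    simp_rw [e1]
    exact Finset.sum_comm
  have hsplit : ∑ T ∈ S, ∑ t ∈ range l, ∑ t' ∈ range l, ∏ p ∈ T, x p t t' =
      (l : ℝ) ^ 2 + ∑ T ∈ S.erase ∅, ∑ t ∈ range l, ∑ t' ∈ range l, ∏ p ∈ T, x p t t' := by
    rw [← Finset.add_sum_erase S _ hemp]
    congr 1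
    simp [sq]
  have hterm : ∀ T ∈ S.erase ∅,
      |∑ t ∈ range l, ∑ t' ∈ range l, ∏ p ∈ T, x p t t'| ≤ 2 * l * D := by
    intro T hT
    have hT1 := Finset.mem_erase.mp hT
    have hT2 := Finset.mem_filter.mp hT1.2
    have hTP := Finset.mem_powerset.mp hT2.1
    have hne : T.Nonempty := Finset.nonempty_iff_ne_empty.mpr hT1.1
    have hTpr : ∀ p ∈ T, p.Prime := fun p hp => hP p (hTP hp)
    have hd : 0 < ∏ p ∈ T, p := Finset.prod_pos (fun q hq => (hTpr q hq).pos)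
    have hsum := crt_two (f := x) hTpr hne (fun p hp => hx1 p (hTP hp))
      (fun p hp => hx2 p (hTP hp)) (fun p hp => hx0 p (hTP hp))
    have hp1 : ∀ b b', ∏ p ∈ T, x p (b + ∏ p ∈ T, p) b' = ∏ p ∈ T, x p b b' := by
      intro b b'
      exact prod_per (f := fun p b => x p b b') (fun p hp b => hx1 p (hTP hp) b b') b
    have hp2 : ∀ b b', ∏ p ∈ T, x p b (b' + ∏ p ∈ T, p) = ∏ p ∈ T, x p b b' := by
      intro b b'
      exact prod_per (f := fun p b' => x p b b') (fun p hp b' => hx2 p (hTP hp) b b') b'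
    have hBd : ∀ b b', |∏ p ∈ T, x p b b'| ≤ 1 := by
      intro b b'
      rw [Finset.abs_prod]
      exact Finset.prod_le_one (fun p _ => abs_nonneg _) (fun p hp => hxB p (hTP hp) b b')
    have h := per_two (F := fun b b' => ∏ p ∈ T, x p b b') hd hp1 hp2 hsum hBd 0 l
    rw [Nat.zero_add, mul_one] at h
    have hrange : Finset.Ico 0 l = range l := (Finset.range_eq_Ico l).symm
    rw [hrange] at h
    refine h.trans ?_
    have hdD : ((∏ p ∈ T, p : ℕ) : ℝ) ≤ D := by exact_mod_cast hT2.2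
    exact mul_le_mul_of_nonneg_left hdD (by positivity)
  rw [hswap, hsplit, add_sub_cancel_left]
  calc |∑ T ∈ S.erase ∅, ∑ t ∈ range l, ∑ t' ∈ range l, ∏ p ∈ T, x p t t'|
      ≤ ∑ T ∈ S.erase ∅, |∑ t ∈ range l, ∑ t' ∈ range l, ∏ p ∈ T, x p t t'| :=
        Finset.abs_sum_le_sum_abs _ _
    _ ≤ ∑ T ∈ S.erase ∅, (2 * l * D : ℝ) := Finset.sum_le_sum hterm
    _ = ((S.erase ∅).card : ℝ) * (2 * l * D) := by rw [Finset.sum_const, nsmul_eq_mul]
    _ ≤ (D : ℝ) * (2 * l * D) := by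
        refine mul_le_mul_of_nonneg_right ?_ hlD
        have h1 : (S.erase ∅).card ≤ D :=
          (Finset.card_le_card (Finset.erase_subset _ _)).trans (AvA_card P hP D)
        exact_mod_cast h1
    _ = 2 * l * (D : ℝ) ^ 2 := by ring

end Pool.Agent.RSL
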