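import Pool.Agent.RSC.Crt
import Pool.Agent.RSC.Per

/-!
# RSL / AvB: averages over a box of products of nonnegative periodic functions

`d = ∏ T`. Box sums of nonnegative functions periodic modulo `d`: the box `[0,l)²` is contained in `[0, q d)²` with
`q = l/d + 1 ≤ 2 l/d` (as `d ≤ l`), so the sum is at most `q² ∑_{u,v<d}` (`Per_mul`). By the Chinese remainder theorem (`crt_mul2` and
induction on `T`, as in the proof of `crt_two`) `∑_{u,v<d} ∏_{p ∈ T} G p u v = ∏_{p ∈ T} ∑_{u,v<p} G p u v ≤ ∏_{p ∈ T} (α p p²) = d² ∏ α`.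
-/

namespace Pool.Agent.RSL

open Finset Pool.Agent.RSC

private theorem avb_crt (T : Finset ℕ) (hT : ∀ p ∈ T, p.Prime) (G : ℕ → ℕ → ℕ → ℝ)
    (hG1 : ∀ p ∈ T, ∀ b b', G p (b + p) b' = G p b b')
    (hG2 : ∀ p ∈ T, ∀ b b', G p b (b' + p) = G p b b') :
    ∑ b ∈ range (∏ p ∈ T, p), ∑ b' ∈ range (∏ p ∈ T, p), ∏ p ∈ T, G p b b' =
      ∏ p ∈ T, ∑ b ∈ range p, ∑ b' ∈ range p, G p b b' := by
  induction T using Finset.induction_on with
  | empty => simp
  | insert p T hpT ih =>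
    have hT' : ∀ q ∈ T, q.Prime := fun q hq => hT q (Finset.mem_insert_of_mem hq)
    have hp := hT p (Finset.mem_insert_self p T)
    have hpos : 0 < ∏ q ∈ T, q := Finset.prod_pos (fun q hq => (hT' q hq).pos)
    have hcop : Nat.Coprime p (∏ q ∈ T, q) := by
      refine Nat.Coprime.prod_right (fun q hq => ?_)
      exact (Nat.coprime_primes hp (hT' q hq)).mpr (fun h => hpT (h ▸ hq))
    have e1 : ∀ b b', ∏ q ∈ insert p T, G q b b' = G p b b' * ∏ q ∈ T, G q b b' := fun b b' =>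
      Finset.prod_insert hpT
    simp_rw [e1]
    rw [Finset.prod_insert hpT, Finset.prod_insert hpT,
      crt_mul2 hp.pos hpos hcop (φ := G p) (ψ := fun b b' => ∏ q ∈ T, G q b b')
        (hG1 p (Finset.mem_insert_self p T)) (hG2 p (Finset.mem_insert_self p T)) ?_ ?_,
      ih hT' (fun q hq => hG1 q (Finset.mem_insert_of_mem hq))
        (fun q hq => hG2 q (Finset.mem_insert_of_mem hq))]
    · intro b b'
      refine Finset.prod_congr rfl (fun q hq => ?_)
      exact crt_perdvd (f := fun b => G q b b') (Finset.dvd_prod_of_mem (fun q => q) hq)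
        (fun b => hG1 q (Finset.mem_insert_of_mem hq) b b') b
    · intro b b'
      refine Finset.prod_congr rfl (fun q hq => ?_)
      exact crt_perdvd (f := fun b' => G q b b') (Finset.dvd_prod_of_mem (fun q => q) hq)
        (fun b' => hG2 q (Finset.mem_insert_of_mem hq) b b') b'

private theorem avb_box {F : ℕ → ℕ → ℝ} {d l q : ℕ} (h1 : ∀ b b', F (b + d) b' = F b b')
    (h2 : ∀ b b', F b (b' + d) = F b b') (h0 : ∀ b b', 0 ≤ F b b') (hq : l ≤ q * d) :
    ∑ b ∈ range l, ∑ b' ∈ range l, F b b' ≤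
      (q : ℝ) ^ 2 * ∑ b ∈ range d, ∑ b' ∈ range d, F b b' := by
  have hsub : range l ⊆ range (q * d) := Finset.range_subset_range.mpr hq
  have a1 : ∀ b, ∑ b' ∈ range (q * d), F b b' = q * ∑ b' ∈ range d, F b b' := by
    intro b
    have := Per_mul (h2 b) q 0
    rwa [Nat.zero_add, ← Finset.range_eq_Ico] at this
  have a2 : ∑ b ∈ range (q * d), ∑ b' ∈ range d, F b b' =
      q * ∑ b ∈ range d, ∑ b' ∈ range d, F b b' := by
    have := Per_mul (f := fun b => ∑ b' ∈ range d, F b b')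
      (fun b => Finset.sum_congr rfl fun b' _ => h1 b b') q 0
    rwa [Nat.zero_add, ← Finset.range_eq_Ico] at this
  calc ∑ b ∈ range l, ∑ b' ∈ range l, F b b'
      ≤ ∑ b ∈ range l, ∑ b' ∈ range (q * d), F b b' :=
        Finset.sum_le_sum fun b _ =>
          Finset.sum_le_sum_of_subset_of_nonneg hsub fun b' _ _ => h0 b b'
    _ ≤ ∑ b ∈ range (q * d), ∑ b' ∈ range (q * d), F b b' :=
        Finset.sum_le_sum_of_subset_of_nonneg hsub fun b _ _ =>
          Finset.sum_nonneg fun b' _ => h0 b b'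
    _ = (q : ℝ) ^ 2 * ∑ b ∈ range d, ∑ b' ∈ range d, F b b' := by
        simp_rw [a1]
        rw [← Finset.mul_sum, a2]
        ring

theorem avS2 (T : Finset ℕ) (hT : ∀ p ∈ T, p.Prime) (G : ℕ → ℕ → ℕ → ℝ) (α : ℕ → ℝ)
    (hG1 : ∀ p ∈ T, ∀ b b', G p (b + p) b' = G p b b')
    (hG2 : ∀ p ∈ T, ∀ b b', G p b (b' + p) = G p b b')
    (hG0 : ∀ p ∈ T, ∀ b b', 0 ≤ G p b b')
    (hGα : ∀ p ∈ T, ∑ b ∈ range p, ∑ b' ∈ range p, G p b b' ≤ α p * (p : ℝ) ^ 2)
    {l : ℕ} (hl : ∏ p ∈ T, p ≤ l) :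
    ∑ t ∈ range l, ∑ t' ∈ range l, ∏ p ∈ T, G p t t' ≤ 4 * (l : ℝ) ^ 2 * ∏ p ∈ T, α p := by
  set d := ∏ p ∈ T, p with hd
  have hdpos : 0 < d := Finset.prod_pos (fun q hq => (hT q hq).pos)
  set q := l / d + 1 with hq
  have hlq : l ≤ q * d := by
    have h3 := Nat.mod_lt l hdpos
    have h4 := Nat.div_add_mod l d
    have h5 : q * d = d * (l / d) + d := by rw [hq]; ring
    omega
  have hqd : q * d ≤ 2 * l := by
    have h4 := Nat.div_add_mod l d
    have h5 : q * d = d * (l / d) + d := by rw [hq]; ring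
    omega
  have hα : ∀ p ∈ T, 0 ≤ α p := by
    intro p hp
    have h1 : 0 ≤ α p * (p : ℝ) ^ 2 :=
      (Finset.sum_nonneg fun b _ => Finset.sum_nonneg fun b' _ => hG0 p hp b b').trans (hGα p hp)
    have h2 : (0 : ℝ) < (p : ℝ) ^ 2 := by
      have : (0 : ℝ) < p := by exact_mod_cast (hT p hp).pos
      positivity
    exact nonneg_of_mul_nonneg_left h1 h2
  have b1 := avb_box (F := fun t t' => ∏ p ∈ T, G p t t') (d := d) (l := l) (q := q)
    (fun b b' => Finset.prod_congr rfl (fun q hq =>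
      crt_perdvd (f := fun b => G q b b') (Finset.dvd_prod_of_mem (fun q => q) hq)
        (fun b => hG1 q hq b b') b))
    (fun b b' => Finset.prod_congr rfl (fun q hq =>
      crt_perdvd (f := fun b' => G q b b') (Finset.dvd_prod_of_mem (fun q => q) hq)
        (fun b' => hG2 q hq b b') b'))
    (fun b b' => Finset.prod_nonneg fun p hp => hG0 p hp b b') hlq
  refine b1.trans ?_
  have b2 := avb_crt T hT G hG1 hG2
  rw [← hd] at b2
  show (q : ℝ) ^ 2 * ∑ b ∈ range d, ∑ b' ∈ range d, ∏ p ∈ T, G p b b' ≤ _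
  rw [b2]
  have b3 : ∏ p ∈ T, ∑ b ∈ range p, ∑ b' ∈ range p, G p b b' ≤ ∏ p ∈ T, (α p * (p : ℝ) ^ 2) :=
    Finset.prod_le_prod (fun p hp =>
      Finset.sum_nonneg fun b _ => Finset.sum_nonneg fun b' _ => hG0 p hp b b') hGα
  have b4 : ∏ p ∈ T, (α p * (p : ℝ) ^ 2) = (d : ℝ) ^ 2 * ∏ p ∈ T, α p := by
    rw [Finset.prod_mul_distrib, Finset.prod_pow, hd, Nat.cast_prod]
    ring
  have b5 : 0 ≤ ∏ p ∈ T, α p := Finset.prod_nonneg hα
  have b6 : ((q : ℝ) * d) ^ 2 ≤ (2 * l) ^ 2 := by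
    have : (q : ℝ) * d ≤ 2 * l := by exact_mod_cast hqd
    exact pow_le_pow_left₀ (by positivity) this 2
  calc (q : ℝ) ^ 2 * ∏ p ∈ T, ∑ b ∈ range p, ∑ b' ∈ range p, G p b b'
      ≤ (q : ℝ) ^ 2 * ((d : ℝ) ^ 2 * ∏ p ∈ T, α p) := by
        rw [← b4]
        exact mul_le_mul_of_nonneg_left b3 (by positivity)
    _ = ((q : ℝ) * d) ^ 2 * ∏ p ∈ T, α p := by ring
    _ ≤ (2 * l) ^ 2 * ∏ p ∈ T, α p := mul_le_mul_of_nonneg_right b6 b5
    _ = 4 * (l : ℝ) ^ 2 * ∏ p ∈ T, α p := by ring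

end Pool.Agent.RSL
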