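import Mathlib

/-!
# RSL / AvT: truncation of the expansion of a product, and Rankin's trick

`avT`. `∏_{p ∈ P} (1 + x p) = ∑_{T ⊆ P} ∏_{p ∈ T} x p` (`Finset.prod_one_add`), so the left side is at most
`R P D := ∑_{T ⊆ P, D < ∏ T} ∏_{p ∈ T} |x p|`. Claim for all REAL `D ≥ 1`:
`R P D ≤ (∏_{p ∈ P} (1 + γ p)) * ∑_{T ⊆ P, D < ∏ T ≤ D w} ∏_{p ∈ T} G p`.
Induction on `P` (insert `q`). The sets `T` without `q`: induction hypothesis for `D`. The sets `T = T' ∪ {q}`: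
`D/q < ∏ T'`. If `D/q ≥ 1`: induction hypothesis for `D/q`; `D/q < ∏ T₀' ≤ (D/q) w` gives `D < ∏ (T₀' ∪ {q}) ≤ D w`;
the total of both is at most `∏_{P} (1+γ) * (1 + γ q) * ∑` (use `|x q| ≤ G q`). If `D/q < 1`: the sum over all `T' ⊆ P` is at most
`|x q| ∏_{P} (1 + |x p|) ≤ G q ∏_P (1+γ)`, which is the term of `T₀ = {q}` (`D < q ≤ w ≤ D w`).
(State the induction with `((∏ p ∈ T, p : ℕ) : ℝ)` and a real `D`.)

`rankin`: for `D < ∏ T` one has `1 ≤ D^(-σ) (∏ T)^σ = D^(-σ) ∏_{p ∈ T} p^σ`.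
-/

set_option linter.all false

namespace Pool.Agent.RSL

open Finset

private theorem avT_sub {T P : Finset ℕ} {q : ℕ} (hT : T ∈ P.powerset) (hq : q ∉ P) : q ∉ T := fun h =>
  hq (Finset.mem_powerset.1 hT h)

private theorem avT_aux (x G γ : ℕ → ℝ) (w : ℕ) (P : Finset ℕ) :
    (∀ p ∈ P, |x p| ≤ G p) → (∀ p ∈ P, G p ≤ γ p) → (∀ p ∈ P, 1 ≤ p ∧ p ≤ w) → ∀ D : ℝ, 1 ≤ D →
    (∑ T ∈ P.powerset, if D < ((∏ p ∈ T, p : ℕ) : ℝ) then ∏ p ∈ T, |x p| else 0) ≤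
      (∏ p ∈ P, (1 + γ p)) *
        ∑ T ∈ P.powerset, if (D < ((∏ p ∈ T, p : ℕ) : ℝ) ∧ ((∏ p ∈ T, p : ℕ) : ℝ) ≤ D * w) then ∏ p ∈ T, G p else 0 := by
  induction P using Finset.induction_on with
  | empty =>
    intro _ _ _ D hD
    simp only [Finset.powerset_empty, Finset.sum_singleton, Finset.prod_empty, Nat.cast_one]
    rw [if_neg (by linarith), if_neg (by intro h; linarith [h.1])]
    simp
  | insert q P hq ih =>
    intro h1 h2 h3 D hD
    have h1' : ∀ p ∈ P, |x p| ≤ G p := fun p hp => h1 p (Finset.mem_insert_of_mem hp)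
    have h2' : ∀ p ∈ P, G p ≤ γ p := fun p hp => h2 p (Finset.mem_insert_of_mem hp)
    have h3' : ∀ p ∈ P, 1 ≤ p ∧ p ≤ w := fun p hp => h3 p (Finset.mem_insert_of_mem hp)
    have IH := ih h1' h2' h3'
    obtain ⟨hq1, hqw⟩ := h3 q (Finset.mem_insert_self q P)
    have hxq := h1 q (Finset.mem_insert_self q P)
    have hGq := h2 q (Finset.mem_insert_self q P)
    have hG0 : 0 ≤ G q := le_trans (abs_nonneg _) hxq
    have hγ0 : 0 ≤ γ q := le_trans hG0 hGq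
    have hqR : (1 : ℝ) ≤ q := by exact_mod_cast hq1
    have hqwR : (q : ℝ) ≤ w := by exact_mod_cast hqw
    have hq0 : (0 : ℝ) < q := by linarith
    have hPγ : 0 ≤ ∏ p ∈ P, (1 + γ p) := Finset.prod_nonneg fun p hp => by
      have := h1' p hp; have := h2' p hp; have := abs_nonneg (x p); linarith
    -- the sets A and B
    set A : ℝ → ℝ := fun D => ∑ T ∈ P.powerset, if D < ((∏ p ∈ T, p : ℕ) : ℝ) then ∏ p ∈ T, |x p| else 0 with hA
    set B : ℝ → ℝ := fun D => ∑ T ∈ P.powerset, if (D < ((∏ p ∈ T, p : ℕ) : ℝ) ∧ ((∏ p ∈ T, p : ℕ) : ℝ) ≤ D * w) then ∏ p ∈ T, G p else 0 with hB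
    have hGT : ∀ T ∈ P.powerset, 0 ≤ ∏ p ∈ T, G p := fun T hT => Finset.prod_nonneg fun p hp =>
      le_trans (abs_nonneg _) (h1' p (Finset.mem_powerset.1 hT hp))
    have hB0 : ∀ D, 0 ≤ B D := fun D => Finset.sum_nonneg fun T hT => by
      split_ifs
      · exact hGT T hT
      · exact le_rfl
    have eA : (∑ T ∈ (insert q P).powerset, if D < ((∏ p ∈ T, p : ℕ) : ℝ) then ∏ p ∈ T, |x p| else 0) =
        A D + |x q| * A (D / q) := by
      rw [Finset.sum_powerset_insert hq, hA]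
      simp only
      congr 1
      rw [Finset.mul_sum]
      refine Finset.sum_congr rfl fun T hT => ?_
      have hqT := avT_sub hT hq
      rw [Finset.prod_insert hqT, Finset.prod_insert hqT, mul_ite, mul_zero]
      congr 1
      rw [eq_iff_iff, div_lt_iff₀ hq0]
      push_cast
      rw [mul_comm]
    have eB : (∑ T ∈ (insert q P).powerset, if (D < ((∏ p ∈ T, p : ℕ) : ℝ) ∧ ((∏ p ∈ T, p : ℕ) : ℝ) ≤ D * w) then ∏ p ∈ T, G p else 0) =
        B D + G q * B (D / q) := by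
      rw [Finset.sum_powerset_insert hq, hB]
      simp only
      congr 1
      rw [Finset.mul_sum]
      refine Finset.sum_congr rfl fun T hT => ?_
      have hqT := avT_sub hT hq
      rw [Finset.prod_insert hqT, Finset.prod_insert hqT, mul_ite, mul_zero]
      congr 1
      rw [eq_iff_iff, div_lt_iff₀ hq0, div_mul_eq_mul_div, le_div_iff₀ hq0]
      push_cast
      rw [mul_comm (q : ℝ)]
    rw [eA, eB, Finset.prod_insert hq]
    have key : A (D / q) ≤ (∏ p ∈ P, (1 + γ p)) * B (D / q) := by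
      by_cases hc : 1 ≤ D / q
      · exact IH (D / q) hc
      · push Not at hc
        have hB1 : 1 ≤ B (D / q) := by
          have hmem : (∅ : Finset ℕ) ∈ P.powerset := Finset.empty_mem_powerset P
          have hle := Finset.single_le_sum (f := fun T => if (D / q < ((∏ p ∈ T, p : ℕ) : ℝ) ∧ ((∏ p ∈ T, p : ℕ) : ℝ) ≤ D / q * w) then ∏ p ∈ T, G p else 0)
            (s := P.powerset) (fun T hT => by
              split_ifs
              · exact hGT T hT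
              · exact le_rfl) hmem
          simp only [Finset.prod_empty, Nat.cast_one] at hle
          rw [if_pos ⟨hc, by
            rw [div_mul_eq_mul_div, le_div_iff₀ hq0]
            nlinarith⟩] at hle
          exact hle
        have hA1 : A (D / q) ≤ ∏ p ∈ P, (1 + γ p) := by
          calc A (D / q) ≤ ∑ T ∈ P.powerset, ∏ p ∈ T, |x p| := by
                refine Finset.sum_le_sum fun T hT => ?_
                split_ifs
                · exact le_rfl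
                · exact Finset.prod_nonneg fun p _ => abs_nonneg _
            _ = ∏ p ∈ P, (1 + |x p|) := by rw [Finset.prod_one_add]
            _ ≤ ∏ p ∈ P, (1 + γ p) := Finset.prod_le_prod (fun p _ => by positivity) fun p hp => by
                have := h1' p hp; have := h2' p hp; linarith
        calc A (D / q) ≤ ∏ p ∈ P, (1 + γ p) := hA1
          _ = (∏ p ∈ P, (1 + γ p)) * 1 := (mul_one _).symm
          _ ≤ _ := mul_le_mul_of_nonneg_left hB1 hPγ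
    have hIH := IH D hD
    have s1 : |x q| * A (D / q) ≤ G q * ((∏ p ∈ P, (1 + γ p)) * B (D / q)) := by
      have hAnn : 0 ≤ A (D / q) := Finset.sum_nonneg fun T hT => by
        split_ifs
        · exact Finset.prod_nonneg fun p _ => abs_nonneg _
        · exact le_rfl
      exact mul_le_mul hxq key hAnn hG0
    have s2 : A D + |x q| * A (D / q) ≤ (∏ p ∈ P, (1 + γ p)) * (B D + G q * B (D / q)) := by
      calc A D + |x q| * A (D / q) ≤ (∏ p ∈ P, (1 + γ p)) * B D + G q * ((∏ p ∈ P, (1 + γ p)) * B (D / q)) :=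
            add_le_add hIH s1
        _ = _ := by ring
    have s3 : 0 ≤ (∏ p ∈ P, (1 + γ p)) * (B D + G q * B (D / q)) :=
      mul_nonneg hPγ (add_nonneg (hB0 _) (mul_nonneg hG0 (hB0 _)))
    calc A D + |x q| * A (D / q) ≤ (∏ p ∈ P, (1 + γ p)) * (B D + G q * B (D / q)) := s2
      _ ≤ (1 + γ q) * ((∏ p ∈ P, (1 + γ p)) * (B D + G q * B (D / q))) := by nlinarith
      _ = _ := by ring

theorem avT (P : Finset ℕ) (x G γ : ℕ → ℝ) (hxG : ∀ p ∈ P, |x p| ≤ G p)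
    (hGγ : ∀ p ∈ P, G p ≤ γ p) {D w : ℕ} (hD : 1 ≤ D) (hP : ∀ p ∈ P, 1 ≤ p ∧ p ≤ w) :
    |∏ p ∈ P, (1 + x p) - ∑ T ∈ P.powerset.filter (fun T => ∏ p ∈ T, p ≤ D), ∏ p ∈ T, x p| ≤
      (∏ p ∈ P, (1 + γ p)) *
        ∑ T ∈ P.powerset.filter (fun T => D < ∏ p ∈ T, p ∧ ∏ p ∈ T, p ≤ D * w), ∏ p ∈ T, G p := by
  have h := avT_aux x G γ w P hxG hGγ hP (D : ℝ) (by exact_mod_cast hD)
  have e1 : ∏ p ∈ P, (1 + x p) - ∑ T ∈ P.powerset.filter (fun T => ∏ p ∈ T, p ≤ D), ∏ p ∈ T, x p =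
      ∑ T ∈ P.powerset.filter (fun T => ¬ ∏ p ∈ T, p ≤ D), ∏ p ∈ T, x p := by
    rw [Finset.prod_one_add, ← Finset.sum_filter_add_sum_filter_not P.powerset (fun T => ∏ p ∈ T, p ≤ D)]
    ring
  rw [e1]
  refine le_trans (Finset.abs_sum_le_sum_abs _ _) ?_
  have e2 : ∑ T ∈ P.powerset.filter (fun T => ¬ ∏ p ∈ T, p ≤ D), |∏ p ∈ T, x p| =
      ∑ T ∈ P.powerset, if (D : ℝ) < ((∏ p ∈ T, p : ℕ) : ℝ) then ∏ p ∈ T, |x p| else 0 := by
    rw [Finset.sum_filter]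
    refine Finset.sum_congr rfl fun T _ => ?_
    rw [Finset.abs_prod]
    congr 1
    rw [eq_iff_iff, not_le, Nat.cast_lt]
  have e3 : ∑ T ∈ P.powerset.filter (fun T => D < ∏ p ∈ T, p ∧ ∏ p ∈ T, p ≤ D * w), ∏ p ∈ T, G p =
      ∑ T ∈ P.powerset, if ((D : ℝ) < ((∏ p ∈ T, p : ℕ) : ℝ) ∧ ((∏ p ∈ T, p : ℕ) : ℝ) ≤ (D : ℝ) * w) then ∏ p ∈ T, G p else 0 := by
    rw [Finset.sum_filter]
    refine Finset.sum_congr rfl fun T _ => ?_
    congr 1
    rw [eq_iff_iff, Nat.cast_lt, ← Nat.cast_mul, Nat.cast_le]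
  rw [e2, e3]
  exact h

theorem rankin (P : Finset ℕ) (α : ℕ → ℝ) (hα : ∀ p ∈ P, 0 ≤ α p) {D : ℕ} (hD : 1 ≤ D)
    {σ : ℝ} (hσ : 0 ≤ σ) :
    ∑ T ∈ P.powerset.filter (fun T => D < ∏ p ∈ T, p), ∏ p ∈ T, α p ≤
      (D : ℝ) ^ (-σ) * ∏ p ∈ P, (1 + α p * (p : ℝ) ^ σ) := by
  have hD0 : (0 : ℝ) < D := by exact_mod_cast hD
  rw [Finset.prod_one_add, Finset.mul_sum, Finset.sum_filter]
  refine Finset.sum_le_sum fun T hT => ?_
  have hTα : 0 ≤ ∏ p ∈ T, α p := Finset.prod_nonneg fun p hp => hα p (Finset.mem_powerset.1 hT hp)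
  have e : ∏ p ∈ T, (α p * (p : ℝ) ^ σ) = (∏ p ∈ T, α p) * ((∏ p ∈ T, p : ℕ) : ℝ) ^ σ := by
    rw [Finset.prod_mul_distrib, Nat.cast_prod, Real.finset_prod_rpow _ _ (fun p _ => Nat.cast_nonneg p)]
  rw [e]
  split_ifs with h
  · have hlt : (D : ℝ) ≤ ((∏ p ∈ T, p : ℕ) : ℝ) := by exact_mod_cast h.le
    have h1 : 1 ≤ (D : ℝ) ^ (-σ) * ((∏ p ∈ T, p : ℕ) : ℝ) ^ σ := by
      rw [Real.rpow_neg hD0.le, inv_mul_eq_div, le_div_iff₀ (Real.rpow_pos_of_pos hD0 σ), one_mul]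
      exact Real.rpow_le_rpow hD0.le hlt hσ
    nlinarith
  · positivity

end Pool.Agent.RSL
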