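import Pool.Agent.RSL.AvA
import Pool.Agent.RSL.AvB
import Pool.Agent.RSL.AvT

/-!
# RSL / AvS: the average of a product

`avg2`: `avT` pointwise with `γ` (`x p t t'`, `G p t t'` for fixed `t, t'`), summed over the box; then `avS1` (`|x| ≤ G ≤ γ ≤ 1`), and for every
`T` with `D < ∏ T ≤ D w ≤ l` `avS2`; finally `rankin`.
-/

namespace Pool.Agent.RSL

open Finset Pool.Agent.RSC

theorem avg2 (P : Finset ℕ) (hP : ∀ p ∈ P, p.Prime) (x G : ℕ → ℕ → ℕ → ℝ) (γ α : ℕ → ℝ)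
    (hx1 : ∀ p ∈ P, ∀ b b', x p (b + p) b' = x p b b')
    (hx2 : ∀ p ∈ P, ∀ b b', x p b (b' + p) = x p b b')
    (hx0 : ∀ p ∈ P, ∑ b ∈ range p, ∑ b' ∈ range p, x p b b' = 0)
    (hG1 : ∀ p ∈ P, ∀ b b', G p (b + p) b' = G p b b')
    (hG2 : ∀ p ∈ P, ∀ b b', G p b (b' + p) = G p b b')
    (hxG : ∀ p ∈ P, ∀ b b', |x p b b'| ≤ G p b b')
    (hGγ : ∀ p ∈ P, ∀ b b', G p b b' ≤ γ p) (hγ : ∀ p ∈ P, γ p ≤ 1) (hα : ∀ p ∈ P, 0 ≤ α p)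
    (hGα : ∀ p ∈ P, ∑ b ∈ range p, ∑ b' ∈ range p, G p b b' ≤ α p * (p : ℝ) ^ 2)
    {D w l : ℕ} (hD : 1 ≤ D) (hw : ∀ p ∈ P, p ≤ w) (hl : D * w ≤ l) {σ : ℝ} (hσ : 0 ≤ σ) :
    |∑ t ∈ range l, ∑ t' ∈ range l, ∏ p ∈ P, (1 + x p t t') - (l : ℝ) ^ 2| ≤
      2 * l * (D : ℝ) ^ 2 + 4 * (l : ℝ) ^ 2 * (∏ p ∈ P, (1 + γ p)) *
        ((D : ℝ) ^ (-σ) * ∏ p ∈ P, (1 + α p * (p : ℝ) ^ σ)) := by
  have hG0 : ∀ p ∈ P, ∀ b b', 0 ≤ G p b b' := fun p hp b b' => (abs_nonneg _).trans (hxG p hp b b')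
  have hx1' : ∀ p ∈ P, ∀ b b', |x p b b'| ≤ 1 := fun p hp b b' =>
    (hxG p hp b b').trans ((hGγ p hp b b').trans (hγ p hp))
  have hP1 : ∀ p ∈ P, 1 ≤ p ∧ p ≤ w := fun p hp => ⟨(hP p hp).one_le, hw p hp⟩
  set C : ℝ := ∏ p ∈ P, (1 + γ p) with hC
  have hC0 : 0 ≤ C := Finset.prod_nonneg fun p hp => by
    have := (hG0 p hp 0 0).trans (hGγ p hp 0 0)
    linarith
  set F := P.powerset.filter (fun T => ∏ p ∈ T, p ≤ D) with hF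
  set F' := P.powerset.filter (fun T => D < ∏ p ∈ T, p ∧ ∏ p ∈ T, p ≤ D * w) with hF'
  have hpt : ∀ t t' : ℕ, |∏ p ∈ P, (1 + x p t t') - ∑ T ∈ F, ∏ p ∈ T, x p t t'| ≤
      C * ∑ T ∈ F', ∏ p ∈ T, G p t t' := by
    intro t t'
    exact avT P (fun p => x p t t') (fun p => G p t t') γ (fun p hp => hxG p hp t t')
      (fun p hp => hGγ p hp t t') hD hP1
  have h1 := avS1 P hP x hx1 hx2 hx0 hx1' hD l
  rw [← hF] at h1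
  have h2 : |∑ t ∈ range l, ∑ t' ∈ range l, ∏ p ∈ P, (1 + x p t t') -
      ∑ t ∈ range l, ∑ t' ∈ range l, ∑ T ∈ F, ∏ p ∈ T, x p t t'| ≤
      C * ∑ t ∈ range l, ∑ t' ∈ range l, ∑ T ∈ F', ∏ p ∈ T, G p t t' := by
    rw [← Finset.sum_sub_distrib]
    simp_rw [← Finset.sum_sub_distrib]
    rw [Finset.mul_sum]
    simp_rw [Finset.mul_sum]
    refine (Finset.abs_sum_le_sum_abs _ _).trans (Finset.sum_le_sum fun t _ => ?_)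
    refine (Finset.abs_sum_le_sum_abs _ _).trans (Finset.sum_le_sum fun t' _ => ?_)
    have := hpt t t'
    rwa [Finset.mul_sum] at this
  have h3 : ∑ t ∈ range l, ∑ t' ∈ range l, ∑ T ∈ F', ∏ p ∈ T, G p t t' =
      ∑ T ∈ F', ∑ t ∈ range l, ∑ t' ∈ range l, ∏ p ∈ T, G p t t' := by
    rw [Finset.sum_comm (s := F')]
    exact Finset.sum_congr rfl fun t _ => Finset.sum_comm
  have h4 : ∑ T ∈ F', ∑ t ∈ range l, ∑ t' ∈ range l, ∏ p ∈ T, G p t t' ≤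
      ∑ T ∈ F', 4 * (l : ℝ) ^ 2 * ∏ p ∈ T, α p := by
    refine Finset.sum_le_sum fun T hT => ?_
    rw [hF', Finset.mem_filter, Finset.mem_powerset] at hT
    obtain ⟨hTP, _, hT2⟩ := hT
    exact avS2 T (fun p hp => hP p (hTP hp)) G α (fun p hp => hG1 p (hTP hp)) (fun p hp => hG2 p (hTP hp))
      (fun p hp => hG0 p (hTP hp)) (fun p hp => hGα p (hTP hp)) (hT2.trans hl)
  have h5 : ∑ T ∈ F', ∏ p ∈ T, α p ≤ (D : ℝ) ^ (-σ) * ∏ p ∈ P, (1 + α p * (p : ℝ) ^ σ) := by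
    refine le_trans ?_ (rankin P α hα hD hσ)
    refine Finset.sum_le_sum_of_subset_of_nonneg ?_ ?_
    · intro T hT
      rw [hF', Finset.mem_filter] at hT
      rw [Finset.mem_filter]
      exact ⟨hT.1, hT.2.1⟩
    · intro T hT _
      rw [Finset.mem_filter, Finset.mem_powerset] at hT
      exact Finset.prod_nonneg fun p hp => hα p (hT.1 hp)
  have h6 : ∑ T ∈ F', ∑ t ∈ range l, ∑ t' ∈ range l, ∏ p ∈ T, G p t t' ≤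
      4 * (l : ℝ) ^ 2 * ((D : ℝ) ^ (-σ) * ∏ p ∈ P, (1 + α p * (p : ℝ) ^ σ)) := by
    refine h4.trans ?_
    rw [← Finset.mul_sum]
    exact mul_le_mul_of_nonneg_left h5 (by positivity)
  rw [h3] at h2
  have h7 := mul_le_mul_of_nonneg_left h6 hC0
  have h8 := abs_sub_abs_le_abs_sub (∑ t ∈ range l, ∑ t' ∈ range l, ∏ p ∈ P, (1 + x p t t') - (l : ℝ) ^ 2)
    (∑ t ∈ range l, ∑ t' ∈ range l, ∑ T ∈ F, ∏ p ∈ T, x p t t' - (l : ℝ) ^ 2)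
  have h9 : (∑ t ∈ range l, ∑ t' ∈ range l, ∏ p ∈ P, (1 + x p t t') - (l : ℝ) ^ 2) -
    (∑ t ∈ range l, ∑ t' ∈ range l, ∑ T ∈ F, ∏ p ∈ T, x p t t' - (l : ℝ) ^ 2) =
    ∑ t ∈ range l, ∑ t' ∈ range l, ∏ p ∈ P, (1 + x p t t') -
      ∑ t ∈ range l, ∑ t' ∈ range l, ∑ T ∈ F, ∏ p ∈ T, x p t t' := by ring
  rw [h9] at h8
  have h10 : 4 * (l : ℝ) ^ 2 * C * ((D : ℝ) ^ (-σ) * ∏ p ∈ P, (1 + α p * (p : ℝ) ^ σ)) =
    C * (4 * (l : ℝ) ^ 2 * ((D : ℝ) ^ (-σ) * ∏ p ∈ P, (1 + α p * (p : ℝ) ^ σ))) := by ring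
  rw [h10]
  linarith

end Pool.Agent.RSL
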