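import Pool.Agent.RSL.LowP

/-!
# RSL / BCL: almost surely there is a long chain at every scale `XX ε j`

Borel-Cantelli (`MeasureTheory.measure_limsup_eq_zero` or `ae_eventually_notMem`): by `low_prob` at `X = XX ε j`, the probability of the bad
event is at most `C/(log log XX)² ≤ C/(j log (1+ε))²` for large `j` (`XX ε j ≥ exp ((1+ε)^j)`, `XX ε j → ∞`), summable. Outside the bad event
there is `b` with `W ≠ 0`, i.e. `W = 1`, for all `p`.
-/

namespace Pool.Agent.RSL

open Finset Filter MeasureTheory ProbabilityTheory Pool.Agent.RSC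

variable {Ω : Type*} [MeasurableSpace Ω] {μ : Measure Ω} [IsProbabilityMeasure μ] {a : ℕ → Ω → ℕ}

private theorem BCL_W (k p c b : ℕ) : W k p c b = 0 ∨ W k p c b = 1 := by
  unfold W
  split_ifs
  · exact Or.inr rfl
  · exact Or.inl rfl

private theorem BCL_tend {ε : ℝ} (h0 : 0 < ε) : Tendsto (fun j => XX ε j) atTop atTop := by
  have h1 : Tendsto (fun j : ℕ => (1 + ε) ^ j) atTop atTop :=
    tendsto_pow_atTop_atTop_of_one_lt (by linarith)
  have h2 : Tendsto (fun j : ℕ => Real.exp ((1 + ε) ^ j)) atTop atTop :=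
    Real.tendsto_exp_atTop.comp h1
  exact tendsto_nat_ceil_atTop.comp h2

private theorem BCL_log {ε : ℝ} (h0 : 0 < ε) (j : ℕ) :
    (j : ℝ) * Real.log (1 + ε) ≤ Real.log (Real.log (XX ε j)) := by
  have h1 : (0 : ℝ) < (1 + ε) ^ j := by positivity
  have h2 : Real.exp ((1 + ε) ^ j) ≤ (XX ε j : ℝ) := Nat.le_ceil _
  have h3 : (1 + ε) ^ j ≤ Real.log (XX ε j) := by
    rw [Real.le_log_iff_exp_le (lt_of_lt_of_le (Real.exp_pos _) h2)]
    exact h2
  have h4 := Real.log_le_log h1 h3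
  rwa [Real.log_pow] at h4

theorem low_ae (h : Unif μ a) {ε : ℝ} (h0 : 0 < ε) (h1 : ε < 1) :
    ∀ᵐ ω ∂μ, ∀ᶠ j : ℕ in atTop, ∃ b ∈ Icc 1 (XX ε j / 2),
      ∀ p ∈ oddP (yy (NN ε (XX ε j))), W (kk ε (XX ε j)) p (a p ω) b = 1 := by
  obtain ⟨C, hC, hlow⟩ := low_prob h h0 h1
  have hev := (BCL_tend h0).eventually hlow
  obtain ⟨J, hJ⟩ := eventually_atTop.mp (hev.and (eventually_ge_atTop 1))
  set B : ℕ → Set Ω := fun j => {ω | J ≤ j ∧ ∀ b ∈ Icc 1 (XX ε j / 2),
    ∃ p ∈ oddP (yy (NN ε (XX ε j))), W (kk ε (XX ε j)) p (a p ω) b = 0} with hB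
  have hlg : 0 < Real.log (1 + ε) := Real.log_pos (by linarith)
  set c : ℝ := C / Real.log (1 + ε) ^ 2 with hc
  have hc0 : 0 ≤ c := by positivity
  have hBle : ∀ j, μ (B j) ≤ ENNReal.ofReal (c * (1 / (j : ℝ) ^ 2)) := by
    intro j
    by_cases hn : J ≤ j
    · obtain ⟨h5, h6⟩ := hJ j hn
      have h2 : B j ⊆ {ω | ∀ b ∈ Icc 1 (XX ε j / 2),
          ∃ p ∈ oddP (yy (NN ε (XX ε j))), W (kk ε (XX ε j)) p (a p ω) b = 0} :=
        fun ω hω => hω.2
      refine (measure_mono h2).trans ?_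
      rw [← ofReal_measureReal]
      refine ENNReal.ofReal_le_ofReal (h5.trans ?_)
      have h7 := BCL_log h0 j
      have hj0 : (0 : ℝ) < j := by exact_mod_cast h6
      have h8 : (0 : ℝ) < (j : ℝ) * Real.log (1 + ε) := by positivity
      have h9 : ((j : ℝ) * Real.log (1 + ε)) ^ 2 ≤ Real.log (Real.log (XX ε j)) ^ 2 :=
        pow_le_pow_left₀ h8.le h7 2
      calc C / Real.log (Real.log (XX ε j)) ^ 2 ≤ C / ((j : ℝ) * Real.log (1 + ε)) ^ 2 :=
            div_le_div_of_nonneg_left hC.le (by positivity) h9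
        _ = c * (1 / (j : ℝ) ^ 2) := by
            rw [hc]
            field_simp
    · have h2 : B j = ∅ := by
        ext ω
        simp only [hB, Set.mem_ofPred_eq, Set.mem_empty_iff_false, iff_false]
        rintro ⟨h3, _⟩
        exact hn h3
      rw [h2, measure_empty]
      exact zero_le
  have hsum : Summable (fun j : ℕ => c * (1 / (j : ℝ) ^ 2)) :=
    (Real.summable_one_div_nat_pow.mpr (by norm_num)).mul_left c
  have hfin : ∑' j, μ (B j) ≠ ⊤ := by
    refine ne_top_of_le_ne_top ?_ (ENNReal.tsum_le_tsum hBle)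
    rw [← ENNReal.ofReal_tsum_of_nonneg (fun j => by positivity) hsum]
    exact ENNReal.ofReal_ne_top
  filter_upwards [ae_eventually_notMem hfin] with ω hω
  filter_upwards [hω, eventually_ge_atTop J] with j hn1 hn2
  by_contra hcon
  push Not at hcon
  refine hn1 ⟨hn2, fun b hb => ?_⟩
  obtain ⟨p, hp, hW⟩ := hcon b hb
  refine ⟨p, hp, ?_⟩
  rcases BCL_W (kk ε (XX ε j)) p (a p ω) b with h3 | h3
  · exact h3
  · exact absurd h3 hW

end Pool.Agent.RSL
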