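import Pool.Agent.RSL.LocS

/-!
# RSL / PairS: large primes

`pair_sum`. By `mm_pairs`, `mm k p b b' / p ≤ (1/w) #{(i,j) ∈ [1,k]² : p ∣ 2^i b - 2^j b'}` for `p > w`. Exchange the sums: for
every `(i,j)` the integer `Δ = 2^i b - 2^j b'` is nonzero with `|Δ| ≤ 2^k N`, so at most `log₂ (2^k N) ≤ k + Nat.log 2 N + 1`
primes divide it (`2^(number of prime divisors) ≤ ∏ of the prime divisors ≤ |Δ|`; work in `ℤ` or with `max - min` in `ℕ`).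
-/

namespace Pool.Agent.RSL

open Finset Pool.Agent.RSC

private lemma ps_card {D M : ℕ} (hD : D ≠ 0) (hM : D ≤ M) : D.primeFactors.card ≤ Nat.log 2 M := by
  have h1 : 2 ^ D.primeFactors.card ≤ ∏ p ∈ D.primeFactors, p := by
    rw [← Finset.prod_const]
    apply Finset.prod_le_prod
    · intro i _
      norm_num
    · intro i hi
      exact (Nat.prime_of_mem_primeFactors hi).two_le
  have h2 : ∏ p ∈ D.primeFactors, p ≤ D :=
    Nat.le_of_dvd (Nat.pos_of_ne_zero hD) (Nat.prod_primeFactors_dvd D)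
  have h3 : 2 ^ D.primeFactors.card ≤ M := h1.trans (h2.trans hM)
  exact Nat.le_log_of_pow_le (by norm_num) h3

private lemma ps_log {N : ℕ} (hN : 1 ≤ N) (k : ℕ) : Nat.log 2 (N * 2 ^ k) = Nat.log 2 N + k := by
  induction k with
  | zero => simp
  | succ m ih =>
    have h0 : N * 2 ^ m ≠ 0 := by positivity
    rw [pow_succ, ← mul_assoc, Nat.log_mul_base (by norm_num) h0, ih]
    ring

private lemma ps_one {k N w : ℕ} (P2 : Finset ℕ) (hP2 : ∀ p ∈ P2, p.Prime ∧ w < p)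
    {b b' : ℕ} (hb : b ≤ N) (hb' : b' ≤ N) (hN : 1 ≤ N) {i j : ℕ} (hi : i ≤ k) (hj : j ≤ k)
    (hne : 2 ^ i * b ≠ 2 ^ j * b') :
    (P2.filter (fun p => 2 ^ i * b ≡ 2 ^ j * b' [MOD p])).card ≤ k + Nat.log 2 N := by
  set D : ℕ := ((2 ^ i * b : ℕ) - (2 ^ j * b' : ℕ) : ℤ).natAbs with hD
  have hD0 : D ≠ 0 := by
    rw [hD]
    intro h
    rw [Int.natAbs_eq_zero, sub_eq_zero] at h
    exact hne (by exact_mod_cast h)
  have hb1 : 2 ^ i * b ≤ 2 ^ k * N := Nat.mul_le_mul (Nat.pow_le_pow_right (by norm_num) hi) hb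
  have hb2 : 2 ^ j * b' ≤ 2 ^ k * N := Nat.mul_le_mul (Nat.pow_le_pow_right (by norm_num) hj) hb'
  have hDle : D ≤ 2 ^ k * N := by
    have h1 : ((D : ℕ) : ℤ) ≤ ((2 ^ k * N : ℕ) : ℤ) := by
      rw [hD, Int.natCast_natAbs, abs_le]
      constructor
      · have : ((2 ^ j * b' : ℕ) : ℤ) ≤ ((2 ^ k * N : ℕ) : ℤ) := by exact_mod_cast hb2
        have h0 : (0 : ℤ) ≤ ((2 ^ i * b : ℕ) : ℤ) := Int.natCast_nonneg _
        linarith
      · have : ((2 ^ i * b : ℕ) : ℤ) ≤ ((2 ^ k * N : ℕ) : ℤ) := by exact_mod_cast hb1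
        have h0 : (0 : ℤ) ≤ ((2 ^ j * b' : ℕ) : ℤ) := Int.natCast_nonneg _
        linarith
    exact_mod_cast h1
  have hsub : P2.filter (fun p => 2 ^ i * b ≡ 2 ^ j * b' [MOD p]) ⊆ D.primeFactors := by
    intro p hp
    rw [mem_filter] at hp
    rw [Nat.mem_primeFactors]
    refine ⟨(hP2 p hp.1).1, ?_, hD0⟩
    have h1 : (p : ℤ) ∣ ((2 ^ i * b : ℕ) - (2 ^ j * b' : ℕ) : ℤ) := by
      have := (Nat.modEq_iff_dvd.1 hp.2.symm)
      exact this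
    rw [hD]
    exact Int.natCast_dvd.1 h1
  have h1 := (card_le_card hsub).trans (ps_card hD0 hDle)
  have h2 : Nat.log 2 (2 ^ k * N) ≤ k + Nat.log 2 N := by
    have : Nat.log 2 (N * 2 ^ k) = Nat.log 2 N + k := ps_log hN k
    rw [mul_comm, this, add_comm]
  exact h1.trans h2

theorem pair_sum {k N w : ℕ} (P2 : Finset ℕ) (hP2 : ∀ p ∈ P2, p.Prime ∧ w < p) (hw : 1 ≤ w)
    {b b' : ℕ} (hb : b ≤ N) (hb' : b' ≤ N) (hN : 1 ≤ N)
    (hne : ∀ i ∈ Icc 1 k, ∀ j ∈ Icc 1 k, 2 ^ i * b ≠ 2 ^ j * b') :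
    ∑ p ∈ P2, (mm k p b b' : ℝ) / p ≤ (k : ℝ) ^ 2 * (k + Nat.log 2 N + 1) / w := by
  have hw0 : (0 : ℝ) < w := by exact_mod_cast hw
  have h1 : ∀ p ∈ P2, (mm k p b b' : ℝ) / p ≤
      (((Icc 1 k ×ˢ Icc 1 k).filter (fun ij => 2 ^ ij.1 * b ≡ 2 ^ ij.2 * b' [MOD p])).card : ℝ) / w := by
    intro p hp
    have hm := mm_pairs (hP2 p hp).1 k b b'
    have hm' : (mm k p b b' : ℝ) ≤
      (((Icc 1 k ×ˢ Icc 1 k).filter (fun ij => 2 ^ ij.1 * b ≡ 2 ^ ij.2 * b' [MOD p])).card : ℝ) := by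
      exact_mod_cast hm
    have hwp : (w : ℝ) ≤ p := by exact_mod_cast (hP2 p hp).2.le
    calc (mm k p b b' : ℝ) / p ≤ (mm k p b b' : ℝ) / w :=
          div_le_div_of_nonneg_left (Nat.cast_nonneg _) hw0 hwp
      _ ≤ _ := div_le_div_of_nonneg_right hm' hw0.le
  refine (sum_le_sum h1).trans ?_
  rw [← sum_div]
  apply div_le_div_of_nonneg_right _ hw0.le
  have h2 : ∑ p ∈ P2, ((Icc 1 k ×ˢ Icc 1 k).filter
        (fun ij => 2 ^ ij.1 * b ≡ 2 ^ ij.2 * b' [MOD p])).card =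
      ∑ ij ∈ Icc 1 k ×ˢ Icc 1 k, (P2.filter (fun p => 2 ^ ij.1 * b ≡ 2 ^ ij.2 * b' [MOD p])).card := by
    simp only [card_filter]
    exact sum_comm
  have h3 : ∑ ij ∈ Icc 1 k ×ˢ Icc 1 k, (P2.filter (fun p => 2 ^ ij.1 * b ≡ 2 ^ ij.2 * b' [MOD p])).card ≤
      ∑ _ij ∈ Icc 1 k ×ˢ Icc 1 k, (k + Nat.log 2 N) := by
    apply sum_le_sum
    intro ij hij
    rw [mem_product] at hij
    exact ps_one P2 hP2 hb hb' hN (mem_Icc.1 hij.1).2 (mem_Icc.1 hij.2).2 (hne _ hij.1 _ hij.2)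
  rw [sum_const, card_product, Nat.card_Icc, smul_eq_mul] at h3
  have h4 : (∑ p ∈ P2, (((Icc 1 k ×ˢ Icc 1 k).filter
        (fun ij => 2 ^ ij.1 * b ≡ 2 ^ ij.2 * b' [MOD p])).card : ℝ)) ≤ ((k + 1 - 1) * (k + 1 - 1) * (k + Nat.log 2 N) : ℕ) := by
    rw [← Nat.cast_sum, h2]
    exact_mod_cast h3
  refine h4.trans ?_
  have e : (k + 1 - 1) = k := by omega
  rw [e]
  push_cast
  nlinarith [sq_nonneg (k : ℝ)]

end Pool.Agent.RSL
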