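import Pool.Agent.RSL.Mid
import Pool.Agent.RSL.PairS

/-!
# RSL / Comb: the second moment, general parameters

Write `b = β + Q t`, `b' = β + Q t'`, `P1 = {p ∈ P : p ≤ w}`, `P2 = {p ∈ P : p > w}`.
Split the pairs `(t,t')` into diagonal ones (`diag_card`, at most `k² l`) and the others.
* not diagonal: `∏_{P2} ff ≤ exp (2 ∑_{P2} mm/p) ≤ exp (2 k² (k + log₂ N + 1)/w)` by `ff_up` and `pair_sum`; then the sum of
  `∏_{P1} ff ≥ 0` over the non-diagonal pairs is at most the sum over all pairs: `mid`.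
* diagonal: `∏_P ff ≤ ∏_P (1 - k/p)⁻¹` by `ff_up2`.
-/

namespace Pool.Agent.RSL

open Finset Pool.Agent.RSC

theorem comb {k z w D Q β l N : ℕ} (hk : 1 ≤ k) (hz : 4 * k ≤ z) (hw : 1 ≤ w) (P : Finset ℕ)
    (hP : ∀ p ∈ P, p.Prime ∧ z < p ∧ Nat.Coprime Q p) (hQ : 1 ≤ Q) (hN1 : 1 ≤ N)
    (hN : ∀ t < l, β + Q * t ≤ N) (hD : 1 ≤ D) (hl : D * w ≤ l) {σ : ℝ} (hσ : 0 ≤ σ) :
    ∑ t ∈ range l, ∑ t' ∈ range l, ∏ p ∈ P, ff k p (β + Q * t) (β + Q * t') ≤
      Real.exp (2 * ((k : ℝ) ^ 2 * (k + Nat.log 2 N + 1) / w)) *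
      ((∏ p ∈ P.filter (fun p => p ≤ w), AA k p) * ((l : ℝ) ^ 2 + 2 * l * (D : ℝ) ^ 2 +
        4 * (l : ℝ) ^ 2 * (∏ p ∈ P.filter (fun p => p ≤ w), (1 + 3 * (k : ℝ) / p)) *
        ((D : ℝ) ^ (-σ) *
          ∏ p ∈ P.filter (fun p => p ≤ w), (1 + 6 * (k : ℝ) ^ 2 / (p : ℝ) ^ 2 * (p : ℝ) ^ σ)))) +
      (k : ℝ) ^ 2 * l * ∏ p ∈ P, (1 - (k : ℝ) / p)⁻¹ := by
  classical
  set P1 := P.filter (fun p => p ≤ w) with hP1
  set E : ℝ := Real.exp (2 * ((k : ℝ) ^ 2 * (k + Nat.log 2 N + 1) / w)) with hE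
  set B : ℝ := ∏ p ∈ P, (1 - (k : ℝ) / p)⁻¹ with hB
  have h4 : ∀ p ∈ P, 4 * k ≤ p := fun p hp => by
    have := hP p hp
    omega
  have hB1 : ∀ p ∈ P, 0 ≤ (1 - (k : ℝ) / p)⁻¹ := by
    intro p hp
    have h5 : (4 : ℝ) * k ≤ p := by exact_mod_cast h4 p hp
    have h6 : (0 : ℝ) < p := by exact_mod_cast (hP p hp).1.pos
    have h7 : (k : ℝ) / p ≤ 1 := by
      rw [div_le_one h6]
      have : (0 : ℝ) ≤ k := Nat.cast_nonneg k
      linarith
    exact inv_nonneg.mpr (by linarith)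
  have hff0 : ∀ t t' : ℕ, ∀ p ∈ P, 0 ≤ ff k p (β + Q * t) (β + Q * t') :=
    fun t t' p hp => ff_nonneg (hP p hp).1 (h4 p hp) _ _
  have key : ∀ t ∈ range l, ∀ t' ∈ range l,
      ∏ p ∈ P, ff k p (β + Q * t) (β + Q * t') ≤
        E * ∏ p ∈ P1, ff k p (β + Q * t) (β + Q * t') +
        (if (∃ i ∈ Icc 1 k, ∃ j ∈ Icc 1 k, 2 ^ i * (β + Q * t) = 2 ^ j * (β + Q * t'))
          then B else 0) := by
    intro t ht t' ht'
    split_ifs with hd
    · have h1 : ∏ p ∈ P, ff k p (β + Q * t) (β + Q * t') ≤ B :=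
        Finset.prod_le_prod (fun p hp => hff0 t t' p hp)
          (fun p hp => ff_up2 (hP p hp).1 (h4 p hp) _ _)
      have h2 : 0 ≤ E * ∏ p ∈ P1, ff k p (β + Q * t) (β + Q * t') :=
        mul_nonneg (Real.exp_pos _).le
          (Finset.prod_nonneg (fun p hp => hff0 t t' p (Finset.mem_filter.mp hp).1))
      linarith
    · have hne : ∀ i ∈ Icc 1 k, ∀ j ∈ Icc 1 k, 2 ^ i * (β + Q * t) ≠ 2 ^ j * (β + Q * t') := by
        intro i hi j hj he
        exact hd ⟨i, hi, j, hj, he⟩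
      have hsplit := Finset.prod_filter_mul_prod_filter_not P (fun p => p ≤ w)
        (fun p => ff k p (β + Q * t) (β + Q * t'))
      have h3 : ∏ p ∈ P.filter (fun p => ¬ p ≤ w), ff k p (β + Q * t) (β + Q * t') ≤ E := by
        calc ∏ p ∈ P.filter (fun p => ¬ p ≤ w), ff k p (β + Q * t) (β + Q * t')
            ≤ ∏ p ∈ P.filter (fun p => ¬ p ≤ w),
                Real.exp (2 * ((mm k p (β + Q * t) (β + Q * t') : ℝ) / p)) := by
              refine Finset.prod_le_prod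
                (fun p hp => hff0 t t' p (Finset.mem_filter.mp hp).1) (fun p hp => ?_)
              have hpP := (Finset.mem_filter.mp hp).1
              have h8 := ff_up (hP p hpP).1 (h4 p hpP) (β + Q * t) (β + Q * t')
              have h9 := Real.add_one_le_exp
                (2 * ((mm k p (β + Q * t) (β + Q * t') : ℝ) / p))
              have h10 : 2 * (mm k p (β + Q * t) (β + Q * t') : ℝ) / p =
                2 * ((mm k p (β + Q * t) (β + Q * t') : ℝ) / p) := by ring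
              linarith
          _ = Real.exp (∑ p ∈ P.filter (fun p => ¬ p ≤ w),
                2 * ((mm k p (β + Q * t) (β + Q * t') : ℝ) / p)) := (Real.exp_sum _ _).symm
          _ ≤ E := by
              rw [hE]
              refine Real.exp_le_exp.mpr ?_
              rw [← Finset.mul_sum]
              refine mul_le_mul_of_nonneg_left ?_ (by norm_num)
              exact pair_sum (P.filter (fun p => ¬ p ≤ w))
                (fun p hp => ⟨(hP p (Finset.mem_filter.mp hp).1).1,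
                  not_le.mp (Finset.mem_filter.mp hp).2⟩) hw
                (hN t (Finset.mem_range.mp ht)) (hN t' (Finset.mem_range.mp ht')) hN1 hne
      have h11 : 0 ≤ ∏ p ∈ P1, ff k p (β + Q * t) (β + Q * t') :=
        Finset.prod_nonneg (fun p hp => hff0 t t' p (Finset.mem_filter.mp hp).1)
      rw [← hsplit, add_zero, mul_comm E]
      exact mul_le_mul_of_nonneg_left h3 h11
  have hmid := mid (w := w) (β := β) (l := l) hk hz P1 (fun p hp => by
    have h12 := Finset.mem_filter.mp hp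
    exact ⟨(hP p h12.1).1, (hP p h12.1).2.1, h12.2, (hP p h12.1).2.2⟩) hD hl hσ
  have hdiag := diag_card k β l hQ
  have hsum : ∑ t ∈ range l, ∑ t' ∈ range l,
      (if (∃ i ∈ Icc 1 k, ∃ j ∈ Icc 1 k, 2 ^ i * (β + Q * t) = 2 ^ j * (β + Q * t'))
          then B else 0) ≤ (k : ℝ) ^ 2 * l * B := by
    rw [← Finset.sum_product' (range l) (range l) (fun t t' =>
      (if (∃ i ∈ Icc 1 k, ∃ j ∈ Icc 1 k, 2 ^ i * (β + Q * t) = 2 ^ j * (β + Q * t'))
          then B else (0 : ℝ)))]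
    have h14 : (∑ x ∈ range l ×ˢ range l,
        (if (∃ i ∈ Icc 1 k, ∃ j ∈ Icc 1 k, 2 ^ i * (β + Q * x.1) = 2 ^ j * (β + Q * x.2))
          then B else (0 : ℝ))) = ∑ x ∈ (range l ×ˢ range l).filter (fun t : ℕ × ℕ =>
            ∃ i ∈ Icc 1 k, ∃ j ∈ Icc 1 k, 2 ^ i * (β + Q * t.1) = 2 ^ j * (β + Q * t.2)), B := by
      rw [Finset.sum_filter]
    rw [h14, Finset.sum_const, nsmul_eq_mul]
    refine mul_le_mul_of_nonneg_right ?_ (Finset.prod_nonneg hB1)
    have h13 : (((range l ×ˢ range l).filter (fun t : ℕ × ℕ => ∃ i ∈ Icc 1 k, ∃ j ∈ Icc 1 k,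
      2 ^ i * (β + Q * t.1) = 2 ^ j * (β + Q * t.2))).card : ℝ) ≤ ((k ^ 2 * l : ℕ) : ℝ) := by
      exact_mod_cast (by convert hdiag)
    calc _ ≤ ((k ^ 2 * l : ℕ) : ℝ) := by convert h13
      _ = (k : ℝ) ^ 2 * l := by push_cast; ring
  calc ∑ t ∈ range l, ∑ t' ∈ range l, ∏ p ∈ P, ff k p (β + Q * t) (β + Q * t')
      ≤ ∑ t ∈ range l, ∑ t' ∈ range l,
        (E * ∏ p ∈ P1, ff k p (β + Q * t) (β + Q * t') +
        (if (∃ i ∈ Icc 1 k, ∃ j ∈ Icc 1 k, 2 ^ i * (β + Q * t) = 2 ^ j * (β + Q * t'))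
          then B else 0)) :=
        Finset.sum_le_sum (fun t ht => Finset.sum_le_sum (fun t' ht' => key t ht t' ht'))
    _ = E * ∑ t ∈ range l, ∑ t' ∈ range l, ∏ p ∈ P1, ff k p (β + Q * t) (β + Q * t') +
        ∑ t ∈ range l, ∑ t' ∈ range l,
        (if (∃ i ∈ Icc 1 k, ∃ j ∈ Icc 1 k, 2 ^ i * (β + Q * t) = 2 ^ j * (β + Q * t'))
          then B else 0) := by
        rw [Finset.mul_sum, ← Finset.sum_add_distrib]
        refine Finset.sum_congr rfl (fun t _ => ?_)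
        rw [Finset.mul_sum, ← Finset.sum_add_distrib]
    _ ≤ _ := add_le_add (mul_le_mul_of_nonneg_left hmid (Real.exp_pos _).le) hsum

end Pool.Agent.RSL
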