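import Pool.Agent.RSC.Prob
import Pool.Agent.RSC.Thr
import Pool.Agent.RSC.LocA
import Pool.Agent.RSC.Crt
import Pool.Agent.RSC.Per

/-!
# RSL / Def: the longest Cunningham chain in the random sieve model (MP_77cbc6, MP_bc85be, helper45)

Goal: almost surely, for every `ε > 0` and all large `x`, the exact lengths of the chains which start below `x` are all
of `[1, (1-ε) log x / log log x]` and none is larger than `(1+ε) log x / log log x`.

Model and notation: see `RSC/Core.lean` and `RSC/Prob.lean` (`th`, `RS`, `ch`, `W`, `U`, `yy`, `Unif`).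

Lower bound (second moment with weights). `W k p a b = 1` iff none of `2^i b - 1`, `1 ≤ i ≤ k`, is `≡ a` modulo `p`.
For random `a` the survival probability of `b` is `S1 k p b`. With `X = ∑_b ∏_p W k p (a p) b / S1 k p b` the
second moment is `∑_{b,b'} ∏_p ff k p b b'`.
-/

namespace Pool.Agent.RSL

open Finset Pool.Agent.RSC

/-- survival probability of `b` modulo `p` -/
noncomputable def S1 (k p b : ℕ) : ℝ := U k p b b

/-- `E W W' / (E W * E W')` -/
noncomputable def ff (k p b b' : ℕ) : ℝ := U k p b b' / (S1 k p b * S1 k p b')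

/-- mean value of `ff` over all pairs of residue classes -/
noncomputable def AA (k p : ℕ) : ℝ := (∑ b ∈ range p, ∑ b' ∈ range p, ff k p b b') / (p : ℝ) ^ 2

open Classical in
/-- the number of `a < p` which kill both `b` and `b'` -/
noncomputable def mm (k p b b' : ℕ) : ℕ :=
  ((range p).filter (fun a => W k p a b = 0 ∧ W k p a b' = 0)).card

/-- `ff / AA - 1`, mean value zero -/
noncomputable def xx (k p b b' : ℕ) : ℝ := ff k p b b' / AA k p - 1

/-- majorant of `|xx|` -/
noncomputable def Gm (k p b b' : ℕ) : ℝ := 2 * (mm k p b b' : ℝ) / p + 4 * (k : ℝ) ^ 2 / (p : ℝ) ^ 2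

/-- the rule for the choice of the class of `β` modulo a small prime `p`: `β ≡ 0` if `a + 1 ≢ 0`, `β ≡ 1` otherwise -/
def phi (p a β : ℕ) : Prop := ((a + 1) % p ≠ 0 ∧ β % p = 0) ∨ ((a + 1) % p = 0 ∧ β % p = 1)

/-! ### Parameters for the lower bound at the scale `X` -/

/-- chain length -/
noncomputable def kk (ε : ℝ) (X : ℕ) : ℕ := ⌊(1 - ε) * Real.log X / Real.log (Real.log X)⌋₊

/-- small primes: `p ≤ zz` -/
noncomputable def zz (ε : ℝ) (X : ℕ) : ℕ := ⌊ε * Real.log X / 16⌋₊

/-- middle primes: `zz < p ≤ ww` -/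
noncomputable def ww (X : ℕ) : ℕ := ⌈Real.log X ^ 5⌉₊

/-- level of the truncation -/
noncomputable def DD (ε : ℝ) (X : ℕ) : ℕ := ⌊Real.exp (ε * Real.log X / 8)⌋₊

/-- product of the small odd primes -/
noncomputable def QQ (ε : ℝ) (X : ℕ) : ℕ := ∏ p ∈ oddP (zz ε X), p

/-- number of `b` in one class modulo `QQ` -/
noncomputable def ll (ε : ℝ) (X : ℕ) : ℕ := X / (2 * QQ ε X)

/-- bound for the members of the chains -/
noncomputable def NN (ε : ℝ) (X : ℕ) : ℕ := 2 ^ kk ε X * X

/-- the active odd primes `> zz` -/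
noncomputable def PP (ε : ℝ) (X : ℕ) : Finset ℕ := (oddP (yy (NN ε X))).filter (fun p => zz ε X < p)

/-- the scales -/
noncomputable def XX (ε : ℝ) (j : ℕ) : ℕ := ⌈Real.exp ((1 + ε) ^ j)⌉₊

/-- the forbidden length at `n` -/
noncomputable def KK (ε : ℝ) (n : ℕ) : ℕ := ⌈(1 + ε) * Real.log n / Real.log (Real.log n)⌉₊

end Pool.Agent.RSL
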