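import Mathlib

/-!
# RSL / DiagS: diagonal pairs, change of variables

`diag_card`. For fixed `t`, `i`, `j` at most one `t'` satisfies `2^i (β + Q t) = 2^j (β + Q t')` (`Q ≥ 1`).

`reindex`. `t ↦ (β + Q t) % p` is a bijection of `range p` (`Q` is invertible modulo `p`); `F` is periodic.
-/

namespace Pool.Agent.RSL

open Finset

open Classical in
theorem diag_card (k β l : ℕ) {Q : ℕ} (hQ : 1 ≤ Q) :
    ((range l ×ˢ range l).filter (fun t : ℕ × ℕ => ∃ i ∈ Icc 1 k, ∃ j ∈ Icc 1 k,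
      2 ^ i * (β + Q * t.1) = 2 ^ j * (β + Q * t.2))).card ≤ k ^ 2 * l := by
  refine (card_le_card (t := (Icc 1 k ×ˢ Icc 1 k).biUnion (fun q : ℕ × ℕ => (range l ×ˢ range l).filter
        (fun t : ℕ × ℕ => 2 ^ q.1 * (β + Q * t.1) = 2 ^ q.2 * (β + Q * t.2)))) ?_).trans ?_
  · intro t ht
    have hf : ∀ (P : ℕ × ℕ → Prop) (_ : DecidablePred P) (S : Finset (ℕ × ℕ)) (u : ℕ × ℕ),
        u ∈ S.filter P → u ∈ S ∧ P u := fun P _ S u hu => mem_filter.1 hu
    obtain ⟨h1, i, hi, j, hj, h2⟩ := hf _ _ _ _ ht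
    exact mem_biUnion.2 ⟨(i, j), mem_product.2 ⟨hi, hj⟩, mem_filter.2 ⟨h1, h2⟩⟩
  refine (card_biUnion_le_card_mul _ _ l ?_).trans ?_
  · intro q _
    have h2 : ((range l ×ˢ range l).filter
        (fun t : ℕ × ℕ => 2 ^ q.1 * (β + Q * t.1) = 2 ^ q.2 * (β + Q * t.2))).card ≤ (range l).card := by
      refine card_le_card_of_injOn Prod.fst ?_ ?_
      · intro t ht
        have ht' := (mem_filter.1 (mem_coe.1 ht)).1
        exact mem_coe.2 (mem_product.1 ht').1
      · intro t ht u hu htu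
        have e1 := (mem_filter.1 (mem_coe.1 ht)).2
        have e2 := (mem_filter.1 (mem_coe.1 hu)).2
        have htu' : t.1 = u.1 := htu
        rw [htu', e2] at e1
        have e3 := Nat.eq_of_mul_eq_mul_left (by positivity) e1
        have e4 : Q * u.2 = Q * t.2 := by omega
        have e5 := Nat.eq_of_mul_eq_mul_left (by omega) e4
        exact Prod.ext htu' e5.symm
    rwa [card_range] at h2
  · rw [card_product, Nat.card_Icc, Nat.add_sub_cancel, sq]

private theorem reindex1 {p Q : ℕ} (hp : 0 < p) (hQ : Nat.Coprime Q p) (β : ℕ) (G : ℕ → ℝ)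
    (hG : ∀ b, G (b + p) = G b) :
    ∑ t ∈ range p, G (β + Q * t) = ∑ b ∈ range p, G b := by
  have hper : Function.Periodic G p := hG
  have hinj : Set.InjOn (fun t => (β + Q * t) % p) (range p : Set ℕ) := by
    intro t ht u hu h
    have h3 : (β + Q * t) ≡ (β + Q * u) [MOD p] := h
    have h4 : Q * t ≡ Q * u [MOD p] := Nat.ModEq.add_left_cancel' β h3
    have h5 : t ≡ u [MOD p] := Nat.ModEq.cancel_left_of_coprime (by
      rw [Nat.gcd_comm]
      exact hQ) h4
    have ht' := mem_range.1 (mem_coe.1 ht)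
    have hu' := mem_range.1 (mem_coe.1 hu)
    exact Nat.ModEq.eq_of_lt_of_lt h5 ht' hu'
  have himg : (range p).image (fun t => (β + Q * t) % p) = range p := by
    apply eq_of_subset_of_card_le
    · intro x hx
      obtain ⟨t, _, rfl⟩ := mem_image.1 hx
      exact mem_range.2 (Nat.mod_lt _ hp)
    · rw [card_image_of_injOn hinj]
  calc ∑ t ∈ range p, G (β + Q * t) = ∑ t ∈ range p, G ((β + Q * t) % p) :=
        sum_congr rfl fun t _ => (hper.map_mod_nat _).symm
    _ = ∑ b ∈ (range p).image (fun t => (β + Q * t) % p), G b := by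
        rw [sum_image hinj]
    _ = ∑ b ∈ range p, G b := by rw [himg]

theorem reindex {p Q : ℕ} (hp : 0 < p) (hQ : Nat.Coprime Q p) (β : ℕ) (F : ℕ → ℕ → ℝ)
    (h1 : ∀ b b', F (b + p) b' = F b b') (h2 : ∀ b b', F b (b' + p) = F b b') :
    ∑ t ∈ range p, ∑ t' ∈ range p, F (β + Q * t) (β + Q * t') =
      ∑ b ∈ range p, ∑ b' ∈ range p, F b b' := by
  have e1 : ∀ t ∈ range p, ∑ t' ∈ range p, F (β + Q * t) (β + Q * t') =
      ∑ b' ∈ range p, F (β + Q * t) b' := fun t _ =>
    reindex1 hp hQ β (fun b' => F (β + Q * t) b') (fun b' => h2 _ b')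
  rw [sum_congr rfl e1]
  exact reindex1 hp hQ β (fun b => ∑ b' ∈ range p, F b b') (fun b =>
    sum_congr rfl fun b' _ => h1 b b')

end Pool.Agent.RSL
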