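import Pool.Agent.RSL.Def

/-!
# RSL / FinL: the deterministic end

`chain_of_low`: let `b` be the number of the hypothesis, `X = XX ε j`, `k = kk ε X`, `n = 2 b - 1 ≤ X`. For `i < k`: `ch i n = 2^(i+1) b - 1` is odd and
`≤ 2^k X = NN ε X`; if an odd prime `p` is active for it (`1 ≤ log (ch i n) * th p`) then `1 ≤ log NN * th p`, so `p ≤ yy NN` (`act_iff`,
`3 ≤ NN`), so `W k p (a p) b = 1`, which says `2^(i+1) b ≢ a p + 1`, so `(2^(i+1) b - 1) % p ≠ a p` (`a p < p`). So `ch i n ∈ RS a`.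

`short_of_up`: `n` even: `ch 0 n = n ∉ RS a` and `0 < KK`. `n` odd, large: let `p` be the prime of the hypothesis: `2^i b ≡ a p + 1` for some
`1 ≤ i ≤ KK`, `b = (n+1)/2`; then `ch (i-1) n = 2^i b - 1 ≡ a p`, so `(ch (i-1) n) % p = a p`, and `p ≤ yy n` is active for `n`, hence for
`ch (i-1) n ≥ n`; so `ch (i-1) n ∉ RS a`.

`finite_len`: for `n ≥ 1` the chain cannot be infinite: otherwise for all `m` the chain of `ch m n` is infinite, `ch m n → ∞`, against `short_of_up`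
(`ch i (ch m n) = ch (i + m) n`). For `n = 0`: `ch 0 0 = 0 ∉ RS a`.
-/

namespace Pool.Agent.RSL

open Finset Filter Pool.Agent.RSC

theorem ch_ch (i m n : ℕ) : ch i (ch m n) = ch (i + m) n := by
  unfold ch
  have h : 1 ≤ 2 ^ m * (n + 1) := Nat.one_le_iff_ne_zero.2 (by positivity)
  rw [Nat.sub_add_cancel h, pow_add, mul_assoc]

private theorem ch_ge (i n : ℕ) : n ≤ ch i n := by
  unfold ch
  have h : 1 ≤ 2 ^ i := Nat.one_le_two_pow
  have h2 : 1 * (n + 1) ≤ 2 ^ i * (n + 1) := Nat.mul_le_mul_right _ h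
  omega

private theorem ch_ge_index (m n : ℕ) : m ≤ ch m n := by
  unfold ch
  have h : m < 2 ^ m := Nat.lt_two_pow_self
  have h2 : 2 ^ m * 1 ≤ 2 ^ m * (n + 1) := Nat.mul_le_mul_left _ (by omega)
  omega

private theorem mod_of_modEq {p x c : ℕ} (hx : 1 ≤ x) (hc : c < p) (h : x ≡ c + 1 [MOD p]) :
    (x - 1) % p = c := by
  have h1 : (x - 1) + 1 ≡ c + 1 [MOD p] := by
    rw [Nat.sub_add_cancel hx]
    exact h
  have h2 : x - 1 ≡ c [MOD p] := Nat.ModEq.add_right_cancel' 1 h1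
  have h3 : (x - 1) % p = c % p := h2
  rw [h3, Nat.mod_eq_of_lt hc]

private theorem modEq_of_mod {p x c : ℕ} (hx : 1 ≤ x) (hc : c < p) (h : (x - 1) % p = c) :
    x ≡ c + 1 [MOD p] := by
  have h3 : x - 1 ≡ c [MOD p] := by
    unfold Nat.ModEq
    rw [h, Nat.mod_eq_of_lt hc]
  have h4 := Nat.ModEq.add_right 1 h3
  rwa [Nat.sub_add_cancel hx] at h4

private theorem XX_ge_three {ε : ℝ} (h0 : 0 < ε) (j : ℕ) : 3 ≤ XX ε j := by
  unfold XX
  have h1 : (1 : ℝ) ≤ (1 + ε) ^ j := one_le_pow₀ (by linarith)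
  have h2 : Real.exp 1 ≤ Real.exp ((1 + ε) ^ j) := Real.exp_le_exp.2 h1
  have h3 : (2 : ℝ) < Real.exp 1 := by
    have := Real.exp_one_gt_d9
    linarith
  have h4 : ((2 : ℕ) : ℝ) < Real.exp ((1 + ε) ^ j) := by
    push_cast
    linarith
  have h5 : 2 < ⌈Real.exp ((1 + ε) ^ j)⌉₊ := Nat.lt_ceil.2 h4
  omega

theorem chain_of_low {ε : ℝ} (h0 : 0 < ε) (h1 : ε < 1) (a : ℕ → ℕ) (ha : ∀ p, p.Prime → a p < p)
    (h : ∀ᶠ j : ℕ in atTop, ∃ b ∈ Icc 1 (XX ε j / 2),
      ∀ p ∈ oddP (yy (NN ε (XX ε j))), W (kk ε (XX ε j)) p (a p) b = 1) :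
    ∀ᶠ j : ℕ in atTop, ∃ n, 1 ≤ n ∧ n ≤ XX ε j ∧ ∀ i < kk ε (XX ε j), ch i n ∈ RS a := by
  filter_upwards [h] with j hj
  obtain ⟨b, hb, hW⟩ := hj
  rw [mem_Icc] at hb
  have hX3 := XX_ge_three h0 j
  refine ⟨2 * b - 1, by omega, by omega, ?_⟩
  intro i hi
  have hch : ch i (2 * b - 1) = 2 ^ (i + 1) * b - 1 := by
    unfold ch
    have e : 2 * b - 1 + 1 = 2 * b := by omega
    rw [e, pow_succ, mul_assoc]
  have hpow2 : 2 ≤ 2 ^ (i + 1) := by
    calc 2 = 2 ^ 1 := by norm_num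
      _ ≤ 2 ^ (i + 1) := Nat.pow_le_pow_right (by norm_num) (by omega)
  have hmul2 : 2 * 1 ≤ 2 ^ (i + 1) * b := Nat.mul_le_mul hpow2 hb.1
  have hNN : ch i (2 * b - 1) ≤ NN ε (XX ε j) := by
    rw [hch]
    unfold NN
    have e1 : 2 ^ (i + 1) ≤ 2 ^ kk ε (XX ε j) := Nat.pow_le_pow_right (by norm_num) (by omega)
    have e2 : b ≤ XX ε j := by omega
    have e3 : 2 ^ (i + 1) * b ≤ 2 ^ kk ε (XX ε j) * XX ε j := Nat.mul_le_mul e1 e2
    omega
  have hNN3 : 3 ≤ NN ε (XX ε j) := by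
    unfold NN
    have e1 : 1 ≤ 2 ^ kk ε (XX ε j) := Nat.one_le_two_pow
    have e3 : 1 * XX ε j ≤ 2 ^ kk ε (XX ε j) * XX ε j := Nat.mul_le_mul_right _ e1
    omega
  refine ⟨?_, ?_⟩
  · rw [hch, pow_succ]
    have e : 2 ^ i * 2 * b = 2 * (2 ^ i * b) := by ring
    rw [pow_succ, e] at hmul2
    rw [e]
    omega
  · intro p hp hp2 hact hmod
    have hpos : (0 : ℝ) < (ch i (2 * b - 1) : ℝ) := by
      have : 1 ≤ ch i (2 * b - 1) := by
        rw [hch]
        omega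
      exact_mod_cast this
    have hlog : Real.log (ch i (2 * b - 1) : ℝ) ≤ Real.log (NN ε (XX ε j) : ℝ) := by
      apply Real.log_le_log hpos
      exact_mod_cast hNN
    have hact2 : 1 ≤ Real.log (NN ε (XX ε j) : ℝ) * th p :=
      hact.trans (mul_le_mul_of_nonneg_right hlog (th_pos p).le)
    have hple : p ≤ yy (NN ε (XX ε j)) := (act_iff hNN3).1 hact2
    have hmem : p ∈ oddP (yy (NN ε (XX ε j))) := by
      unfold oddP
      rw [mem_filter, mem_range]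
      exact ⟨by omega, hp, hp2⟩
    have hW1 := hW p hmem
    have hne : ∀ i' ∈ Icc 1 (kk ε (XX ε j)), ¬ (2 ^ i' * b ≡ a p + 1 [MOD p]) := by
      by_contra hcon
      unfold W at hW1
      rw [if_neg hcon] at hW1
      norm_num at hW1
    apply hne (i + 1) (by rw [mem_Icc]; omega)
    rw [hch] at hmod
    exact modEq_of_mod (by omega) (ha p hp) hmod

theorem short_of_up {ε : ℝ} (h0 : 0 < ε) (h1 : ε < 1) (a : ℕ → ℕ) (ha : ∀ p, p.Prime → a p < p)
    (h : ∀ᶠ n : ℕ in atTop, n % 2 = 1 →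
      ∃ p ∈ oddP (yy n), W (KK ε n) p (a p) ((n + 1) / 2) = 0) :
    ∀ᶠ n : ℕ in atTop, ∃ i < KK ε n, ch i n ∉ RS a := by
  filter_upwards [h, eventually_ge_atTop 3] with n hn hn3
  rcases Nat.mod_two_eq_zero_or_one n with he | ho
  · refine ⟨0, ?_, ?_⟩
    · unfold KK
      rw [Nat.ceil_pos]
      have h3 : (3 : ℝ) ≤ n := by exact_mod_cast hn3
      have hl : 1 < Real.log n := by
        rw [Real.lt_log_iff_exp_lt (by linarith)]
        have := Real.exp_one_lt_d9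
        linarith
      have hll : 0 < Real.log (Real.log n) := Real.log_pos hl
      positivity
    · intro hmem
      have e : ch 0 n = n := by
        unfold ch
        simp
      rw [e] at hmem
      have := hmem.1
      omega
  · obtain ⟨p, hp, hW⟩ := hn ho
    unfold oddP at hp
    rw [mem_filter, mem_range] at hp
    obtain ⟨hple, hpp, hp2⟩ := hp
    have hex : ∃ i ∈ Icc 1 (KK ε n), 2 ^ i * ((n + 1) / 2) ≡ a p + 1 [MOD p] := by
      by_contra hcon
      push Not at hcon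
      unfold W at hW
      rw [if_pos hcon] at hW
      norm_num at hW
    obtain ⟨i, hi, hmod⟩ := hex
    rw [mem_Icc] at hi
    refine ⟨i - 1, by omega, ?_⟩
    intro hmem
    have hb2 : 2 * ((n + 1) / 2) = n + 1 := by omega
    have hch : ch (i - 1) n = 2 ^ i * ((n + 1) / 2) - 1 := by
      unfold ch
      have e : 2 ^ i = 2 ^ (i - 1) * 2 := by
        rw [← pow_succ]
        congr 1
        omega
      rw [e, mul_assoc, hb2]
    have hpos : 1 ≤ 2 ^ i * ((n + 1) / 2) := by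
      have e1 : 1 ≤ 2 ^ i := Nat.one_le_two_pow
      have e2 : 1 ≤ (n + 1) / 2 := by omega
      calc 1 = 1 * 1 := rfl
        _ ≤ 2 ^ i * ((n + 1) / 2) := Nat.mul_le_mul e1 e2
    have hmodv : (2 ^ i * ((n + 1) / 2) - 1) % p = a p := mod_of_modEq hpos (ha p hpp) hmod
    have hact : 1 ≤ Real.log (n : ℝ) * th p := (act_iff hn3).2 (by omega)
    have hlog : Real.log (n : ℝ) ≤ Real.log (ch (i - 1) n : ℝ) := by
      apply Real.log_le_log
      · have : 0 < n := by omega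
        exact_mod_cast this
      · exact_mod_cast ch_ge (i - 1) n
    have hact2 : 1 ≤ Real.log (ch (i - 1) n : ℝ) * th p :=
      hact.trans (mul_le_mul_of_nonneg_right hlog (th_pos p).le)
    have := hmem.2 p hpp hp2 hact2
    rw [hch] at this
    exact this hmodv

theorem finite_len {ε : ℝ} (a : ℕ → ℕ) (h : ∀ᶠ n : ℕ in atTop, ∃ i < KK ε n, ch i n ∉ RS a)
    (n : ℕ) : ∃ i, ch i n ∉ RS a := by
  rw [eventually_atTop] at h
  obtain ⟨N, hN⟩ := h
  obtain ⟨i, _, hi⟩ := hN (ch N n) (ch_ge_index N n)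
  exact ⟨i + N, by rwa [ch_ch] at hi⟩

end Pool.Agent.RSL
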