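import Pool.Agent.RSL.FinU

/-!
# RSL / FinM: every exact length occurs

`u(x) = log x/log log x`.

`lower`: `δ = ε/10`, `hL`, `hU` for `δ`. Let `x` be large. Choose `j` with `XX δ j ≤ x^(1/(1+3δ))`, `j` maximal
(e.g. `j = ⌊log (log x/(1+3δ) - 1)/log (1+δ)⌋`, note `XX δ j ≤ exp ((1+δ)^j) + 1 ≤ exp ((1+δ)^j + 1)`); put `X = XX δ j`. Then
`log X ≥ (1+δ)^j ≥ (log x/(1+3δ) - 1)/(1+δ)`. Let `n₀ ≤ X` be the start of a chain of length `≥ kk δ X` (`hL`), and `M` its exact length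
(`Nat.find` of `finite_len`): `ch i n₀ ∈ RS a` for `i < M`, `ch M n₀ ∉ RS a`, `kk δ X ≤ M ≤ (1+δ) u(X)` (`upper` at `x = X`).
Let `1 ≤ k ≤ (1-ε) u(x)`; then `k ≤ (1-δ) u(X)`, so `k ≤ kk δ X ≤ M`, because, as `log log X ≤ log log x`,
`u(X) ≥ (log x/(1+3δ) - 1)/((1+δ) log log x)`, and `(1-δ)/((1+3δ)(1+δ)) > 1 - 10 δ = 1 - ε`. Put `n = ch (M - k) n₀`: `ch i n = ch (i + M - k) n₀ ∈ RS a` for
`i < k`, `ch k n = ch M n₀ ∉ RS a` (`ch_ch`), `n ≥ 1`, and `n ≤ 2^M (X+1) ≤ X^(1+δ) (X+1)... ≤ x`: `2^M = exp (M log 2) ≤ exp ((1+δ) log X/log log X)`,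
`log (2^M (X+1)) ≤ log X + 1 + 2 log X/log log X ≤ (1+δ) log X ≤ log x`.
-/

namespace Pool.Agent.RSL

open Finset Filter Pool.Agent.RSC

theorem finM_XX_tendsto {δ : ℝ} (h0 : 0 < δ) : Tendsto (fun j => XX δ j) atTop atTop := by
  unfold XX
  exact tendsto_nat_ceil_atTop.comp
    (Real.tendsto_exp_atTop.comp (tendsto_pow_atTop_atTop_of_one_lt (by linarith)))

theorem finM_scale {δ : ℝ} (h0 : 0 < δ) {P : ℕ → Prop} (hP : ∀ᶠ j in atTop, P j) :
    ∀ᶠ x : ℕ in atTop, ∃ j, P j ∧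
      Real.log (XX δ j) ≤ Real.log x / (1 + 3 * δ) ∧
      (Real.log x / (1 + 3 * δ) - 1) / (1 + δ) ≤ Real.log (XX δ j) := by
  have hl1 : 0 < Real.log (1 + δ) := Real.log_pos (by linarith)
  have ht : Tendsto (fun x : ℕ => Real.log x / (1 + 3 * δ) - 1) atTop atTop := by
    apply tendsto_atTop_add_const_right
    apply Tendsto.atTop_div_const (by positivity)
    exact Real.tendsto_log_atTop.comp tendsto_natCast_atTop_atTop
  have hj : Tendsto (fun x : ℕ =>
      ⌊Real.log (Real.log x / (1 + 3 * δ) - 1) / Real.log (1 + δ)⌋₊) atTop atTop := by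
    apply tendsto_nat_floor_atTop.comp
    apply Tendsto.atTop_div_const hl1
    exact Real.tendsto_log_atTop.comp ht
  filter_upwards [hj.eventually hP, ht.eventually_ge_atTop 1] with x hx htx
  set t : ℝ := Real.log x / (1 + 3 * δ) - 1 with htdef
  set j : ℕ := ⌊Real.log t / Real.log (1 + δ)⌋₊ with hjdef
  have ht0 : 0 < t := by linarith
  have hlt : 0 ≤ Real.log t := Real.log_nonneg htx
  have hj1 : (j : ℝ) ≤ Real.log t / Real.log (1 + δ) := Nat.floor_le (by positivity)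
  have hj2 : Real.log t / Real.log (1 + δ) < (j : ℝ) + 1 := Nat.lt_floor_add_one _
  have hp1 : (1 + δ) ^ j ≤ t := by
    rw [le_div_iff₀ hl1] at hj1
    have : Real.log ((1 + δ) ^ j) ≤ Real.log t := by rw [Real.log_pow]; exact hj1
    exact (Real.log_le_log_iff (by positivity) ht0).1 this
  have hp2 : t ≤ (1 + δ) ^ (j + 1) := by
    rw [div_lt_iff₀ hl1] at hj2
    have : Real.log t ≤ Real.log ((1 + δ) ^ (j + 1)) := by
      rw [Real.log_pow]; push_cast; exact hj2.le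
    exact (Real.log_le_log_iff ht0 (by positivity)).1 this
  have hX1 : Real.exp ((1 + δ) ^ j) ≤ (XX δ j : ℝ) := Nat.le_ceil _
  have hX2 : (XX δ j : ℝ) < Real.exp ((1 + δ) ^ j) + 1 := Nat.ceil_lt_add_one (Real.exp_pos _).le
  have hXpos : (0 : ℝ) < XX δ j := lt_of_lt_of_le (Real.exp_pos _) hX1
  refine ⟨j, hx, ?_, ?_⟩
  · have h1 : (1 : ℝ) ≤ Real.exp ((1 + δ) ^ j) := Real.one_le_exp (by positivity)
    have h2 : (XX δ j : ℝ) ≤ Real.exp ((1 + δ) ^ j + 1) := by
      rw [Real.exp_add]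
      have h3 : (2 : ℝ) ≤ Real.exp 1 := by
        have := Real.add_one_le_exp (1 : ℝ)
        linarith
      nlinarith
    have h4 : Real.log (XX δ j) ≤ (1 + δ) ^ j + 1 := by
      rw [← Real.log_exp ((1 + δ) ^ j + 1)]
      exact Real.log_le_log hXpos h2
    have h5 : t + 1 = Real.log x / (1 + 3 * δ) := by rw [htdef]; ring
    linarith
  · have h4 : (1 + δ) ^ j ≤ Real.log (XX δ j) := by
      rw [Real.le_log_iff_exp_le hXpos]
      exact hX1
    rw [div_le_iff₀ (by linarith)]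
    calc t ≤ (1 + δ) ^ (j + 1) := hp2
      _ = (1 + δ) ^ j * (1 + δ) := pow_succ _ _
      _ ≤ Real.log (XX δ j) * (1 + δ) := mul_le_mul_of_nonneg_right h4 (by linarith)

theorem finM_ineq {δ L LX : ℝ} (h0 : 0 < δ) (h1 : 10 * δ < 1) (hL : 2 ≤ 5 * δ * L)
    (hX : (L / (1 + 3 * δ) - 1) / (1 + δ) ≤ LX) : (1 - 10 * δ) * L ≤ (1 - δ) * LX := by
  have hL0 : 0 < L := by
    by_contra h
    push Not at h
    nlinarith
  have h2 : (1 - δ) * ((L / (1 + 3 * δ) - 1) / (1 + δ)) ≤ (1 - δ) * LX :=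
    mul_le_mul_of_nonneg_left hX (by linarith)
  refine le_trans ?_ h2
  have h3 : (1 - δ) * ((L / (1 + 3 * δ) - 1) / (1 + δ)) =
      (1 - δ) * (L - (1 + 3 * δ)) / ((1 + 3 * δ) * (1 + δ)) := by
    field_simp
  rw [h3, le_div_iff₀ (by positivity)]
  have h4 : (1 - 10 * δ) * L * ((1 + 3 * δ) * (1 + δ)) =
      (1 - 6 * δ) * L - (37 * δ ^ 2 + 30 * δ ^ 3) * L := by ring
  have h5 : 0 ≤ (37 * δ ^ 2 + 30 * δ ^ 3) * L := by positivity
  have h6 : (1 - δ) * (1 + 3 * δ) ≤ 2 := by nlinarith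
  rw [h4]
  nlinarith

theorem lower {ε : ℝ} (h0 : 0 < ε) (h1 : ε < 1) (a : ℕ → ℕ)
    (hL : ∀ᶠ j : ℕ in atTop, ∃ n, 1 ≤ n ∧ n ≤ XX (ε / 10) j ∧
      ∀ i < kk (ε / 10) (XX (ε / 10) j), ch i n ∈ RS a)
    (hU : ∀ᶠ n : ℕ in atTop, ∃ i < KK (ε / 10) n, ch i n ∉ RS a) :
    ∀ᶠ x : ℕ in atTop, ∀ k : ℕ, 1 ≤ k →
      (k : ℝ) ≤ (1 - ε) * (Real.log x / Real.log (Real.log x)) →
      ∃ n, 1 ≤ n ∧ n ≤ x ∧ (∀ i < k, ch i n ∈ RS a) ∧ ch k n ∉ RS a := by
  obtain ⟨δ, hδ⟩ : ∃ δ, δ = ε / 10 := ⟨_, rfl⟩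
  rw [← hδ] at hL hU
  have hε : ε = 10 * δ := by rw [hδ]; ring
  subst hε
  clear hδ
  have d0 : 0 < δ := by linarith
  have d1 : δ < 1 := by linarith
  have hlog : Tendsto (fun x : ℕ => Real.log x) atTop atTop :=
    Real.tendsto_log_atTop.comp tendsto_natCast_atTop_atTop
  have hloglog : Tendsto (fun x : ℕ => Real.log (Real.log x)) atTop atTop :=
    Real.tendsto_log_atTop.comp hlog
  have hXj := finM_XX_tendsto d0
  have hP := finM_scale d0 ((((hL.and (hXj.eventually (upper d0 d1 a hU))).and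
    (hXj.eventually (hloglog.eventually_ge_atTop (2 / δ)))).and
    (hXj.eventually (hlog.eventually_ge_atTop (1 / δ)))).and
    (hXj.eventually (eventually_ge_atTop 1)))
  filter_upwards [hP, hlog.eventually_ge_atTop (2 / (5 * δ)), hlog.eventually_ge_atTop 1,
    eventually_ge_atTop 1] with x hx hx2 hx1 hx0 k hk1 hk
  obtain ⟨j, ⟨⟨⟨⟨⟨n₀, hn1, hnX, hnk⟩, hup⟩, hll⟩, hl⟩, hX1⟩, hXu, hXl⟩ := hx
  set X := XX δ j with hXdef
  have hdinv : 1 < 1 / δ := by rw [lt_div_iff₀ d0]; linarith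
  have hlogX1 : 1 < Real.log X := lt_of_lt_of_le hdinv hl
  have hllX0 : 0 < Real.log (Real.log X) := Real.log_pos hlogX1
  have hXL : Real.log X ≤ Real.log x := by
    refine hXu.trans ?_
    rw [div_le_iff₀ (by linarith)]
    nlinarith
  have hllXx : Real.log (Real.log X) ≤ Real.log (Real.log x) :=
    Real.log_le_log (by linarith) hXL
  -- the exact length
  classical
  have hfin := finite_len a hU n₀
  have hM1 : ch (Nat.find hfin) n₀ ∉ RS a := Nat.find_spec hfin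
  have hM2 : ∀ i < Nat.find hfin, ch i n₀ ∈ RS a := fun i hi => not_not.1 (Nat.find_min hfin hi)
  generalize Nat.find hfin = M at hM1 hM2
  have hMup := hup n₀ hnX M hM2
  have hkkM : kk δ X ≤ M := by
    by_contra h
    push Not at h
    exact hM1 (hnk M h)
  have hkk : k ≤ kk δ X := by
    unfold kk
    apply Nat.le_floor
    refine hk.trans ?_
    have h5 : 2 ≤ 5 * δ * Real.log x := by
      rw [div_le_iff₀ (by positivity)] at hx2
      linarith
    have h6 := finM_ineq d0 h1 h5 hXl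
    rw [← mul_div_assoc]
    exact div_le_div₀ (by nlinarith) h6 hllX0 hllXx
  have hkM : k ≤ M := hkk.trans hkkM
  refine ⟨ch (M - k) n₀, ?_, ?_, ?_, ?_⟩
  · unfold ch
    have : 1 ≤ 2 ^ (M - k) := Nat.one_le_two_pow
    have h2 : 1 * 2 ≤ 2 ^ (M - k) * (n₀ + 1) := Nat.mul_le_mul this (by omega)
    omega
  · have hX0 : (1 : ℝ) ≤ X := by exact_mod_cast hX1
    have h3 : ch (M - k) n₀ ≤ 2 ^ M * (X + 1) := by
      unfold ch
      refine (Nat.sub_le _ _).trans ?_
      exact Nat.mul_le_mul (Nat.pow_le_pow_right (by norm_num) (Nat.sub_le _ _)) (by omega)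
    have h4 : ((2 : ℝ) ^ M * (X + 1)) ≤ x := by
      have hx0' : (0 : ℝ) < x := by exact_mod_cast hx0
      rw [← Real.log_le_log_iff (by positivity) hx0', Real.log_mul (by positivity) (by positivity),
        Real.log_pow]
      have h5 : Real.log ((X : ℝ) + 1) ≤ Real.log X + 1 := by
        have h6 : (X : ℝ) + 1 ≤ X * Real.exp 1 := by
          have h7 : (2 : ℝ) ≤ Real.exp 1 := by
            have := Real.add_one_le_exp (1 : ℝ)
            linarith
          nlinarith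
        calc Real.log ((X : ℝ) + 1) ≤ Real.log (X * Real.exp 1) :=
              Real.log_le_log (by positivity) h6
          _ = Real.log X + 1 := by
              rw [Real.log_mul (by positivity) (Real.exp_pos 1).ne', Real.log_exp]
      have h8 : (M : ℝ) * Real.log 2 ≤ M := by
        have h9 : Real.log 2 ≤ 1 := by
          have := Real.log_two_lt_d9
          linarith
        have h10 : (0 : ℝ) ≤ M := Nat.cast_nonneg M
        nlinarith
      have h11 : (M : ℝ) ≤ δ * Real.log X := by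
        refine hMup.trans ?_
        rw [← mul_div_assoc, div_le_iff₀ hllX0]
        have h12 : 2 ≤ δ * Real.log (Real.log X) := by
          rw [div_le_iff₀ d0] at hll
          linarith
        have h13 : (1 + δ) * Real.log X ≤ 2 * Real.log X := by nlinarith
        nlinarith
      have h14 : 1 ≤ δ * Real.log X := by
        rw [div_le_iff₀ d0] at hl
        linarith
      have h15 : (1 + 3 * δ) * Real.log X ≤ Real.log x := by
        rw [le_div_iff₀ (by linarith)] at hXu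
        linarith
      nlinarith
    have h16 : ((ch (M - k) n₀ : ℕ) : ℝ) ≤ x := by
      refine le_trans ?_ h4
      exact_mod_cast h3
    exact_mod_cast h16
  · intro i hi
    rw [ch_ch]
    exact hM2 _ (by omega)
  · rw [ch_ch, Nat.add_sub_cancel' hkM]
    exact hM1

end Pool.Agent.RSL
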