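import Pool.Agent.RSL.FinL

/-!
# RSL / FinU: upper bound for all lengths below `x`

`u(x) = log x/log log x` is increasing for large `x` and tends to infinity. By `hU`, if `n ≥ n₀` and `ch i n ∈ RS a` for all `i < k` then
`k < KK ε n`, so `k < (1+ε) u(n)` (`Nat.lt_ceil`). For `n < n₀` the lengths are bounded by a constant `M` (`finite_len`). So for `x` large and all
`n ≤ x`: `k ≤ (1 + ε) u(x)` (`n₀` so large that `u` is monotone on `[n₀, ∞)`).
-/

namespace Pool.Agent.RSL

open Finset Filter Pool.Agent.RSC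

private theorem finu_sqrt {t : ℝ} (ht : 1 < t) : √t / 2 ≤ t / Real.log t := by
  have hl : 0 < Real.log t := Real.log_pos ht
  have ht0 : 0 < t := by linarith
  have hs : 0 < √t := Real.sqrt_pos.2 ht0
  rw [div_le_div_iff₀ (by norm_num) hl]
  have h1 : Real.log t ≤ 2 * √t := by
    have h2 := Real.log_le_sub_one_of_pos hs
    rw [Real.log_sqrt ht0.le] at h2
    linarith
  calc √t * Real.log t ≤ √t * (2 * √t) := mul_le_mul_of_nonneg_left h1 hs.le
    _ = t * 2 := by
      rw [← mul_assoc, mul_comm √t 2, mul_assoc, Real.mul_self_sqrt ht0.le]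
      ring

private theorem finu_mono {s t : ℝ} (hs : Real.exp 1 ≤ s) (hst : s ≤ t) :
    s / Real.log s ≤ t / Real.log t := by
  have h := Real.log_div_self_antitoneOn (show s ∈ {x | Real.exp 1 ≤ x} from hs)
    (show t ∈ {x | Real.exp 1 ≤ x} from hs.trans hst) hst
  have he : 1 < Real.exp 1 := by
    have := Real.add_one_lt_exp (x := 1) one_ne_zero
    linarith
  have hs1 : 1 < s := he.trans_le hs
  have ht1 : 1 < t := hs1.trans_le hst
  have hls : 0 < Real.log s := Real.log_pos hs1
  have hlt : 0 < Real.log t := Real.log_pos ht1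
  have hs0 : 0 < s := by linarith
  have ht0 : 0 < t := by linarith
  have h' : Real.log t / t ≤ Real.log s / s := h
  rw [div_le_div_iff₀ ht0 hs0] at h'
  rw [div_le_div_iff₀ hls hlt]
  linarith

theorem upper {ε : ℝ} (h0 : 0 < ε) (h1 : ε < 1) (a : ℕ → ℕ)
    (hU : ∀ᶠ n : ℕ in atTop, ∃ i < KK ε n, ch i n ∉ RS a) :
    ∀ᶠ x : ℕ in atTop, ∀ n ≤ x, ∀ k, (∀ i < k, ch i n ∈ RS a) →
      (k : ℝ) ≤ (1 + ε) * (Real.log x / Real.log (Real.log x)) := by
  have hlog : Tendsto (fun n : ℕ => Real.log (n : ℝ)) atTop atTop :=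
    Real.tendsto_log_atTop.comp tendsto_natCast_atTop_atTop
  have hE : ∀ᶠ n : ℕ in atTop, Real.exp 1 ≤ Real.log (n : ℝ) := hlog.eventually_ge_atTop _
  obtain ⟨n0, hn0⟩ := eventually_atTop.1 (hU.and hE)
  -- bounded lengths below `n0`
  choose f hf using fun n => finite_len a hU n
  set M : ℕ := ∑ n ∈ range n0, f n with hM
  have hMf : ∀ n < n0, f n ≤ M := fun n hn =>
    Finset.single_le_sum (f := f) (fun _ _ => Nat.zero_le _) (mem_range.2 hn)
  have hB : ∀ᶠ x : ℕ in atTop, (2 * (M : ℝ) + 2) ^ 2 ≤ Real.log (x : ℝ) :=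
    hlog.eventually_ge_atTop _
  filter_upwards [hB, eventually_ge_atTop n0] with x hx hxn n hn k hk
  rcases lt_or_ge n n0 with hlt | hge
  · -- small `n`
    have hkf : k ≤ f n := by
      by_contra hcon
      exact hf n (hk (f n) (by omega))
    have hkM : (k : ℝ) ≤ M := by exact_mod_cast hkf.trans (hMf n hlt)
    have hM0 : (0 : ℝ) ≤ M := Nat.cast_nonneg M
    have ht1 : 1 < Real.log (x : ℝ) := by nlinarith
    have h2 := finu_sqrt ht1
    have h3 : 2 * (M : ℝ) ≤ √(Real.log (x : ℝ)) := by
      apply Real.le_sqrt_of_sq_le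
      nlinarith
    have h4 : (M : ℝ) ≤ Real.log x / Real.log (Real.log x) := by linarith
    have h5 : 0 ≤ Real.log x / Real.log (Real.log x) := hM0.trans h4
    nlinarith
  · obtain ⟨⟨i, hi, hir⟩, he⟩ := hn0 n hge
    have hki : k ≤ i := by
      by_contra hcon
      exact hir (hk i (by omega))
    have hkK : k < KK ε n := lt_of_le_of_lt hki hi
    unfold KK at hkK
    rw [Nat.lt_ceil] at hkK
    have hn1 : 0 < n := by
      rcases Nat.eq_zero_or_pos n with h | h
      · rw [h] at he
        simp at he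
        have := Real.exp_pos 1
        linarith
      · exact h
    have hmono : Real.log (n : ℝ) ≤ Real.log (x : ℝ) :=
      Real.log_le_log (by exact_mod_cast hn1) (by exact_mod_cast hn)
    have h2 := finu_mono he hmono
    have h3 : (1 + ε) * Real.log n / Real.log (Real.log n) =
        (1 + ε) * (Real.log n / Real.log (Real.log n)) := by ring
    rw [h3] at hkK
    have h4 := mul_le_mul_of_nonneg_left h2 (show (0 : ℝ) ≤ 1 + ε by linarith)
    linarith

end Pool.Agent.RSL
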