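import Pool.Agent.RSL.LocS

/-!
# RSL / LocF: bounds for `ff`

`S := S1 k p b`, `S' := S1 k p b'`, `m := mm k p b b'`. By `S1_low` and `4k ≤ p`: `3/4 ≤ S, S' ≤ 1`, `SS' ≥ 9/16 ≥ 1/2`.
By `U_eq`: `U - SS' = m/p - (1-S)(1-S')` with `0 ≤ (1-S)(1-S') ≤ k²/p²`. So
`ff - 1 = (m/p - (1-S)(1-S'))/(SS') ≤ 2m/p` and `|ff - 1| ≤ 2(m/p + k²/p²)`.
`ff_up2`: `U ≤ S` (`U_le_S1`), so `ff ≤ 1/S' ≤ 1/(1 - k/p)`.
-/

namespace Pool.Agent.RSL

open Finset Pool.Agent.RSC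

private theorem LocF_kp {p : ℕ} (hp : p.Prime) {k : ℕ} (h4 : 4 * k ≤ p) : (k : ℝ) / p ≤ 1 / 4 := by
  have hp0 : (0 : ℝ) < p := by exact_mod_cast hp.pos
  rw [div_le_iff₀ hp0]
  have h : (4 : ℝ) * k ≤ p := by exact_mod_cast h4
  linarith

private theorem LocF_S {p : ℕ} (hp : p.Prime) {k : ℕ} (h4 : 4 * k ≤ p) (b : ℕ) :
    3 / 4 ≤ S1 k p b := by
  have h1 := S1_low hp k b
  have h2 := LocF_kp hp h4
  linarith

theorem S1_pos {p : ℕ} (hp : p.Prime) {k : ℕ} (h4 : 4 * k ≤ p) (b : ℕ) : 0 < S1 k p b := by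
  have := LocF_S hp h4 b
  linarith

theorem ff_nonneg {p : ℕ} (hp : p.Prime) {k : ℕ} (h4 : 4 * k ≤ p) (b b' : ℕ) : 0 ≤ ff k p b b' := by
  unfold ff
  exact div_nonneg (U_nonneg k p b b') (mul_pos (S1_pos hp h4 b) (S1_pos hp h4 b')).le

private theorem LocF_half {p : ℕ} (hp : p.Prime) {k : ℕ} (h4 : 4 * k ≤ p) (b b' : ℕ) :
    1 / 2 ≤ S1 k p b * S1 k p b' := by
  have h1 := LocF_S hp h4 b
  have h2 := LocF_S hp h4 b'
  nlinarith [mul_nonneg (sub_nonneg.2 h1) (sub_nonneg.2 h2)]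

private theorem LocF_prod {p : ℕ} (hp : p.Prime) {k : ℕ} (b b' : ℕ) :
    0 ≤ (1 - S1 k p b) * (1 - S1 k p b') ∧
      (1 - S1 k p b) * (1 - S1 k p b') ≤ (k : ℝ) ^ 2 / (p : ℝ) ^ 2 := by
  have h1 := S1_low hp k b
  have h2 := S1_low hp k b'
  have h3 := S1_le k p b
  have h4 := S1_le k p b'
  refine ⟨mul_nonneg (by linarith) (by linarith), ?_⟩
  rw [← div_pow, pow_two]
  exact mul_le_mul (by linarith) (by linarith) (by linarith) (by positivity)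

/-- `ff - 1` as a quotient -/
private theorem LocF_eq {p : ℕ} (hp : p.Prime) {k : ℕ} (h4 : 4 * k ≤ p) (b b' : ℕ) :
    ff k p b b' - 1 = ((mm k p b b' : ℝ) / p - (1 - S1 k p b) * (1 - S1 k p b')) /
      (S1 k p b * S1 k p b') := by
  have h1 := (S1_pos hp h4 b).ne'
  have h2 := (S1_pos hp h4 b').ne'
  have hm : S1 k p b * S1 k p b' ≠ 0 := mul_ne_zero h1 h2
  unfold ff
  rw [eq_div_iff hm, sub_mul, div_mul_cancel₀ _ hm, U_eq hp k b b']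
  ring

theorem ff_up {p : ℕ} (hp : p.Prime) {k : ℕ} (h4 : 4 * k ≤ p) (b b' : ℕ) :
    ff k p b b' ≤ 1 + 2 * (mm k p b b' : ℝ) / p := by
  have h1 := LocF_eq hp h4 b b'
  have h2 := LocF_half hp h4 b b'
  obtain ⟨h3, -⟩ := LocF_prod hp (k := k) b b'
  have hm : 0 ≤ (mm k p b b' : ℝ) / p := by positivity
  have hd : ((mm k p b b' : ℝ) / p - (1 - S1 k p b) * (1 - S1 k p b')) /
      (S1 k p b * S1 k p b') ≤ 2 * ((mm k p b b' : ℝ) / p) := by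
    rw [div_le_iff₀ (by linarith)]
    nlinarith [mul_nonneg hm (sub_nonneg.2 h2)]
  have he : 2 * (mm k p b b' : ℝ) / p = 2 * ((mm k p b b' : ℝ) / p) := by ring
  rw [he]
  linarith

theorem ff_up2 {p : ℕ} (hp : p.Prime) {k : ℕ} (h4 : 4 * k ≤ p) (b b' : ℕ) :
    ff k p b b' ≤ (1 - (k : ℝ) / p)⁻¹ := by
  have h1 := LocF_kp hp h4
  have h2 := S1_low hp k b'
  have hb := S1_pos hp h4 b
  have hb' := S1_pos hp h4 b'
  have h3 := U_le_S1 k p b b'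
  unfold ff
  calc U k p b b' / (S1 k p b * S1 k p b') ≤ S1 k p b / (S1 k p b * S1 k p b') := by
        exact div_le_div_of_nonneg_right h3 (mul_pos hb hb').le
    _ = (S1 k p b')⁻¹ := by
        field_simp
    _ ≤ (1 - (k : ℝ) / p)⁻¹ := by
        exact inv_anti₀ (by linarith) h2

theorem ff_abs {p : ℕ} (hp : p.Prime) {k : ℕ} (h4 : 4 * k ≤ p) (b b' : ℕ) :
    |ff k p b b' - 1| ≤ 2 * (mm k p b b' : ℝ) / p + 2 * (k : ℝ) ^ 2 / (p : ℝ) ^ 2 := by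
  have h1 := LocF_eq hp h4 b b'
  have h2 := LocF_half hp h4 b b'
  obtain ⟨h3, h5⟩ := LocF_prod hp (k := k) b b'
  have hm : 0 ≤ (mm k p b b' : ℝ) / p := by positivity
  have hk : 0 ≤ (k : ℝ) ^ 2 / (p : ℝ) ^ 2 := by positivity
  have hS : 0 < S1 k p b * S1 k p b' := by linarith
  have he : 2 * (mm k p b b' : ℝ) / p + 2 * (k : ℝ) ^ 2 / (p : ℝ) ^ 2 =
      2 * ((mm k p b b' : ℝ) / p + (k : ℝ) ^ 2 / (p : ℝ) ^ 2) := by ring
  rw [he, h1, abs_div, abs_of_pos hS, div_le_iff₀ hS]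
  have ha : |(mm k p b b' : ℝ) / p - (1 - S1 k p b) * (1 - S1 k p b')| ≤
      (mm k p b b' : ℝ) / p + (k : ℝ) ^ 2 / (p : ℝ) ^ 2 := by
    rw [abs_le]
    constructor <;> linarith
  nlinarith [mul_nonneg (add_nonneg hm hk) (sub_nonneg.2 h2)]

end Pool.Agent.RSL
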