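import Pool.Agent.RSL.Def

/-!
# RSL / LocS: elementary facts on `S1`, `U`, `mm`

All from the definitions: `S1 k p b = U k p b b = (∑_{a<p} W k p a b)/p` since `W² = W` (`W_sq`), `W ∈ {0,1}`.

* `S1_low`: at most `k` numbers `a < p` have `W k p a b = 0` (for every `i ∈ [1,k]` exactly one `a < p` satisfies
  `2^i b ≡ a + 1`). See `U_low` in `RSC/LocA.lean` (same proof, there with two numbers `b, b'`).
* `U_le_S1`: `W W' ≤ W`.
* `U_eq`: `W W' = W + W' - 1 + (1-W)(1-W')` and `∑_a (1-W)(1-W') = mm`.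
* `mm_le`: as `S1_low`.
* `mm_sum`: `∑_{b,b'} mm = ∑_{a<p} (#{b<p : W k p a b = 0})²`; for fixed `a` at most `k` numbers `b < p` have
  `W k p a b = 0` (for `i ∈ [1,k]` exactly one `b < p` satisfies `2^i b ≡ a+1`, `p` odd); so it is
  `≤ k ∑_a #{b : W = 0} = k ∑_b #{a : W = 0} ≤ k * p * k`. (Alternatively: for fixed `b`, `∑_{b'} mm k p b b' ≤ k * k`.)
* `mm_pairs`: if `a < p` kills both: `2^i b ≡ a+1`, `2^j b' ≡ a+1` for some `i, j ∈ [1,k]`; `a ↦ (i,j)` (any choice) is
  injective since `a` is determined by `2^i b` modulo `p`.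
* periodicity: `W_per`.
-/

namespace Pool.Agent.RSL

open Finset Pool.Agent.RSC

private theorem LocS_W01 (k p a b : ℕ) : W k p a b = 0 ∨ W k p a b = 1 := by
  unfold W
  split_ifs <;> simp

private theorem LocS_W0 (k p a b : ℕ) :
    W k p a b = 0 ↔ ∃ i ∈ Icc 1 k, 2 ^ i * b ≡ a + 1 [MOD p] := by
  unfold W
  constructor
  · intro h
    by_contra hc
    push Not at hc
    rw [if_pos hc] at h
    exact one_ne_zero h
  · rintro ⟨i, hi, h⟩
    rw [if_neg]
    push Not
    exact ⟨i, hi, h⟩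

open Classical in
private theorem LocS_cardA (k p b : ℕ) : ((range p).filter (fun a => W k p a b = 0)).card ≤ k := by
  have h1 : (range p).filter (fun a => W k p a b = 0) ⊆
      (Icc 1 k).biUnion (fun i => (range p).filter (fun a => 2 ^ i * b ≡ a + 1 [MOD p])) := by
    intro a ha
    rw [Finset.mem_filter] at ha
    obtain ⟨i, hi, h⟩ := (LocS_W0 k p a b).1 ha.2
    rw [Finset.mem_biUnion]
    exact ⟨i, hi, Finset.mem_filter.2 ⟨ha.1, h⟩⟩
  refine (Finset.card_le_card h1).trans (Finset.card_biUnion_le.trans ?_)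
  calc ∑ i ∈ Icc 1 k, ((range p).filter (fun a => 2 ^ i * b ≡ a + 1 [MOD p])).card
      ≤ ∑ _i ∈ Icc 1 k, 1 := by
        refine Finset.sum_le_sum fun i _ => ?_
        rw [Finset.card_le_one]
        intro a ha a' ha'
        rw [Finset.mem_filter, Finset.mem_range] at ha ha'
        have h1 : a + 1 ≡ a' + 1 [MOD p] := ha.2.symm.trans ha'.2
        exact Nat.ModEq.eq_of_lt_of_lt (Nat.ModEq.add_right_cancel' 1 h1) ha.1 ha'.1
    _ = k := by simp

open Classical in
private theorem LocS_cardB {p : ℕ} (hp : p.Prime) (h2 : p ≠ 2) (k a : ℕ) :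
    ((range p).filter (fun b => W k p a b = 0)).card ≤ k := by
  have h1 : (range p).filter (fun b => W k p a b = 0) ⊆
      (Icc 1 k).biUnion (fun i => (range p).filter (fun b => 2 ^ i * b ≡ a + 1 [MOD p])) := by
    intro b hb
    rw [Finset.mem_filter] at hb
    obtain ⟨i, hi, h⟩ := (LocS_W0 k p a b).1 hb.2
    rw [Finset.mem_biUnion]
    exact ⟨i, hi, Finset.mem_filter.2 ⟨hb.1, h⟩⟩
  refine (Finset.card_le_card h1).trans (Finset.card_biUnion_le.trans ?_)
  calc ∑ i ∈ Icc 1 k, ((range p).filter (fun b => 2 ^ i * b ≡ a + 1 [MOD p])).card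
      ≤ ∑ _i ∈ Icc 1 k, 1 := by
        refine Finset.sum_le_sum fun i _ => ?_
        rw [Finset.card_le_one]
        intro b hb b' hb'
        rw [Finset.mem_filter, Finset.mem_range] at hb hb'
        have h3 : 2 ^ i * b ≡ 2 ^ i * b' [MOD p] := hb.2.trans hb'.2.symm
        have h4 : Nat.gcd p (2 ^ i) = 1 := by
          have : Nat.Coprime p 2 := (Nat.coprime_primes hp Nat.prime_two).2 h2
          exact this.pow_right i
        exact Nat.ModEq.eq_of_lt_of_lt (Nat.ModEq.cancel_left_of_coprime h4 h3) hb.1 hb'.1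
    _ = k := by simp

open Classical in
private theorem LocS_sum1 (k p b : ℕ) :
    ∑ a ∈ range p, (1 - W k p a b) = (((range p).filter (fun a => W k p a b = 0)).card : ℝ) := by
  rw [Finset.card_filter]
  push_cast
  refine Finset.sum_congr rfl fun a _ => ?_
  rcases LocS_W01 k p a b with h | h <;> simp [h]

theorem S1_low {p : ℕ} (hp : p.Prime) (k b : ℕ) : 1 - (k : ℝ) / p ≤ S1 k p b := by
  classical
  have hp0 : (0 : ℝ) < p := by exact_mod_cast hp.pos
  unfold S1 U
  rw [le_div_iff₀ hp0, sub_mul, one_mul, div_mul_cancel₀ _ hp0.ne']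
  have h1 := LocS_sum1 k p b
  have h2 : (((range p).filter (fun a => W k p a b = 0)).card : ℝ) ≤ k := by
    exact_mod_cast LocS_cardA k p b
  simp only [W_sq]
  rw [Finset.sum_sub_distrib] at h1
  simp only [Finset.sum_const, Finset.card_range, nsmul_eq_mul, mul_one] at h1
  linarith

theorem S1_le (k p b : ℕ) : S1 k p b ≤ 1 := U_le_one k p b b

theorem U_le_S1 (k p b b' : ℕ) : U k p b b' ≤ S1 k p b := by
  unfold S1 U
  refine div_le_div_of_nonneg_right (Finset.sum_le_sum fun a _ => ?_) (Nat.cast_nonneg p)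
  rw [W_sq]
  calc W k p a b * W k p a b' ≤ W k p a b * 1 :=
        mul_le_mul_of_nonneg_left (W_le_one k p a b') (W_nonneg k p a b)
    _ = W k p a b := mul_one _

theorem U_comm (k p b b' : ℕ) : U k p b b' = U k p b' b := by
  unfold U
  congr 1
  exact Finset.sum_congr rfl fun a _ => mul_comm _ _

theorem U_eq {p : ℕ} (hp : p.Prime) (k b b' : ℕ) :
    U k p b b' = S1 k p b + S1 k p b' - 1 + (mm k p b b' : ℝ) / p := by
  classical
  have hp0 : (0 : ℝ) < p := by exact_mod_cast hp.pos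
  have h1 : (mm k p b b' : ℝ) = ∑ a ∈ range p, (1 - W k p a b) * (1 - W k p a b') := by
    unfold mm
    rw [Finset.card_filter]
    push_cast
    refine Finset.sum_congr rfl fun a _ => ?_
    rcases LocS_W01 k p a b with h | h <;> rcases LocS_W01 k p a b' with h' | h' <;> simp [h, h']
  have h2 : ∑ a ∈ range p, W k p a b * W k p a b' =
      ∑ a ∈ range p, W k p a b * W k p a b + ∑ a ∈ range p, W k p a b' * W k p a b' - p +
        ∑ a ∈ range p, (1 - W k p a b) * (1 - W k p a b') := by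
    have h3 : (p : ℝ) = ∑ _a ∈ range p, (1 : ℝ) := by simp
    rw [h3, ← Finset.sum_add_distrib, ← Finset.sum_sub_distrib, ← Finset.sum_add_distrib]
    refine Finset.sum_congr rfl fun a _ => ?_
    rw [W_sq, W_sq]
    ring
  rw [h1]
  unfold S1 U
  rw [h2]
  field_simp

theorem mm_le {p : ℕ} (hp : p.Prime) (k b b' : ℕ) : mm k p b b' ≤ k := by
  classical
  unfold mm
  refine (Finset.card_le_card ?_).trans (LocS_cardA k p b)
  intro a ha
  rw [Finset.mem_filter] at ha ⊢
  exact ⟨ha.1, ha.2.1⟩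

theorem mm_sum {p : ℕ} (hp : p.Prime) (h2 : p ≠ 2) (k : ℕ) :
    ∑ b ∈ range p, ∑ b' ∈ range p, mm k p b b' ≤ k ^ 2 * p := by
  classical
  have h1 : ∀ b, ∑ b' ∈ range p, mm k p b b' ≤ k ^ 2 := by
    intro b
    have e1 : ∀ b', mm k p b b' =
        ∑ a ∈ (range p).filter (fun a => W k p a b = 0), (if W k p a b' = 0 then 1 else 0) := by
      intro b'
      unfold mm
      rw [← Finset.filter_filter, Finset.card_filter]
    simp only [e1]
    rw [Finset.sum_comm]
    calc ∑ a ∈ (range p).filter (fun a => W k p a b = 0), ∑ b' ∈ range p, (if W k p a b' = 0 then 1 else 0)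
        ≤ ∑ _a ∈ (range p).filter (fun a => W k p a b = 0), k := by
          refine Finset.sum_le_sum fun a _ => ?_
          rw [← Finset.card_filter]
          exact LocS_cardB hp h2 k a
      _ = ((range p).filter (fun a => W k p a b = 0)).card * k := by
          rw [Finset.sum_const, smul_eq_mul]
      _ ≤ k * k := Nat.mul_le_mul_right k (LocS_cardA k p b)
      _ = k ^ 2 := (sq k).symm
  calc ∑ b ∈ range p, ∑ b' ∈ range p, mm k p b b' ≤ ∑ _b ∈ range p, k ^ 2 :=
        Finset.sum_le_sum fun b _ => h1 b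
    _ = k ^ 2 * p := by
        rw [Finset.sum_const, Finset.card_range, smul_eq_mul, mul_comm]

theorem mm_pairs {p : ℕ} (hp : p.Prime) (k b b' : ℕ) :
    mm k p b b' ≤ ((Icc 1 k ×ˢ Icc 1 k).filter
      (fun ij => 2 ^ ij.1 * b ≡ 2 ^ ij.2 * b' [MOD p])).card := by
  classical
  have key : ∀ a : ℕ, ∃ ij : ℕ × ℕ, (W k p a b = 0 ∧ W k p a b' = 0) →
      (ij.1 ∈ Icc 1 k ∧ ij.2 ∈ Icc 1 k ∧ 2 ^ ij.1 * b ≡ a + 1 [MOD p] ∧ 2 ^ ij.2 * b' ≡ a + 1 [MOD p]) := by
    intro a
    by_cases h : W k p a b = 0 ∧ W k p a b' = 0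
    · obtain ⟨i, hi, h1⟩ := (LocS_W0 k p a b).1 h.1
      obtain ⟨j, hj, h2⟩ := (LocS_W0 k p a b').1 h.2
      exact ⟨(i, j), fun _ => ⟨hi, hj, h1, h2⟩⟩
    · exact ⟨(0, 0), fun hc => absurd hc h⟩
  choose f hf using key
  unfold mm
  refine Finset.card_le_card_of_injOn f ?_ ?_
  · intro a ha
    have ha' := Finset.mem_filter.1 (Finset.mem_coe.1 ha)
    obtain ⟨h1, h2, h3, h4⟩ := hf a ha'.2
    exact Finset.mem_coe.2 (Finset.mem_filter.2 ⟨Finset.mem_product.2 ⟨h1, h2⟩, h3.trans h4.symm⟩)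
  · intro a ha a' ha' he
    have hA := Finset.mem_filter.1 (Finset.mem_coe.1 ha)
    have hA' := Finset.mem_filter.1 (Finset.mem_coe.1 ha')
    obtain ⟨-, -, h3, -⟩ := hf a hA.2
    obtain ⟨-, -, h3', -⟩ := hf a' hA'.2
    rw [he] at h3
    have h1 : a + 1 ≡ a' + 1 [MOD p] := h3.symm.trans h3'
    exact Nat.ModEq.eq_of_lt_of_lt (Nat.ModEq.add_right_cancel' 1 h1)
      (Finset.mem_range.1 hA.1) (Finset.mem_range.1 hA'.1)

theorem S1_per (k p b : ℕ) : S1 k p (b + p) = S1 k p b := by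
  unfold S1
  rw [U_per1, U_per2]

theorem mm_per1 (k p b b' : ℕ) : mm k p (b + p) b' = mm k p b b' := by
  unfold mm
  simp only [W_per]

theorem mm_per2 (k p b b' : ℕ) : mm k p b (b' + p) = mm k p b b' := by
  unfold mm
  simp only [W_per]

theorem ff_per1 (k p b b' : ℕ) : ff k p (b + p) b' = ff k p b b' := by
  unfold ff
  rw [U_per1, S1_per]

theorem ff_per2 (k p b b' : ℕ) : ff k p b (b' + p) = ff k p b b' := by
  unfold ff
  rw [U_per2, S1_per]

end Pool.Agent.RSL
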