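import Pool.Agent.RSL.LocF

/-!
# RSL / LocV: the mean value of `ff`

`p` an odd prime, `1 ≤ k`, `4k ≤ p`. Put `F a = (1/p) ∑_{b<p} W k p a b / S1 k p b`. Then `AA = (1/p) ∑_{a<p} (F a)²`
(exchange the sums: `U k p b b' = (1/p) ∑_a W W'`) and `(1/p) ∑_a F a = 1` (`(1/p) ∑_a W k p a b = S1 k p b > 0`).
`AA_ge` is Cauchy-Schwarz: `(1/p) ∑ F² ≥ ((1/p) ∑ F)² = 1`.

Values of `F`. Let `ν = #{2^i mod p : 1 ≤ i ≤ k} ≤ k`. For `b ≢ 0` exactly `ν` numbers `a < p` have `W k p a b = 0`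
(the `a` with `a + 1 ≡ 2^i b` for some `i`), so `S1 k p b = 1 - ν/p =: S`; for `b = 0` only `a = p - 1` has
`W k p a 0 = 0`, `S1 k p 0 = 1 - 1/p`. For `a + 1 ≢ 0 (p)`: the `b < p` with `W k p a b = 0` are the
`b ≡ (a+1) 2^{-i}`, `ν` numbers, all `≢ 0`; so `F a = F₁` with a value `F₁` which does not depend on `a`. For `a = p - 1`:
`W k p a b = 1` iff `b ≢ 0`, so `F (p-1) = (p-1)/(p S) = (p-1)/(p - ν)`.
From `(p-1) F₁ + F(p-1) = p`: `F₁ - 1 = -(F(p-1) - 1)/(p-1)`, so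
`AA - 1 = (1/p) ∑ (F a - 1)² = (1/p) (F(p-1) - 1)² (1 + 1/(p-1)) = (F(p-1)-1)²/(p-1)`,
`F(p-1) - 1 = (ν-1)/(p-ν) ≤ k/(p-k) ≤ (4/3) k/p`, `1/(p-1) ≤ (3/2)/p`. Hence `AA - 1 ≤ (8/3) k²/p³ ≤ 8k²/p³`.

(For the upper bound it is enough to know: `F` takes the same value on all `a ≠ p - 1` — this follows from the substitution
`b ↦ c b` with `c ≢ 0` — and `0 ≤ F(p-1) - 1 ≤ (4/3) k/p`; the latter: `F(p-1) = (1/p) ∑_{b=1}^{p-1} 1/S1 k p b` and
`1 - k/p ≤ S1 k p b ≤ 1 - 1/p` for these `b`.)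
-/

namespace Pool.Agent.RSL

open Finset Pool.Agent.RSC

open Classical in
/-- `W` on residue classes, with `x` for `a + 1` -/
private noncomputable def lvw (k p : ℕ) (x y : ZMod p) : ℝ :=
  if ∀ i ∈ Icc 1 k, (2 : ZMod p) ^ i * y ≠ x then 1 else 0

private theorem lvw_W (k p a b : ℕ) : W k p a b = lvw k p ((a : ZMod p) + 1) (b : ZMod p) := by
  unfold W lvw
  have h : (∀ i ∈ Icc 1 k, ¬ (2 ^ i * b ≡ a + 1 [MOD p])) ↔
      (∀ i ∈ Icc 1 k, (2 : ZMod p) ^ i * (b : ZMod p) ≠ (a : ZMod p) + 1) := by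
    refine forall₂_congr fun i _ => ?_
    rw [← ZMod.natCast_eq_natCast_iff]
    push_cast
    rfl
  by_cases h1 : ∀ i ∈ Icc 1 k, ¬ (2 ^ i * b ≡ a + 1 [MOD p])
  · rw [if_pos h1, if_pos (h.1 h1)]
  · rw [if_neg h1, if_neg (fun h2 => h1 (h.2 h2))]

private theorem lvw_sq (k p : ℕ) (x y : ZMod p) : lvw k p x y * lvw k p x y = lvw k p x y := by
  unfold lvw
  split_ifs <;> norm_num

private theorem lv_univ {p : ℕ} [Fact p.Prime] (f : ZMod p → ℝ) :
    ∑ b ∈ range p, f (b : ZMod p) = ∑ y : ZMod p, f y := by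
  refine Finset.sum_nbij' (fun b => (b : ZMod p)) (fun y => y.val) ?_ ?_ ?_ ?_ ?_
  · intro b _; exact mem_univ _
  · intro y _; exact mem_range.2 (ZMod.val_lt y)
  · intro b hb; exact ZMod.val_cast_of_lt (mem_range.1 hb)
  · intro y _; exact ZMod.natCast_zmod_val y
  · intro b _; rfl

private theorem lv_univ1 {p : ℕ} [Fact p.Prime] (f : ZMod p → ℝ) :
    ∑ b ∈ range p, f ((b : ZMod p) + 1) = ∑ y : ZMod p, f y := by
  rw [lv_univ (fun y => f (y + 1))]
  exact Equiv.sum_comp (Equiv.addRight (1 : ZMod p)) f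

/-- survival probability -/
private noncomputable def lvs (k p : ℕ) [Fact p.Prime] (y : ZMod p) : ℝ :=
  (∑ x : ZMod p, lvw k p x y) / p

private noncomputable def lvf (k p : ℕ) [Fact p.Prime] (x : ZMod p) : ℝ :=
  (∑ y : ZMod p, lvw k p x y / lvs k p y) / p

private theorem lvs_S (k p : ℕ) [Fact p.Prime] (b : ℕ) : S1 k p b = lvs k p (b : ZMod p) := by
  unfold S1 U lvs
  congr 1
  rw [← lv_univ1 (fun x => lvw k p x (b : ZMod p))]
  refine Finset.sum_congr rfl fun a _ => ?_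
  rw [lvw_W, lvw_sq]

private theorem lvs_pos {k p : ℕ} [hp : Fact p.Prime] (h4 : 4 * k ≤ p) (y : ZMod p) :
    0 < lvs k p y := by
  have := S1_pos hp.out h4 y.val
  rwa [lvs_S, ZMod.natCast_zmod_val] at this

private theorem lvAA (k p : ℕ) [hp : Fact p.Prime] :
    AA k p = (∑ x : ZMod p, lvf k p x ^ 2) / p := by
  have hp0 : (p : ℝ) ≠ 0 := by exact_mod_cast hp.out.ne_zero
  have h1 : ∀ b b' : ℕ, ff k p b b' =
      (∑ x : ZMod p, (lvw k p x b / lvs k p b) * (lvw k p x b' / lvs k p b')) / p := by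
    intro b b'
    unfold ff U
    rw [lvs_S, lvs_S, div_div, mul_comm (p : ℝ), ← div_div, Finset.sum_div,
      ← lv_univ1 (fun x => (lvw k p x b / lvs k p b) * (lvw k p x b' / lvs k p b'))]
    congr 1
    refine Finset.sum_congr rfl fun a _ => ?_
    rw [lvw_W, lvw_W, div_mul_div_comm]
  unfold AA
  have h2 : ∑ b ∈ range p, ∑ b' ∈ range p, ff k p b b' =
      ∑ y : ZMod p, ∑ y' : ZMod p,
        (∑ x : ZMod p, (lvw k p x y / lvs k p y) * (lvw k p x y' / lvs k p y')) / p := by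
    rw [← lv_univ (fun y => ∑ y' : ZMod p,
        (∑ x : ZMod p, (lvw k p x y / lvs k p y) * (lvw k p x y' / lvs k p y')) / p)]
    refine Finset.sum_congr rfl fun b _ => ?_
    rw [← lv_univ (fun y' =>
        (∑ x : ZMod p, (lvw k p x b / lvs k p b) * (lvw k p x y' / lvs k p y')) / (p : ℝ))]
    refine Finset.sum_congr rfl fun b' _ => ?_
    exact h1 b b'
  have h3 : ∀ x : ZMod p, lvf k p x ^ 2 = (∑ y : ZMod p, ∑ y' : ZMod p,
      (lvw k p x y / lvs k p y) * (lvw k p x y' / lvs k p y')) / (p : ℝ) ^ 2 := by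
    intro x
    unfold lvf
    rw [div_pow, pow_two, Finset.sum_mul_sum]
  rw [h2, Finset.sum_congr rfl fun x _ => h3 x, ← Finset.sum_div]
  rw [Finset.sum_comm (s := (univ : Finset (ZMod p))) (t := (univ : Finset (ZMod p)))
    (f := fun x y => ∑ y' : ZMod p,
      (lvw k p x y / lvs k p y) * (lvw k p x y' / lvs k p y'))]
  have h4 : ∀ y : ZMod p, ∑ y' : ZMod p,
        (∑ x : ZMod p, (lvw k p x y / lvs k p y) * (lvw k p x y' / lvs k p y')) / (p : ℝ) =
      (∑ x : ZMod p, ∑ y' : ZMod p,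
      (lvw k p x y / lvs k p y) * (lvw k p x y' / lvs k p y')) / p := by
    intro y
    rw [← Finset.sum_div, Finset.sum_comm]
  rw [Finset.sum_congr rfl fun y _ => h4 y, ← Finset.sum_div]
  field_simp

private theorem lvf_sum {k p : ℕ} [hp : Fact p.Prime] (h4 : 4 * k ≤ p) :
    ∑ x : ZMod p, lvf k p x = p := by
  have hp0 : (p : ℝ) ≠ 0 := by exact_mod_cast hp.out.ne_zero
  unfold lvf
  rw [← Finset.sum_div, Finset.sum_comm]
  have h1 : ∀ y : ZMod p, ∑ x : ZMod p, lvw k p x y / lvs k p y = p := by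
    intro y
    have h2 := (lvs_pos h4 y).ne'
    rw [← Finset.sum_div, div_eq_iff h2]
    unfold lvs
    field_simp
  rw [Finset.sum_congr rfl fun y _ => h1 y, Finset.sum_const, Finset.card_univ, ZMod.card,
    nsmul_eq_mul]
  field_simp

theorem AA_ge {p : ℕ} (hp : p.Prime) {k : ℕ} (h4 : 4 * k ≤ p) : 1 ≤ AA k p := by
  have : Fact p.Prime := ⟨hp⟩
  have hp0 : (0 : ℝ) < p := by exact_mod_cast hp.pos
  rw [lvAA, le_div_iff₀ hp0, one_mul]
  have h1 := lvf_sum (k := k) (p := p) h4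
  have h2 := sq_sum_le_card_mul_sum_sq (s := (univ : Finset (ZMod p))) (f := fun x => lvf k p x)
  rw [h1, Finset.card_univ, ZMod.card] at h2
  nlinarith

private theorem lvw_mul {k p : ℕ} [hp : Fact p.Prime] {c : ZMod p} (hc : c ≠ 0) (x y : ZMod p) :
    lvw k p (c * x) (c * y) = lvw k p x y := by
  unfold lvw
  have h : (∀ i ∈ Icc 1 k, (2 : ZMod p) ^ i * (c * y) ≠ c * x) ↔
      (∀ i ∈ Icc 1 k, (2 : ZMod p) ^ i * y ≠ x) := by
    refine forall₂_congr fun i _ => ?_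
    rw [mul_left_comm]
    exact not_congr (mul_right_inj' hc)
  by_cases h1 : ∀ i ∈ Icc 1 k, (2 : ZMod p) ^ i * y ≠ x
  · rw [if_pos h1, if_pos (h.2 h1)]
  · rw [if_neg h1, if_neg (fun h2 => h1 (h.1 h2))]

private theorem lvs_mul {k p : ℕ} [hp : Fact p.Prime] {c : ZMod p} (hc : c ≠ 0) (y : ZMod p) :
    lvs k p (c * y) = lvs k p y := by
  unfold lvs
  congr 1
  rw [← Equiv.sum_comp (Equiv.mulLeft₀ c hc) (fun x => lvw k p x (c * y))]
  exact Finset.sum_congr rfl fun x _ => lvw_mul hc x y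

private theorem lvf_mul {k p : ℕ} [hp : Fact p.Prime] {c : ZMod p} (hc : c ≠ 0) (x : ZMod p) :
    lvf k p (c * x) = lvf k p x := by
  unfold lvf
  congr 1
  rw [← Equiv.sum_comp (Equiv.mulLeft₀ c hc) (fun y => lvw k p (c * x) y / lvs k p y)]
  refine Finset.sum_congr rfl fun y _ => ?_
  show lvw k p (c * x) (c * y) / lvs k p (c * y) = _
  rw [lvw_mul hc, lvs_mul hc]

private theorem lvf_one {k p : ℕ} [hp : Fact p.Prime] {x : ZMod p} (hx : x ≠ 0) :
    lvf k p x = lvf k p 1 := by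
  have := lvf_mul (k := k) hx 1
  rwa [mul_one] at this

private theorem lvs_one {k p : ℕ} [hp : Fact p.Prime] {y : ZMod p} (hy : y ≠ 0) :
    lvs k p y = lvs k p 1 := by
  have := lvs_mul (k := k) hy 1
  rwa [mul_one] at this

private theorem lvf_zero {k p : ℕ} [hp : Fact p.Prime] (h2 : p ≠ 2) (hk : 1 ≤ k) :
    lvf k p 0 = (((p : ℝ) - 1) / lvs k p 1) / p := by
  have h20 : (2 : ZMod p) ≠ 0 := by
    intro h
    have h3 : ((2 : ℕ) : ZMod p) = 0 := by exact_mod_cast h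
    rw [ZMod.natCast_eq_zero_iff] at h3
    exact h2 ((Nat.prime_dvd_prime_iff_eq hp.out Nat.prime_two).1 h3)
  unfold lvf
  congr 1
  have h1 : ∀ y : ZMod p, lvw k p 0 y / lvs k p y =
      if y = 0 then 0 else 1 / lvs k p 1 := by
    intro y
    split_ifs with hy
    · subst hy
      have : lvw k p 0 0 = 0 := by
        unfold lvw
        rw [if_neg]
        intro h
        exact h 1 (mem_Icc.2 ⟨le_rfl, hk⟩) (mul_zero _)
      rw [this, zero_div]
    · rw [lvs_one hy]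
      have : lvw k p 0 y = 1 := by
        unfold lvw
        rw [if_pos]
        intro i _
        exact mul_ne_zero (pow_ne_zero _ h20) hy
      rw [this]
  rw [Finset.sum_congr rfl fun y _ => h1 y, Finset.sum_ite, Finset.sum_const_zero, zero_add,
    Finset.sum_const, nsmul_eq_mul]
  have h5 : (univ.filter (fun y : ZMod p => ¬ y = 0)).card = p - 1 := by
    rw [Finset.filter_ne' univ (0 : ZMod p), Finset.card_erase_of_mem (mem_univ _),
      Finset.card_univ, ZMod.card]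
  rw [h5, Nat.cast_sub hp.out.one_le, Nat.cast_one]
  ring

private theorem lvs_up {k p : ℕ} [hp : Fact p.Prime] (hk : 1 ≤ k) (y : ZMod p) :
    lvs k p y * p ≤ p - 1 := by
  have hp0 : (p : ℝ) ≠ 0 := by exact_mod_cast hp.out.ne_zero
  unfold lvs
  rw [div_mul_cancel₀ _ hp0]
  have h1 : ∀ x : ZMod p, lvw k p x y ≤ if x = 2 * y then 0 else 1 := by
    intro x
    split_ifs with hx
    · have : lvw k p x y = 0 := by
        unfold lvw
        rw [if_neg]
        intro h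
        exact h 1 (mem_Icc.2 ⟨le_rfl, hk⟩) (by rw [pow_one, hx])
      rw [this]
    · unfold lvw
      split_ifs <;> norm_num
  refine (Finset.sum_le_sum fun x _ => h1 x).trans ?_
  rw [Finset.sum_ite, Finset.sum_const_zero, zero_add, Finset.sum_const, nsmul_eq_mul, mul_one]
  have h5 : (univ.filter (fun x : ZMod p => ¬ x = 2 * y)).card = p - 1 := by
    rw [Finset.filter_ne' univ (2 * y : ZMod p), Finset.card_erase_of_mem (mem_univ _),
      Finset.card_univ, ZMod.card]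
  rw [h5, Nat.cast_sub hp.out.one_le, Nat.cast_one]

theorem AA_le {p : ℕ} (hp : p.Prime) (h2 : p ≠ 2) {k : ℕ} (hk : 1 ≤ k) (h4 : 4 * k ≤ p) :
    AA k p ≤ 1 + 8 * (k : ℝ) ^ 2 / (p : ℝ) ^ 3 := by
  have hF : Fact p.Prime := ⟨hp⟩
  have hp0 : (0 : ℝ) < p := by exact_mod_cast hp.pos
  have hp3 : (3 : ℝ) ≤ p := by
    have h3 : 3 ≤ p := by
      have := hp.two_le
      omega
    exact_mod_cast h3
  have hk1 : (1 : ℝ) ≤ k := by exact_mod_cast hk
  have h4' : 4 * (k : ℝ) ≤ p := by exact_mod_cast h4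
  have hsum : ∀ G : ZMod p → ℝ, (∀ x, x ≠ 0 → G x = G 1) →
      ∑ x : ZMod p, G x = G 0 + (p - 1) * G 1 := by
    intro G hG
    rw [← Finset.add_sum_erase univ G (mem_univ (0 : ZMod p))]
    congr 1
    rw [Finset.sum_congr rfl (g := fun _ => G 1) fun x hx => hG x (Finset.ne_of_mem_erase hx),
      Finset.sum_const, nsmul_eq_mul, Finset.card_erase_of_mem (mem_univ _),
      Finset.card_univ, ZMod.card, Nat.cast_sub hp.one_le, Nat.cast_one]
  have e1 := lvf_sum (k := k) (p := p) h4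
  rw [hsum (fun x => lvf k p x) (fun x hx => lvf_one hx)] at e1
  have e2 : ∑ x : ZMod p, lvf k p x ^ 2 = lvf k p 0 ^ 2 + (p - 1) * lvf k p 1 ^ 2 :=
    hsum (fun x => lvf k p x ^ 2) (fun x hx => by simp only [lvf_one hx])
  have e3 := lvf_zero (k := k) (p := p) h2 hk
  have e4 := lvs_up (k := k) (p := p) hk 1
  have e5 : 1 - (k : ℝ) / p ≤ lvs k p 1 := by
    have := S1_low hp k 1
    rwa [lvs_S, Nat.cast_one] at this
  have e6 := lvs_pos h4 (1 : ZMod p)
  rw [lvAA, e2]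
  set S := lvs k p 1 with hS
  set f0 := lvf k p 0 with hf0
  set f1 := lvf k p 1 with hf1
  -- `d = f0 - 1`
  have hSp : 0 < S * p := mul_pos e6 hp0
  have e7 : f0 * (S * p) = p - 1 := by
    rw [e3]
    field_simp
  have e8 : (p : ℝ) - k ≤ S * p := by
    have := mul_le_mul_of_nonneg_right e5 hp0.le
    rw [sub_mul, one_mul, div_mul_cancel₀ _ hp0.ne'] at this
    exact this
  have hd0 : 0 ≤ f0 - 1 := by
    by_contra hlt
    push Not at hlt
    nlinarith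
  have hd1 : (f0 - 1) * p ≤ 4 / 3 * k := by
    -- `(f0 - 1) (S p) = p - 1 - S p ≤ k - 1` and `S p ≥ 3/4 p`
    have h5 : (f0 - 1) * (S * p) ≤ k - 1 := by
      rw [sub_mul, e7]
      linarith
    have h6 : 3 / 4 * (p : ℝ) ≤ S * p := by linarith
    have h7 : (f0 - 1) * (3 / 4 * (p : ℝ)) ≤ (f0 - 1) * (S * p) :=
      mul_le_mul_of_nonneg_left h6 hd0
    linarith
  have hp1 : (0 : ℝ) < p - 1 := by linarith
  have e9 : f1 = 1 - (f0 - 1) / (p - 1) := by
    rw [eq_sub_iff_add_eq, ← eq_sub_iff_add_eq', div_eq_iff hp1.ne']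
    linarith
  have e10 : (f0 ^ 2 + (p - 1) * f1 ^ 2) / p = 1 + (f0 - 1) ^ 2 / (p - 1) := by
    rw [e9]
    field_simp
    ring
  rw [e10]
  have e11 : (f0 - 1) ^ 2 * p ^ 2 ≤ 16 / 9 * (k : ℝ) ^ 2 := by
    have h5 : 0 ≤ (f0 - 1) * p := mul_nonneg hd0 hp0.le
    have h6 : ((f0 - 1) * p) ^ 2 ≤ (4 / 3 * (k : ℝ)) ^ 2 := pow_le_pow_left₀ h5 hd1 2
    nlinarith
  have e12 : (f0 - 1) ^ 2 / (p - 1) ≤ 8 * (k : ℝ) ^ 2 / (p : ℝ) ^ 3 := by
    rw [div_le_div_iff₀ hp1 (by positivity)]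
    have h5 : (f0 - 1) ^ 2 * (p : ℝ) ^ 3 ≤ 16 / 9 * (k : ℝ) ^ 2 * p := by
      have := mul_le_mul_of_nonneg_right e11 hp0.le
      calc (f0 - 1) ^ 2 * (p : ℝ) ^ 3 = (f0 - 1) ^ 2 * p ^ 2 * p := by ring
        _ ≤ _ := this
    have h6 : 16 / 9 * (k : ℝ) ^ 2 * p ≤ 8 * (k : ℝ) ^ 2 * (p - 1) := by
      have h7 : (0 : ℝ) ≤ (k : ℝ) ^ 2 := by positivity
      nlinarith
    linarith
  linarith

end Pool.Agent.RSL
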