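import Pool.Agent.RSL.LocV

/-!
# RSL / LocX: the centred ratio `xx` and its majorant `Gm`

`|xx| = |ff - AA|/AA ≤ |ff - 1| + (AA - 1) ≤ 2m/p + 2k²/p² + 8k²/p³ ≤ 2m/p + 4k²/p²` (`AA ≥ 1`, `p ≥ 4`).
`Gm ≤ 2k/p + 4k²/p² ≤ 3k/p` (`m ≤ k`, `4k ≤ p`).
`∑∑ Gm = (2/p) ∑∑ mm + 4k² ≤ 2k² + 4k² = 6k²`.
`∑∑ xx = (∑∑ ff)/AA - p² = 0`.
-/

namespace Pool.Agent.RSL

open Finset Pool.Agent.RSC

theorem xx_per1 (k p b b' : ℕ) : xx k p (b + p) b' = xx k p b b' := by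
  unfold xx
  rw [ff_per1]

theorem xx_per2 (k p b b' : ℕ) : xx k p b (b' + p) = xx k p b b' := by
  unfold xx
  rw [ff_per2]

theorem Gm_per1 (k p b b' : ℕ) : Gm k p (b + p) b' = Gm k p b b' := by
  unfold Gm
  rw [mm_per1]

theorem Gm_per2 (k p b b' : ℕ) : Gm k p b (b' + p) = Gm k p b b' := by
  unfold Gm
  rw [mm_per2]

theorem xx_sum {p : ℕ} (hp : p.Prime) {k : ℕ} (h4 : 4 * k ≤ p) :
    ∑ b ∈ range p, ∑ b' ∈ range p, xx k p b b' = 0 := by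
  have hp0 : (0 : ℝ) < p := by exact_mod_cast hp.pos
  have hA : 0 < AA k p := lt_of_lt_of_le one_pos (AA_ge hp h4)
  have h1 : ∑ b ∈ range p, ∑ b' ∈ range p, ff k p b b' = AA k p * (p : ℝ) ^ 2 := by
    unfold AA
    rw [div_mul_cancel₀ _ (pow_ne_zero 2 hp0.ne')]
  have h2 : ∑ b ∈ range p, ∑ b' ∈ range p, xx k p b b' =
      (∑ b ∈ range p, ∑ b' ∈ range p, ff k p b b') / AA k p - (p : ℝ) ^ 2 := by
    unfold xx
    rw [Finset.sum_div]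
    simp only [Finset.sum_sub_distrib, Finset.sum_div, Finset.sum_const, card_range, nsmul_eq_mul, mul_one]
    ring
  rw [h2, h1, mul_div_cancel_left₀ _ hA.ne', sub_self]

theorem xx_abs {p : ℕ} (hp : p.Prime) (h2 : p ≠ 2) {k : ℕ} (hk : 1 ≤ k) (h4 : 4 * k ≤ p) (b b' : ℕ) :
    |xx k p b b'| ≤ Gm k p b b' := by
  have hp0 : (0 : ℝ) < p := by exact_mod_cast hp.pos
  have hA1 := AA_ge hp h4
  have hA2 := AA_le hp h2 hk h4
  have hA : 0 < AA k p := lt_of_lt_of_le one_pos hA1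
  have hf := ff_abs hp h4 b b'
  have hp4 : (4 : ℝ) ≤ p := by
    have : 4 ≤ p := by omega
    exact_mod_cast this
  have h5 : xx k p b b' = (ff k p b b' - AA k p) / AA k p := by
    unfold xx
    rw [sub_div, div_self hA.ne']
  have h6 : |xx k p b b'| ≤ |ff k p b b' - AA k p| := by
    rw [h5, abs_div, abs_of_pos hA]
    exact div_le_self (abs_nonneg _) hA1
  have h7 : |ff k p b b' - AA k p| ≤ |ff k p b b' - 1| + (AA k p - 1) := by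
    have h8 : ff k p b b' - AA k p = (ff k p b b' - 1) + (1 - AA k p) := by ring
    rw [h8]
    refine (abs_add_le _ _).trans ?_
    rw [abs_sub_comm 1 (AA k p), abs_of_nonneg (by linarith only [hA1] : (0 : ℝ) ≤ AA k p - 1)]
  have h9 : 8 * (k : ℝ) ^ 2 / (p : ℝ) ^ 3 ≤ 2 * (k : ℝ) ^ 2 / (p : ℝ) ^ 2 := by
    rw [div_le_div_iff₀ (pow_pos hp0 3) (pow_pos hp0 2)]
    have hk2 : (0 : ℝ) ≤ (k : ℝ) ^ 2 * (p : ℝ) ^ 2 := by positivity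
    nlinarith only [hk2, hp4, mul_nonneg hk2 (sub_nonneg.2 hp4)]
  have h10 : Gm k p b b' = 2 * (mm k p b b' : ℝ) / p + 2 * (k : ℝ) ^ 2 / (p : ℝ) ^ 2
      + 2 * (k : ℝ) ^ 2 / (p : ℝ) ^ 2 := by
    unfold Gm
    ring
  rw [h10]
  linarith only [h6, h7, h9, hf, hA2]

theorem Gm_le {p : ℕ} (hp : p.Prime) {k : ℕ} (h4 : 4 * k ≤ p) (b b' : ℕ) :
    Gm k p b b' ≤ 3 * (k : ℝ) / p := by
  have hp0 : (0 : ℝ) < p := by exact_mod_cast hp.pos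
  have hm : (mm k p b b' : ℝ) ≤ k := by exact_mod_cast mm_le hp k b b'
  have h4' : 4 * (k : ℝ) ≤ p := by exact_mod_cast h4
  have hk0 : (0 : ℝ) ≤ k := Nat.cast_nonneg k
  unfold Gm
  have h1 : 2 * (mm k p b b' : ℝ) / p ≤ 2 * (k : ℝ) / p :=
    div_le_div_of_nonneg_right (by linarith only [hm]) hp0.le
  have h2 : 4 * (k : ℝ) ^ 2 / (p : ℝ) ^ 2 ≤ (k : ℝ) / p := by
    rw [div_le_div_iff₀ (pow_pos hp0 2) hp0]
    have := mul_le_mul_of_nonneg_left h4' (mul_nonneg hk0 hp0.le)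
    nlinarith only [this]
  have h3 : 3 * (k : ℝ) / p = 2 * (k : ℝ) / p + (k : ℝ) / p := by ring
  rw [h3]
  linarith only [h1, h2]

theorem Gm_sum {p : ℕ} (hp : p.Prime) (h2 : p ≠ 2) (k : ℕ) :
    ∑ b ∈ range p, ∑ b' ∈ range p, Gm k p b b' ≤ 6 * (k : ℝ) ^ 2 / (p : ℝ) ^ 2 * (p : ℝ) ^ 2 := by
  have hp0 : (0 : ℝ) < p := by exact_mod_cast hp.pos
  have hm : (∑ b ∈ range p, ∑ b' ∈ range p, (mm k p b b' : ℝ)) ≤ (k : ℝ) ^ 2 * p := by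
    exact_mod_cast mm_sum hp h2 k
  have h1 : ∑ b ∈ range p, ∑ b' ∈ range p, Gm k p b b' =
      2 / (p : ℝ) * (∑ b ∈ range p, ∑ b' ∈ range p, (mm k p b b' : ℝ)) + 4 * (k : ℝ) ^ 2 := by
    have h3 : ∀ b b' : ℕ, Gm k p b b' = 2 / (p : ℝ) * (mm k p b b' : ℝ) + 4 * (k : ℝ) ^ 2 / (p : ℝ) ^ 2 := by
      intro b b'
      unfold Gm
      ring
    simp only [h3, Finset.sum_add_distrib, ← Finset.mul_sum, Finset.sum_const, card_range, nsmul_eq_mul]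
    field_simp
  rw [h1, div_mul_cancel₀ _ (pow_ne_zero 2 hp0.ne')]
  have h4 : 2 / (p : ℝ) * (∑ b ∈ range p, ∑ b' ∈ range p, (mm k p b b' : ℝ)) ≤ 2 / (p : ℝ) * ((k : ℝ) ^ 2 * p) :=
    mul_le_mul_of_nonneg_left hm (by positivity)
  have h5 : 2 / (p : ℝ) * ((k : ℝ) ^ 2 * p) = 2 * (k : ℝ) ^ 2 := by
    field_simp
  linarith only [h4, h5]

end Pool.Agent.RSL
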