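import Pool.Agent.RSL.Def

/-!
# RSL / Pmin: products over primes

`sum_sq`: `∑_{n > z} 1/n² ≤ 1/z` (`1/n² ≤ 1/(n-1) - 1/n`). `sum_cube`: `1/p³ ≤ 1/(z p²)`.

`pmin`: `-log (1 - x) ≤ x + x²` for `0 ≤ x ≤ 1/2`. So `log ∏ (1 - k/p)⁻¹ ≤ k ∑ 1/p + k² ∑ 1/p²`, `∑_{p ∈ P} 1/p² ≤ 1/z` and
`∑_{p ∈ P} 1/p ≤ ∑_{p ≤ yy N} -log (1 - 1/p) = -log (th (yy N)) ≤ log log N` because `1 ≤ log N * th (yy N)` (`act_iff`).
-/

namespace Pool.Agent.RSL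

open Finset Pool.Agent.RSC

theorem sum_sq {z : ℕ} (hz : 1 ≤ z) (P : Finset ℕ) (hP : ∀ p ∈ P, z < p) :
    ∑ p ∈ P, 1 / (p : ℝ) ^ 2 ≤ 1 / (z : ℝ) := by
  have hsub : P ⊆ Ioc z (max z (P.sup id)) := by
    intro p hp
    rw [mem_Ioc]
    exact ⟨hP p hp, (le_sup (f := id) hp).trans (le_max_right _ _)⟩
  have h1 : ∑ p ∈ P, 1 / (p : ℝ) ^ 2 ≤ ∑ i ∈ Ioc z (max z (P.sup id)), ((i : ℝ) ^ 2)⁻¹ := by
    refine (sum_le_sum fun p _ => ?_).trans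
      (sum_le_sum_of_subset_of_nonneg hsub (fun i _ _ => by positivity))
    rw [one_div]
  have h2 := sum_Ioc_inv_sq_le_sub (α := ℝ) (by omega : z ≠ 0) (le_max_left z (P.sup id))
  have h3 : (0 : ℝ) ≤ ((max z (P.sup id) : ℕ) : ℝ)⁻¹ := by positivity
  rw [one_div]
  linarith

theorem sum_cube {z : ℕ} (hz : 1 ≤ z) (P : Finset ℕ) (hP : ∀ p ∈ P, z < p) :
    ∑ p ∈ P, 1 / (p : ℝ) ^ 3 ≤ 1 / (z : ℝ) ^ 2 := by
  have hz0 : (0 : ℝ) < z := by exact_mod_cast hz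
  have h1 : ∑ p ∈ P, 1 / (p : ℝ) ^ 3 ≤ ∑ p ∈ P, 1 / (z : ℝ) * (1 / (p : ℝ) ^ 2) := by
    apply sum_le_sum
    intro p hp
    have hzp : (z : ℝ) ≤ p := by exact_mod_cast (hP p hp).le
    have hp0 : (0 : ℝ) < p := hz0.trans_le hzp
    have e1 : 1 / (p : ℝ) ^ 3 = 1 / (p : ℝ) * (1 / (p : ℝ) ^ 2) := by
      field_simp
    rw [e1]
    exact mul_le_mul_of_nonneg_right (one_div_le_one_div_of_le hz0 hzp) (by positivity)
  rw [← mul_sum] at h1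
  have h2 := mul_le_mul_of_nonneg_left (sum_sq hz P hP) (by positivity : (0 : ℝ) ≤ 1 / (z : ℝ))
  have h3 : 1 / (z : ℝ) * (1 / (z : ℝ)) = 1 / (z : ℝ) ^ 2 := by
    field_simp
  linarith

private theorem pmin_fac {x : ℝ} (h0 : 0 ≤ x) (h1 : x ≤ 1 / 2) : (1 - x)⁻¹ ≤ Real.exp (x + x ^ 2) := by
  have ht : 0 ≤ x + x ^ 2 := by positivity
  have h2 := Real.quadratic_le_exp_of_nonneg ht
  have h3 : 0 < 1 - x := by linarith
  have hx2 : x ^ 2 ≤ 1 / 2 * x := by nlinarith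
  have hx3 : x ^ 3 ≤ 1 / 4 * x := by nlinarith [mul_nonneg h0 h0]
  have h4 : 0 ≤ 1 - x - x ^ 2 - x ^ 3 := by linarith
  have h5 : 1 ≤ (1 - x) * (1 + (x + x ^ 2) + (x + x ^ 2) ^ 2 / 2) := by
    have e : (1 - x) * (1 + (x + x ^ 2) + (x + x ^ 2) ^ 2 / 2) - 1 =
        x ^ 2 * (1 - x - x ^ 2 - x ^ 3) / 2 := by ring
    have : 0 ≤ x ^ 2 * (1 - x - x ^ 2 - x ^ 3) / 2 := by positivity
    linarith
  rw [inv_le_iff_one_le_mul₀ h3]
  calc (1 : ℝ) ≤ (1 - x) * (1 + (x + x ^ 2) + (x + x ^ 2) ^ 2 / 2) := h5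
    _ ≤ (1 - x) * Real.exp (x + x ^ 2) := mul_le_mul_of_nonneg_left h2 h3.le
    _ = Real.exp (x + x ^ 2) * (1 - x) := mul_comm _ _

private theorem pmin_exp {q : ℕ} (hq : q.Prime) : Real.exp (1 / (q : ℝ)) * (1 - 1 / (q : ℝ)) ≤ 1 := by
  have h2 : (2 : ℝ) ≤ q := by exact_mod_cast hq.two_le
  have h3 : 0 < 1 - 1 / (q : ℝ) := by
    rw [sub_pos, div_lt_one (by linarith)]
    linarith
  have h4 : 1 - 1 / (q : ℝ) ≤ Real.exp (-(1 / (q : ℝ))) := by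
    have := Real.add_one_le_exp (-(1 / (q : ℝ)))
    linarith
  calc Real.exp (1 / (q : ℝ)) * (1 - 1 / (q : ℝ))
      ≤ Real.exp (1 / (q : ℝ)) * Real.exp (-(1 / (q : ℝ))) :=
        mul_le_mul_of_nonneg_left h4 (Real.exp_pos _).le
    _ = 1 := by rw [← Real.exp_add, add_neg_cancel, Real.exp_zero]

private theorem pmin_sum {N : ℕ} (hN : 3 ≤ N) (P : Finset ℕ) (hP : ∀ p ∈ P, p.Prime ∧ p ≤ yy N) :
    ∑ p ∈ P, 1 / (p : ℝ) ≤ Real.log (Real.log N) := by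
  have hsub : P ⊆ (range (yy N + 1)).filter Nat.Prime := by
    intro p hp
    rw [mem_filter, mem_range]
    exact ⟨by have := (hP p hp).2; omega, (hP p hp).1⟩
  have h1 : ∑ p ∈ P, 1 / (p : ℝ) ≤ ∑ p ∈ (range (yy N + 1)).filter Nat.Prime, 1 / (p : ℝ) :=
    sum_le_sum_of_subset_of_nonneg hsub (fun i _ _ => by positivity)
  have h2 : Real.exp (∑ p ∈ (range (yy N + 1)).filter Nat.Prime, 1 / (p : ℝ)) * th (yy N) ≤ 1 := by
    unfold th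
    rw [Real.exp_sum, ← prod_mul_distrib]
    apply prod_le_one
    · intro q hq
      rw [mem_filter] at hq
      have h2 : (2 : ℝ) ≤ q := by exact_mod_cast hq.2.two_le
      have h3 : 0 ≤ 1 - 1 / (q : ℝ) := by
        rw [sub_nonneg, div_le_one (by linarith)]
        linarith
      exact mul_nonneg (Real.exp_pos _).le h3
    · intro q hq
      rw [mem_filter] at hq
      exact pmin_exp hq.2
  have h3 : 1 ≤ Real.log N * th (yy N) := (act_iff hN).2 le_rfl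
  have hth := th_pos (yy N)
  have h4 : Real.exp (∑ p ∈ (range (yy N + 1)).filter Nat.Prime, 1 / (p : ℝ)) ≤ Real.log N := by
    have := h2.trans h3
    exact le_of_mul_le_mul_right this hth
  have h5 : 0 < Real.log N := (Real.exp_pos _).trans_le h4
  exact h1.trans ((Real.le_log_iff_exp_le h5).2 h4)

theorem pmin {k z N : ℕ} (hN : 3 ≤ N) (hz : 1 ≤ z) (hkz : 2 * k ≤ z) (P : Finset ℕ)
    (hP : ∀ p ∈ P, p.Prime ∧ z < p ∧ p ≤ yy N) :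
    ∏ p ∈ P, (1 - (k : ℝ) / p)⁻¹ ≤
      Real.exp (k * Real.log (Real.log N) + (k : ℝ) ^ 2 / z) := by
  have hx : ∀ p ∈ P, 0 ≤ (k : ℝ) / p ∧ (k : ℝ) / p ≤ 1 / 2 := by
    intro p hp
    have h1 : 2 * k < p := lt_of_le_of_lt hkz (hP p hp).2.1
    have h2 : 2 * (k : ℝ) ≤ p := by exact_mod_cast h1.le
    have h3 : (0 : ℝ) < p := by exact_mod_cast (hP p hp).1.pos
    refine ⟨by positivity, ?_⟩
    rw [div_le_div_iff₀ h3 (by norm_num)]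
    linarith
  have h1 : ∏ p ∈ P, (1 - (k : ℝ) / p)⁻¹ ≤ ∏ p ∈ P, Real.exp ((k : ℝ) / p + ((k : ℝ) / p) ^ 2) := by
    apply prod_le_prod
    · intro p hp
      have := hx p hp
      exact inv_nonneg.2 (by linarith [this.2])
    · intro p hp
      exact pmin_fac (hx p hp).1 (hx p hp).2
  rw [← Real.exp_sum] at h1
  refine h1.trans (Real.exp_le_exp.2 ?_)
  rw [sum_add_distrib]
  have e1 : ∑ p ∈ P, (k : ℝ) / p = k * ∑ p ∈ P, 1 / (p : ℝ) := by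
    rw [mul_sum]
    exact sum_congr rfl fun p _ => by ring
  have e2 : ∑ p ∈ P, ((k : ℝ) / p) ^ 2 = (k : ℝ) ^ 2 * ∑ p ∈ P, 1 / (p : ℝ) ^ 2 := by
    rw [mul_sum]
    exact sum_congr rfl fun p _ => by ring
  have h2 := mul_le_mul_of_nonneg_left (pmin_sum hN P fun p hp => ⟨(hP p hp).1, (hP p hp).2.2⟩)
    (Nat.cast_nonneg (α := ℝ) k)
  have h3 := mul_le_mul_of_nonneg_left (sum_sq hz P fun p hp => (hP p hp).2.1)
    (by positivity : (0 : ℝ) ≤ (k : ℝ) ^ 2)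
  have e3 : (k : ℝ) ^ 2 * (1 / (z : ℝ)) = (k : ℝ) ^ 2 / z := by ring
  rw [e1, e2]
  linarith

end Pool.Agent.RSL
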