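import Pool.Agent.RSL.NumD
import Pool.Agent.RSL.Pmin
import Pool.Agent.RSL.MertS
import Pool.Agent.RSL.LocV

/-!
# RSL / NumC: the parameters, third part (middle primes)

`L = log X`, `k = kk ε X ≤ L/log L`, `z = zz ε X ≥ ε L/17`, `w = ww X ≤ L^5 + 1`, `P1` = primes `p` of `PP ε X` with `p ≤ w`, all are in `(z, w]`.

`num_AA`: `AA k p ≤ 1 + 8k²/p³ ≤ exp (8k²/p³)` (`AA_le`), `∑ 1/p³ ≤ 1/z²` (`sum_cube`), so the product is at most
`exp (8 k²/z²) ≤ exp (8 * 289/(ε² (log L)²)) ≤ 1 + C/(log L)²` for large `X` (`exp y ≤ 1 + 2 y` for `0 ≤ y ≤ 1`).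

`num_tail`: let `C₁` be the constant of `mert_win`, `s := 8 (3 C₁ + 2)/ε`, `σ := s/log L`.
`∏ (1 + 3k/p) ≤ exp (3 k ∑ 1/p) ≤ exp (3 C₁ k) ≤ exp (3 C₁ L/log L)`.
`DD ≥ exp (ε L/8)/2`, so `DD^(-σ) ≤ exp (-σ (ε L/8 - log 2)) = exp (-(3 C₁ + 2) L/log L + s log 2/log L)`.
`p^σ ≤ w^σ ≤ (2 L^5)^(s/log L) ≤ exp (6 s)` for large `X`, so
`∏ (1 + 6k²/p² p^σ) ≤ exp (6 k² exp (6 s) ∑ 1/p²) ≤ exp (6 exp (6 s) k²/z) ≤ exp (C_s L/(log L)²)` (`sum_sq`).
The product of all is at most `exp (-2 L/log L + C_s L/(log L)² + s) ≤ exp (-L/log L) ≤ 1/(4 L)` for large `X`.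
-/

namespace Pool.Agent.RSL

open Finset Filter Pool.Agent.RSC

private theorem nc_mem {ε : ℝ} {X p : ℕ} (hp : p ∈ (PP ε X).filter (fun p => p ≤ ww X)) :
    p.Prime ∧ p ≠ 2 ∧ zz ε X < p ∧ p ≤ ww X := by
  unfold PP oddP at hp
  simp only [mem_filter, mem_range] at hp
  tauto

private theorem nc_tL : Tendsto (fun X : ℕ => Real.log (X : ℝ)) atTop atTop :=
  Real.tendsto_log_atTop.comp tendsto_natCast_atTop_atTop

private theorem nc_tLL : Tendsto (fun X : ℕ => Real.log (Real.log (X : ℝ))) atTop atTop :=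
  Real.tendsto_log_atTop.comp nc_tL

private theorem nc_exp_le {y : ℝ} (h0 : 0 ≤ y) (h1 : y ≤ 1) : Real.exp y ≤ 1 + 2 * y := by
  have h := Real.exp_bound_div_one_sub_of_interval (x := y / 2) (by linarith) (by linarith)
  have h2 : (0 : ℝ) < 1 - y / 2 := by linarith
  have h3 : Real.exp y = Real.exp (y / 2) ^ 2 := by
    rw [← Real.exp_nat_mul]; congr 1; push_cast; ring
  have hc := convexOn_exp
  have h4 := hc.2 (Set.mem_univ (0 : ℝ)) (Set.mem_univ (1 : ℝ)) (by linarith : (0 : ℝ) ≤ 1 - y) h0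
    (by ring)
  simp only [smul_eq_mul, mul_zero, mul_one, zero_add, Real.exp_zero] at h4
  have he : Real.exp 1 < 3 := lt_trans Real.exp_one_lt_d9 (by norm_num)
  nlinarith [mul_le_mul_of_nonneg_left he.le h0]

private theorem nc_kk {ε : ℝ} {X : ℕ} (h0 : 0 < ε)
    (hL : 0 < Real.log X) (hLL : 0 < Real.log (Real.log X))
    (h : (kk ε X : ℝ) ≤ (1 - ε) * (Real.log X / Real.log (Real.log X))) :
    (kk ε X : ℝ) ≤ Real.log X / Real.log (Real.log X) := by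
  have : 0 < Real.log X / Real.log (Real.log X) := div_pos hL hLL
  nlinarith

theorem num_AA {ε : ℝ} (h0 : 0 < ε) (h1 : ε < 1) : ∃ C : ℝ, 0 < C ∧ ∀ᶠ X : ℕ in atTop,
    ∏ p ∈ (PP ε X).filter (fun p => p ≤ ww X), AA (kk ε X) p ≤
      1 + C / Real.log (Real.log X) ^ 2 := by
  refine ⟨2 * (8 * 289 / ε ^ 2), by positivity, ?_⟩
  filter_upwards [num_kk_le h0 h1, num_basic h0 h1, nc_tL.eventually_gt_atTop 0,
    nc_tLL.eventually_ge_atTop (max 1 (8 * 289 / ε ^ 2))] with X hk hb hL hLL'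
  obtain ⟨hk1, hk4, hz8, hzL, hzw, hwz, hX, hD⟩ := hb
  have hLL1 : 1 ≤ Real.log (Real.log X) := le_trans (le_max_left _ _) hLL'
  have hLL2 : 8 * 289 / ε ^ 2 ≤ Real.log (Real.log X) := le_trans (le_max_right _ _) hLL'
  set L := Real.log (X : ℝ) with hLdef
  set M := Real.log L with hMdef
  have hM0 : 0 < M := by linarith
  have hkL : (kk ε X : ℝ) ≤ L / M := nc_kk h0 hL hM0 hk
  have hz0 : (0 : ℝ) < zz ε X := by
    have : 0 < zz ε X := by omega
    exact_mod_cast this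
  set P := (PP ε X).filter (fun p => p ≤ ww X) with hP
  have step1 : ∏ p ∈ P, AA (kk ε X) p ≤ ∏ p ∈ P, Real.exp (8 * (kk ε X : ℝ) ^ 2 * (1 / (p : ℝ) ^ 3)) := by
    apply Finset.prod_le_prod
    · intro p hp
      obtain ⟨hp1, hp2, hp3, hp4⟩ := nc_mem hp
      have := AA_ge hp1 (k := kk ε X) (by omega)
      linarith
    · intro p hp
      obtain ⟨hp1, hp2, hp3, hp4⟩ := nc_mem hp
      have h := AA_le hp1 hp2 hk1 (by omega)
      refine le_trans h ?_
      have h2 := Real.add_one_le_exp (8 * (kk ε X : ℝ) ^ 2 * (1 / (p : ℝ) ^ 3))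
      have e : 8 * (kk ε X : ℝ) ^ 2 / (p : ℝ) ^ 3 = 8 * (kk ε X : ℝ) ^ 2 * (1 / (p : ℝ) ^ 3) := by
        ring
      rw [e]; linarith
  rw [← Real.exp_sum, ← Finset.mul_sum] at step1
  have hcube := sum_cube (z := zz ε X) (by omega) P (fun p hp => (nc_mem hp).2.2.1)
  have hy : 8 * (kk ε X : ℝ) ^ 2 * ∑ p ∈ P, 1 / (p : ℝ) ^ 3 ≤ 8 * 289 / ε ^ 2 / M ^ 2 := by
    have a1 : 8 * (kk ε X : ℝ) ^ 2 * ∑ p ∈ P, 1 / (p : ℝ) ^ 3 ≤
        8 * (kk ε X : ℝ) ^ 2 * (1 / (zz ε X : ℝ) ^ 2) :=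
      mul_le_mul_of_nonneg_left hcube (by positivity)
    have a2 : (kk ε X : ℝ) ^ 2 ≤ (L / M) ^ 2 := by
      apply pow_le_pow_left₀ (by positivity) hkL
    have a3 : 1 / (zz ε X : ℝ) ^ 2 ≤ 1 / (ε * L / 17) ^ 2 := by
      apply one_div_le_one_div_of_le (by positivity)
      exact pow_le_pow_left₀ (by positivity) hzL 2
    have a4 : 8 * (kk ε X : ℝ) ^ 2 * (1 / (zz ε X : ℝ) ^ 2) ≤ 8 * (L / M) ^ 2 * (1 / (ε * L / 17) ^ 2) := by
      apply mul_le_mul (by linarith) a3 (by positivity) (by positivity)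
    have a5 : 8 * (L / M) ^ 2 * (1 / (ε * L / 17) ^ 2) = 8 * 289 / ε ^ 2 / M ^ 2 := by
      field_simp
      ring
    linarith
  have hC0 : 0 < 8 * 289 / ε ^ 2 := by positivity
  have hy1 : 8 * 289 / ε ^ 2 / M ^ 2 ≤ 1 := by
    rw [div_le_one (by positivity)]
    nlinarith
  have hfin := nc_exp_le (y := 8 * 289 / ε ^ 2 / M ^ 2) (by positivity) hy1
  calc ∏ p ∈ P, AA (kk ε X) p ≤ _ := step1
    _ ≤ Real.exp (8 * 289 / ε ^ 2 / M ^ 2) := Real.exp_le_exp.mpr hy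
    _ ≤ 1 + 2 * (8 * 289 / ε ^ 2 / M ^ 2) := hfin
    _ = 1 + 2 * (8 * 289 / ε ^ 2) / M ^ 2 := by ring

theorem num_tail {ε : ℝ} (h0 : 0 < ε) (h1 : ε < 1) : ∃ s : ℝ, 0 < s ∧ ∀ᶠ X : ℕ in atTop,
    4 * (∏ p ∈ (PP ε X).filter (fun p => p ≤ ww X), (1 + 3 * (kk ε X : ℝ) / p)) *
      ((DD ε X : ℝ) ^ (-(s / Real.log (Real.log X))) *
        ∏ p ∈ (PP ε X).filter (fun p => p ≤ ww X),
          (1 + 6 * (kk ε X : ℝ) ^ 2 / (p : ℝ) ^ 2 * (p : ℝ) ^ (s / Real.log (Real.log X)))) ≤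
      1 / Real.log X := by
  obtain ⟨C1, hC1, hmert⟩ := mert_win
  set s : ℝ := 8 * (3 * C1 + 2) / ε with hs
  have hs0 : 0 < s := by positivity
  set Cs : ℝ := 6 * Real.exp (6 * s) * (17 / ε) with hCs
  have hCs0 : 0 < Cs := by positivity
  refine ⟨s, hs0, ?_⟩
  have hlit : ∀ᶠ X : ℕ in atTop, Real.log (Real.log (X : ℝ)) ^ 2 ≤ 1 / 2 * Real.log X := by
    have h := (Real.isLittleO_pow_log_id_atTop (n := 2)).bound (show (0 : ℝ) < 1 / 2 by norm_num)
    have h2 := nc_tL.eventually h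
    filter_upwards [h2, nc_tL.eventually_gt_atTop 0] with X hX hL
    simp only [id, Real.norm_eq_abs, abs_of_pos hL] at hX
    exact le_trans (le_abs_self _) hX
  filter_upwards [num_kk_le h0 h1, num_basic h0 h1, hlit,
    nc_tL.eventually_ge_atTop (max 1 (8 / ε)),
    nc_tLL.eventually_ge_atTop (max 4 (max s (2 * Cs)))] with X hk hb hli hL' hLL'
  obtain ⟨hk1, hk4, hz8, hzL, hzw, hwz, hX, hD⟩ := hb
  have hL1 : 1 ≤ Real.log X := le_trans (le_max_left _ _) hL'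
  have hL2 : 8 / ε ≤ Real.log X := le_trans (le_max_right _ _) hL'
  have hM4 : 4 ≤ Real.log (Real.log X) := le_trans (le_max_left _ _) hLL'
  have hMs : s ≤ Real.log (Real.log X) := le_trans (le_trans (le_max_left _ _) (le_max_right _ _)) hLL'
  have hMC : 2 * Cs ≤ Real.log (Real.log X) :=
    le_trans (le_trans (le_max_right _ _) (le_max_right _ _)) hLL'
  set L := Real.log (X : ℝ) with hLdef
  set M := Real.log L with hMdef
  have hL0 : 0 < L := by linarith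
  have hM0 : 0 < M := by linarith
  have hkL : (kk ε X : ℝ) ≤ L / M := nc_kk h0 hL0 hM0 hk
  have hz0 : (0 : ℝ) < zz ε X := by
    have : 0 < zz ε X := by omega
    exact_mod_cast this
  have hlog2 : Real.log 2 ≤ 1 := by
    have := Real.log_two_lt_d9; linarith
  have hlog2' : 0 < Real.log 2 := Real.log_pos (by norm_num)
  set P := (PP ε X).filter (fun p => p ≤ ww X) with hP
  set σ := s / M with hσ
  have hσ0 : 0 < σ := div_pos hs0 hM0
  -- (1)
  have e1 : ∏ p ∈ P, (1 + 3 * (kk ε X : ℝ) / p) ≤ Real.exp (3 * C1 * (L / M)) := by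
    have a1 : ∏ p ∈ P, (1 + 3 * (kk ε X : ℝ) / p) ≤
        ∏ p ∈ P, Real.exp (3 * (kk ε X : ℝ) * (1 / p)) := by
      apply Finset.prod_le_prod
      · intro p hp; positivity
      · intro p hp
        have := Real.add_one_le_exp (3 * (kk ε X : ℝ) * (1 / p))
        have e : 3 * (kk ε X : ℝ) / p = 3 * (kk ε X : ℝ) * (1 / p) := by ring
        rw [e]; linarith
    rw [← Real.exp_sum, ← Finset.mul_sum] at a1
    refine le_trans a1 (Real.exp_le_exp.mpr ?_)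
    have a2 : ∑ p ∈ P, 1 / (p : ℝ) ≤ C1 := by
      refine le_trans ?_ (hmert (zz ε X) (ww X) (by omega) hzw hwz)
      apply Finset.sum_le_sum_of_subset_of_nonneg
      · intro p hp
        obtain ⟨hp1, hp2, hp3, hp4⟩ := nc_mem hp
        simp only [mem_filter, mem_Ioc]
        exact ⟨⟨hp3, hp4⟩, hp1⟩
      · intro p _ _; positivity
    have a3 : 0 ≤ ∑ p ∈ P, 1 / (p : ℝ) := Finset.sum_nonneg (fun p _ => by positivity)
    calc 3 * (kk ε X : ℝ) * ∑ p ∈ P, 1 / (p : ℝ) ≤ 3 * (L / M) * C1 := by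
          apply mul_le_mul (by linarith) a2 a3 (by positivity)
      _ = 3 * C1 * (L / M) := by ring
  -- (2)
  have hexp2 : 2 ≤ Real.exp (ε * L / 8) := by
    have : 1 ≤ ε * L / 8 := by
      rw [div_le_iff₀ h0] at hL2
      linarith
    have h2 := Real.add_one_le_exp (ε * L / 8)
    linarith
  have hDD : Real.exp (ε * L / 8) / 2 ≤ (DD ε X : ℝ) := by
    have := Nat.sub_one_lt_floor (Real.exp (ε * Real.log X / 8))
    unfold DD
    rw [← hLdef] at this ⊢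
    linarith
  have e2 : (DD ε X : ℝ) ^ (-σ) ≤ Real.exp (-(3 * C1 + 2) * (L / M) + 1) := by
    have b1 : (DD ε X : ℝ) ^ (-σ) ≤ (Real.exp (ε * L / 8) / 2) ^ (-σ) := by
      apply Real.rpow_le_rpow_of_nonpos (by positivity) hDD (by linarith)
    refine le_trans b1 ?_
    rw [Real.rpow_def_of_pos (by positivity), Real.log_div (Real.exp_pos _).ne' (by norm_num),
      Real.log_exp]
    apply Real.exp_le_exp.mpr
    have b2 : (ε * L / 8 - Real.log 2) * -σ = -(3 * C1 + 2) * (L / M) + Real.log 2 * (s / M) := by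
      rw [hσ, hs]
      field_simp
      ring
    rw [b2]
    have b3 : s / M ≤ 1 := by rw [div_le_one hM0]; exact hMs
    have b4 : 0 < s / M := hσ0
    nlinarith
  -- (3)
  have hww : (ww X : ℝ) ≤ 2 * L ^ 5 := by
    unfold ww
    have := (Nat.ceil_lt_add_one (show 0 ≤ Real.log X ^ 5 by positivity)).le
    rw [← hLdef] at this ⊢
    have h5 : 1 ≤ L ^ 5 := one_le_pow₀ hL1
    linarith
  have e3 : ∏ p ∈ P, (1 + 6 * (kk ε X : ℝ) ^ 2 / (p : ℝ) ^ 2 * (p : ℝ) ^ σ) ≤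
      Real.exp (1 / 2 * (L / M)) := by
    have c0 : ∀ p ∈ P, (p : ℝ) ^ σ ≤ Real.exp (6 * s) := by
      intro p hp
      obtain ⟨hp1, hp2, hp3, hp4⟩ := nc_mem hp
      have hpw : (p : ℝ) ≤ 2 * L ^ 5 := le_trans (by exact_mod_cast hp4) hww
      have hp0 : (0 : ℝ) < p := by exact_mod_cast hp1.pos
      refine le_trans (Real.rpow_le_rpow hp0.le hpw hσ0.le) ?_
      rw [Real.rpow_def_of_pos (by positivity), Real.log_mul (by norm_num) (by positivity),
        Real.log_pow]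
      apply Real.exp_le_exp.mpr
      rw [← hMdef, hσ]
      have : (Real.log 2 + ((5 : ℕ) : ℝ) * M) * (s / M) ≤ (6 * M) * (s / M) := by
        apply mul_le_mul_of_nonneg_right _ hσ0.le
        push_cast; linarith
      refine le_trans this (le_of_eq ?_)
      field_simp
    have c1 : ∏ p ∈ P, (1 + 6 * (kk ε X : ℝ) ^ 2 / (p : ℝ) ^ 2 * (p : ℝ) ^ σ) ≤
        ∏ p ∈ P, Real.exp (6 * (kk ε X : ℝ) ^ 2 * Real.exp (6 * s) * (1 / (p : ℝ) ^ 2)) := by
      apply Finset.prod_le_prod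
      · intro p hp; positivity
      · intro p hp
        have h := Real.add_one_le_exp (6 * (kk ε X : ℝ) ^ 2 * Real.exp (6 * s) * (1 / (p : ℝ) ^ 2))
        have h2 : 6 * (kk ε X : ℝ) ^ 2 / (p : ℝ) ^ 2 * (p : ℝ) ^ σ ≤
            6 * (kk ε X : ℝ) ^ 2 / (p : ℝ) ^ 2 * Real.exp (6 * s) :=
          mul_le_mul_of_nonneg_left (c0 p hp) (by positivity)
        have e : 6 * (kk ε X : ℝ) ^ 2 / (p : ℝ) ^ 2 * Real.exp (6 * s) =
          6 * (kk ε X : ℝ) ^ 2 * Real.exp (6 * s) * (1 / (p : ℝ) ^ 2) := by ring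
        linarith
    rw [← Real.exp_sum, ← Finset.mul_sum] at c1
    refine le_trans c1 (Real.exp_le_exp.mpr ?_)
    have hsq := sum_sq (z := zz ε X) (by omega) P (fun p hp => (nc_mem hp).2.2.1)
    have c2 : 1 / (zz ε X : ℝ) ≤ 17 / (ε * L) := by
      have : 1 / (zz ε X : ℝ) ≤ 1 / (ε * L / 17) := by
        apply one_div_le_one_div_of_le (by positivity) hzL
      refine le_trans this (le_of_eq ?_)
      field_simp
    have c3 : (kk ε X : ℝ) ^ 2 ≤ (L / M) ^ 2 := pow_le_pow_left₀ (by positivity) hkL 2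
    have c4 : 6 * (kk ε X : ℝ) ^ 2 * Real.exp (6 * s) * ∑ p ∈ P, 1 / (p : ℝ) ^ 2 ≤
        6 * (L / M) ^ 2 * Real.exp (6 * s) * (17 / (ε * L)) := by
      apply mul_le_mul _ (le_trans hsq c2) (Finset.sum_nonneg (fun p _ => by positivity))
        (by positivity)
      apply mul_le_mul_of_nonneg_right (by linarith) (Real.exp_pos _).le
    refine le_trans c4 ?_
    have c5 : 6 * (L / M) ^ 2 * Real.exp (6 * s) * (17 / (ε * L)) = (Cs / M) * (L / M) := by
      rw [hCs]; field_simp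
    rw [c5]
    apply mul_le_mul_of_nonneg_right _ (by positivity)
    rw [div_le_iff₀ hM0]; linarith
  -- final
  have hT : 2 * M ≤ L / M := by
    rw [le_div_iff₀ hM0]; nlinarith
  have p1 : 0 ≤ ∏ p ∈ P, (1 + 3 * (kk ε X : ℝ) / p) := Finset.prod_nonneg (fun p _ => by positivity)
  have p2 : 0 ≤ (DD ε X : ℝ) ^ (-σ) := by positivity
  have p3 : 0 ≤ ∏ p ∈ P, (1 + 6 * (kk ε X : ℝ) ^ 2 / (p : ℝ) ^ 2 * (p : ℝ) ^ σ) :=
    Finset.prod_nonneg (fun p _ => by positivity)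
  have hprod : 4 * (∏ p ∈ P, (1 + 3 * (kk ε X : ℝ) / p)) *
      ((DD ε X : ℝ) ^ (-σ) * ∏ p ∈ P, (1 + 6 * (kk ε X : ℝ) ^ 2 / (p : ℝ) ^ 2 * (p : ℝ) ^ σ)) ≤
      4 * Real.exp (3 * C1 * (L / M)) *
        (Real.exp (-(3 * C1 + 2) * (L / M) + 1) * Real.exp (1 / 2 * (L / M))) := by
    apply mul_le_mul
    · exact mul_le_mul_of_nonneg_left e1 (by norm_num)
    · exact mul_le_mul e2 e3 p3 (Real.exp_pos _).le
    · positivity
    · positivity
  refine le_trans hprod ?_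
  have h4 : (4 : ℝ) ≤ Real.exp 2 := by
    have := Real.add_one_le_exp (1 : ℝ)
    have e : Real.exp 2 = Real.exp 1 * Real.exp 1 := by rw [← Real.exp_add]; norm_num
    rw [e]; nlinarith
  have hLinv : 1 / L = Real.exp (-M) := by
    rw [Real.exp_neg, hMdef, Real.exp_log hL0, one_div]
  rw [hLinv]
  calc 4 * Real.exp (3 * C1 * (L / M)) *
        (Real.exp (-(3 * C1 + 2) * (L / M) + 1) * Real.exp (1 / 2 * (L / M)))
      ≤ Real.exp 2 * Real.exp (3 * C1 * (L / M)) *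
        (Real.exp (-(3 * C1 + 2) * (L / M) + 1) * Real.exp (1 / 2 * (L / M))) := by
        apply mul_le_mul_of_nonneg_right _ (by positivity)
        exact mul_le_mul_of_nonneg_right h4 (Real.exp_pos _).le
    _ = Real.exp (3 - 3 / 2 * (L / M)) := by
        rw [← Real.exp_add, ← Real.exp_add, ← Real.exp_add]
        congr 1; ring
    _ ≤ Real.exp (-M) := by
        apply Real.exp_le_exp.mpr
        linarith

end Pool.Agent.RSL
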