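import Pool.Agent.RSL.Surv
import Pool.Agent.RSL.LocF

/-!
# RSL / SM: the probability that no `b ≤ Q l` survives

`Q = ∏_{p ∈ P0} p`. Let `E` be the event on the left. For `β ∈ [1, Q]` let `G_β` be the event `∀ p ∈ P0, phi p (a p) β`, with indicator
`g_β = ∏_{p ∈ P0} [phi p (a p) β]`, and `X_β = ∑_{t < l} ∏_{p ∈ P} W k p (a p) (β + Q t) / S1 k p (β + Q t)`.

(1) `E ⊆ ⋃_β (G_β ∩ {X_β = 0})`: by `surv` there is `β` with `G_β`; for `t < l`, `b = β + Q t ∈ [1, Q l]`, so some `p ∈ P0 ∪ P` has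
`W k p (a p) b = 0`, and `p ∉ P0` by `surv_W` (`p ∈ P0` divides `Q`), so the product over `P` is `0`.
(2) `μ(G_β ∩ {X_β = 0}) ≤ ∫ g_β (X_β / l - 1)²` (the integrand is `≥ 0` and `= 1` on that event).
(3) `∫ g_β (X_β - l)² = μ(G_β) (∑_{t,t'} ∏_{p ∈ P} ff k p b b' - l²)`: expand the square into products over `p ∈ P0 ∪ P` of
functions of `a p` and use `expect_prod`: for `p ∈ P`, `(∑_{j<p} W W' /(S S'))/p = ff`, `(∑_{j<p} W/S)/p = 1` (`W² = W`,
`S1 > 0` by `S1_pos`); the factors of `p ∈ P0` give `∏_{p ∈ P0} (∑_{j<p} [phi p j β])/p = μ(G_β)`.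
(For `p ∈ P` the functions must be bounded for all `p j`: put them equal to `0` outside `P0 ∪ P`, or bound them by a maximum.)
(4) `∑_β μ(G_β) = ∫ ∑_β g_β ≤ 1` by `surv_unique`. So `μ(E) ≤ ∑_β μ(G_β) V ≤ V`.
-/

namespace Pool.Agent.RSL

open Finset MeasureTheory ProbabilityTheory Pool.Agent.RSC

variable {Ω : Type*} [MeasurableSpace Ω] {μ : Measure Ω} [IsProbabilityMeasure μ] {a : ℕ → Ω → ℕ}

private theorem pe (h : Unif μ a) (P0 P : Finset ℕ) (h0 : ∀ p ∈ P0, p.Prime)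
    (h1 : ∀ p ∈ P, p.Prime) (hd : Disjoint P0 P) (A B : ℕ → ℕ → ℝ) (C : ℕ → ℝ)
    (hC : ∀ p, 0 ≤ C p) (hA : ∀ p ∈ P0, ∀ j, |A p j| ≤ C p) (hB : ∀ p ∈ P, ∀ j, |B p j| ≤ C p) :
    Integrable (fun ω => (∏ p ∈ P0, A p (a p ω)) * ∏ p ∈ P, B p (a p ω)) μ ∧
      ∫ ω, (∏ p ∈ P0, A p (a p ω)) * ∏ p ∈ P, B p (a p ω) ∂μ =
        (∏ p ∈ P0, (∑ j ∈ range p, A p j) / p) * ∏ p ∈ P, (∑ j ∈ range p, B p j) / p := by
  obtain ⟨f, hf⟩ : ∃ f : ℕ → ℕ → ℝ, f = fun p j => if p ∈ P0 then A p j else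
      if p ∈ P then B p j else 0 := ⟨_, rfl⟩
  have f0 : ∀ p ∈ P0, ∀ j, f p j = A p j := fun p hp j => by rw [hf]; simp [hp]
  have f1 : ∀ p ∈ P, ∀ j, f p j = B p j := fun p hp j => by
    have : p ∉ P0 := fun h => (Finset.disjoint_left.1 hd) h hp
    rw [hf]; simp [hp, this]
  have fb : ∀ p j, |f p j| ≤ ∑ q ∈ P0 ∪ P, C q := by
    intro p j
    by_cases hp0 : p ∈ P0
    · rw [f0 p hp0]
      exact (hA p hp0 j).trans (Finset.single_le_sum (fun q _ => hC q)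
        (Finset.mem_union_left _ hp0))
    · by_cases hp1 : p ∈ P
      · rw [f1 p hp1]
        exact (hB p hp1 j).trans (Finset.single_le_sum (fun q _ => hC q)
          (Finset.mem_union_right _ hp1))
      · have : f p j = 0 := by rw [hf]; simp [hp0, hp1]
        rw [this, abs_zero]
        exact Finset.sum_nonneg fun q _ => hC q
  have hP : ∀ p ∈ P0 ∪ P, p.Prime := fun p hp => (Finset.mem_union.1 hp).elim (h0 p) (h1 p)
  have e : ∀ ω, ∏ p ∈ P0 ∪ P, f p (a p ω) =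
      (∏ p ∈ P0, A p (a p ω)) * ∏ p ∈ P, B p (a p ω) := by
    intro ω
    rw [Finset.prod_union hd]
    congr 1
    · exact Finset.prod_congr rfl fun p hp => f0 p hp _
    · exact Finset.prod_congr rfl fun p hp => f1 p hp _
  have i1 := integrable_prod h (P0 ∪ P) hP f fb
  have i2 := expect_prod h (P0 ∪ P) hP f fb
  simp_rw [e] at i1 i2
  refine ⟨i1, i2.trans ?_⟩
  rw [Finset.prod_union hd]
  congr 1
  · refine Finset.prod_congr rfl fun p hp => ?_
    rw [Finset.sum_congr rfl fun j _ => f0 p hp j]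
  · refine Finset.prod_congr rfl fun p hp => ?_
    rw [Finset.sum_congr rfl fun j _ => f1 p hp j]

private theorem avW {p : ℕ} (hp : p.Prime) {k : ℕ} (h4 : 4 * k ≤ p) (b : ℕ) :
    (∑ j ∈ range p, W k p j b / S1 k p b) / (p : ℝ) = 1 := by
  have hS := S1_pos hp h4 b
  have e : S1 k p b = (∑ j ∈ range p, W k p j b) / (p : ℝ) := by
    unfold S1 U
    simp only [W_sq]
  rw [← Finset.sum_div, div_right_comm, ← e]
  exact div_self hS.ne'

private theorem avff (k p b b' : ℕ) :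
    (∑ j ∈ range p, (W k p j b / S1 k p b) * (W k p j b' / S1 k p b')) / (p : ℝ) =
      ff k p b b' := by
  have e : ∀ j, (W k p j b / S1 k p b) * (W k p j b' / S1 k p b') =
      (W k p j b * W k p j b') / (S1 k p b * S1 k p b') := fun j => div_mul_div_comm _ _ _ _
  simp_rw [e]
  unfold ff U
  rw [← Finset.sum_div, div_right_comm]

theorem sm (h : Unif μ a) (k : ℕ) (P0 P : Finset ℕ) (hP0 : ∀ p ∈ P0, p.Prime ∧ p ≠ 2)
    (hP : ∀ p ∈ P, p.Prime ∧ 4 * k ≤ p) (hd : Disjoint P0 P) {l : ℕ} (hl : 1 ≤ l) {V : ℝ}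
    (hV0 : 0 ≤ V)
    (hV : ∀ β ∈ Icc 1 (∏ p ∈ P0, p), ∑ t ∈ range l, ∑ t' ∈ range l,
      ∏ p ∈ P, ff k p (β + (∏ p ∈ P0, p) * t) (β + (∏ p ∈ P0, p) * t') ≤ (1 + V) * (l : ℝ) ^ 2) :
    μ.real {ω | ∀ b ∈ Icc 1 ((∏ p ∈ P0, p) * l), ∃ p ∈ P0 ∪ P, W k p (a p ω) b = 0} ≤ V := by
  classical
  obtain ⟨Q, hQ⟩ : ∃ Q : ℕ, Q = ∏ p ∈ P0, p := ⟨_, rfl⟩
  rw [← hQ] at hV ⊢
  have hl0 : (0 : ℝ) < l := by exact_mod_cast hl
  have hp0 : ∀ p ∈ P0, p.Prime := fun p hp => (hP0 p hp).1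
  have hp1 : ∀ p ∈ P, p.Prime := fun p hp => (hP p hp).1
  -- weights
  obtain ⟨ph, hph⟩ : ∃ ph : ℕ → ℕ → ℕ → ℝ, ph = fun β p c => if phi p c β then 1 else 0 := ⟨_, rfl⟩
  have ph01 : ∀ β p c, 0 ≤ ph β p c ∧ ph β p c ≤ 1 := by
    intro β p c
    rw [hph]
    dsimp only
    split_ifs <;> norm_num
  have ph1 : ∀ β p c, phi p c β → ph β p c = 1 := fun β p c hh => by rw [hph]; simp [hh]
  have phn : ∀ β p c, ph β p c ≠ 0 → phi p c β := by
    intro β p c hh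
    by_contra hcon
    apply hh
    rw [hph]
    simp [hcon]
  obtain ⟨m, hm⟩ : ∃ m : ℕ → ℝ, m = fun β => ∏ p ∈ P0, (∑ j ∈ range p, ph β p j) / (p : ℝ) :=
    ⟨_, rfl⟩
  obtain ⟨G, hG⟩ : ∃ G : ℕ → Ω → ℝ, G = fun β ω => ∏ p ∈ P0, ph β p (a p ω) := ⟨_, rfl⟩
  obtain ⟨w, hw⟩ : ∃ w : ℕ → Ω → ℝ, w = fun b ω => ∏ p ∈ P, (W k p (a p ω) b / S1 k p b) :=
    ⟨_, rfl⟩
  obtain ⟨X, hX⟩ : ∃ X : ℕ → Ω → ℝ, X = fun β ω => ∑ t ∈ range l, w (β + Q * t) ω := ⟨_, rfl⟩
  have hG0 : ∀ β ω, 0 ≤ G β ω := fun β ω => by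
    rw [hG]
    exact Finset.prod_nonneg fun p _ => (ph01 _ _ _).1
  have hm0 : ∀ β, 0 ≤ m β := fun β => by
    rw [hm]
    exact Finset.prod_nonneg fun p _ =>
      div_nonneg (Finset.sum_nonneg fun j _ => (ph01 _ _ _).1) (Nat.cast_nonneg p)
  -- a bound for the quotients
  have hWS : ∀ p b c, |W k p c b / S1 k p b| ≤ |1 / S1 k p b| := by
    intro p b c
    rw [abs_div, abs_div, abs_one]
    refine div_le_div_of_nonneg_right ?_ (abs_nonneg _)
    rw [abs_of_nonneg (W_nonneg k p c b)]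
    exact W_le_one k p c b
  -- the three integrals
  have I0 : ∀ β, Integrable (G β) μ ∧ ∫ ω, G β ω ∂μ = m β := by
    intro β
    have := pe h P0 P hp0 hp1 hd (ph β) (fun _ _ => 1) (fun _ => 1) (fun _ => zero_le_one)
      (fun p _ j => by rw [abs_of_nonneg (ph01 _ _ _).1]; exact (ph01 _ _ _).2)
      (fun p _ j => by rw [abs_one])
    simp only [Finset.prod_const_one, mul_one, Finset.sum_const, card_range, nsmul_eq_mul] at this
    rw [hG, hm]
    refine ⟨this.1, this.2.trans ?_⟩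
    have hone : ∏ x ∈ P, (x : ℝ) / (x : ℝ) = 1 :=
      Finset.prod_eq_one fun p hp => div_self (by exact_mod_cast (hp1 p hp).ne_zero)
    rw [hone, mul_one]
  have I1 : ∀ β b, Integrable (fun ω => G β ω * w b ω) μ ∧ ∫ ω, G β ω * w b ω ∂μ = m β := by
    intro β b
    have := pe h P0 P hp0 hp1 hd (ph β) (fun p c => W k p c b / S1 k p b)
      (fun p => 1 + |1 / S1 k p b|) (fun p => by positivity)
      (fun p _ j => by
        rw [abs_of_nonneg (ph01 _ _ _).1]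
        exact (ph01 _ _ _).2.trans (le_add_of_nonneg_right (abs_nonneg _)))
      (fun p _ j => (hWS p b j).trans (le_add_of_nonneg_left zero_le_one))
    rw [hG, hw, hm]
    refine ⟨this.1, this.2.trans ?_⟩
    rw [Finset.prod_congr rfl fun p hp => avW (hP p hp).1 (hP p hp).2 b, Finset.prod_const_one,
      mul_one]
  have I2 : ∀ β b b', Integrable (fun ω => G β ω * (w b ω * w b' ω)) μ ∧
      ∫ ω, G β ω * (w b ω * w b' ω) ∂μ = m β * ∏ p ∈ P, ff k p b b' := by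
    intro β b b'
    have := pe h P0 P hp0 hp1 hd (ph β)
      (fun p c => (W k p c b / S1 k p b) * (W k p c b' / S1 k p b'))
      (fun p => 1 + |1 / S1 k p b| * |1 / S1 k p b'|) (fun p => by positivity)
      (fun p _ j => by
        rw [abs_of_nonneg (ph01 _ _ _).1]
        exact (ph01 _ _ _).2.trans (le_add_of_nonneg_right (by positivity)))
      (fun p _ j => by
        rw [abs_mul]
        exact (mul_le_mul (hWS p b j) (hWS p b' j) (abs_nonneg _) (abs_nonneg _)).trans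
          (le_add_of_nonneg_left zero_le_one))
    simp only [Finset.prod_mul_distrib] at this
    rw [hG, hw, hm]
    refine ⟨this.1, this.2.trans ?_⟩
    rw [Finset.prod_congr rfl fun p hp => avff k p b b']
  -- the expansion
  have hexp : ∀ β ω, G β ω * (X β ω - l) ^ 2 =
      (∑ t ∈ range l, ∑ t' ∈ range l, G β ω * (w (β + Q * t) ω * w (β + Q * t') ω)) -
      2 * l * (∑ t ∈ range l, G β ω * w (β + Q * t) ω) + (l : ℝ) ^ 2 * G β ω := by
    intro β ω
    have e1 : ∑ t ∈ range l, ∑ t' ∈ range l, G β ω * (w (β + Q * t) ω * w (β + Q * t') ω) =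
        G β ω * (X β ω * X β ω) := by
      rw [hX]
      dsimp only
      rw [Finset.sum_mul_sum, Finset.mul_sum]
      refine Finset.sum_congr rfl fun t _ => ?_
      rw [Finset.mul_sum]
    have e2 : ∑ t ∈ range l, G β ω * w (β + Q * t) ω = G β ω * X β ω := by
      rw [hX]
      dsimp only
      rw [Finset.mul_sum]
    rw [e1, e2]
    ring
  have J1 : ∀ β, Integrable (fun ω => ∑ t ∈ range l, ∑ t' ∈ range l,
      G β ω * (w (β + Q * t) ω * w (β + Q * t') ω)) μ := fun β =>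
    integrable_finsetSum _ fun t _ => integrable_finsetSum _ fun t' _ => (I2 β _ _).1
  have J2 : ∀ β, Integrable (fun ω => 2 * (l : ℝ) * (∑ t ∈ range l, G β ω * w (β + Q * t) ω)) μ :=
    fun β => (integrable_finsetSum _ fun t _ => (I1 β _).1).const_mul _
  have J3 : ∀ β, Integrable (fun ω => (l : ℝ) ^ 2 * G β ω) μ := fun β => (I0 β).1.const_mul _
  have J12 : ∀ β, Integrable (fun ω => (∑ t ∈ range l, ∑ t' ∈ range l,
      G β ω * (w (β + Q * t) ω * w (β + Q * t') ω)) -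
      2 * (l : ℝ) * (∑ t ∈ range l, G β ω * w (β + Q * t) ω)) μ := fun β => (J1 β).sub (J2 β)
  have hint : ∀ β, Integrable (fun ω => G β ω * (X β ω - l) ^ 2) μ := by
    intro β
    simp_rw [hexp β]
    exact (J12 β).add (J3 β)
  have hval : ∀ β ∈ Icc 1 Q, ∫ ω, G β ω * (X β ω - l) ^ 2 ∂μ ≤ m β * (V * (l : ℝ) ^ 2) := by
    intro β hβ
    simp_rw [hexp β]
    rw [integral_add (J12 β) (J3 β), integral_sub (J1 β) (J2 β), integral_const_mul,
      integral_const_mul, (I0 β).2,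
      integral_finsetSum _ (fun t _ => integrable_finsetSum _ fun t' _ => (I2 β _ _).1),
      integral_finsetSum _ (fun t _ => (I1 β _).1)]
    have e1 : ∀ t, ∫ ω, ∑ t' ∈ range l, G β ω * (w (β + Q * t) ω * w (β + Q * t') ω) ∂μ =
        ∑ t' ∈ range l, m β * ∏ p ∈ P, ff k p (β + Q * t) (β + Q * t') := by
      intro t
      rw [integral_finsetSum _ (fun t' _ => (I2 β _ _).1)]
      exact Finset.sum_congr rfl fun t' _ => (I2 β _ _).2
    simp_rw [e1, (I1 β _).2, ← Finset.mul_sum]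
    rw [Finset.sum_const, card_range, nsmul_eq_mul]
    have h2 := mul_le_mul_of_nonneg_left (hV β hβ) (hm0 β)
    nlinarith
  -- sum of the masses
  have hsum : ∑ β ∈ Icc 1 Q, m β ≤ 1 := by
    have e1 : ∑ β ∈ Icc 1 Q, m β = ∫ ω, ∑ β ∈ Icc 1 Q, G β ω ∂μ := by
      rw [integral_finsetSum _ fun β _ => (I0 β).1]
      exact Finset.sum_congr rfl fun β _ => (I0 β).2.symm
    rw [e1]
    have hle : ∀ ω, ∑ β ∈ Icc 1 Q, G β ω ≤ 1 := by
      intro ω
      by_cases hex : ∃ β ∈ Icc 1 Q, G β ω ≠ 0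
      · obtain ⟨β, hβ, hβ0⟩ := hex
        have hphi : ∀ β', G β' ω ≠ 0 → ∀ p ∈ P0, phi p (a p ω) β' := by
          intro β' h' p hp
          rw [hG] at h'
          exact phn _ _ _ ((Finset.prod_ne_zero_iff.1 h') p hp)
        rw [Finset.sum_eq_single β]
        · rw [hG]
          exact Finset.prod_le_one (fun p _ => (ph01 _ _ _).1) fun p _ => (ph01 _ _ _).2
        · intro β' hβ' hne
          by_contra hcon
          exact hne (surv_unique P0 hp0 (fun p => a p ω) (by rw [← hQ]; exact hβ')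
            (by rw [← hQ]; exact hβ) (hphi β' hcon) (hphi β hβ0))
        · intro hh
          exact absurd hβ hh
      · push Not at hex
        rw [Finset.sum_eq_zero hex]
        exact zero_le_one
    calc ∫ ω, ∑ β ∈ Icc 1 Q, G β ω ∂μ ≤ ∫ _ω, (1 : ℝ) ∂μ :=
          integral_mono (integrable_finsetSum _ fun β _ => (I0 β).1) (integrable_const 1) hle
      _ = 1 := by simp
  -- the event
  have hsub : {ω | ∀ b ∈ Icc 1 (Q * l), ∃ p ∈ P0 ∪ P, W k p (a p ω) b = 0} ⊆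
      {ω | (l : ℝ) ^ 2 ≤ ∑ β ∈ Icc 1 Q, G β ω * (X β ω - l) ^ 2} := by
    intro ω hω
    obtain ⟨β, hβ, hβp⟩ := surv P0 hp0 (fun p => a p ω)
    rw [← hQ] at hβ
    have hG1 : G β ω = 1 := by
      rw [hG]
      exact Finset.prod_eq_one fun p hp => ph1 _ _ _ (hβp p hp)
    have hX0 : X β ω = 0 := by
      rw [hX]
      refine Finset.sum_eq_zero fun t ht => ?_
      rw [mem_range] at ht
      rw [Finset.mem_Icc] at hβ
      have hb : β + Q * t ∈ Icc 1 (Q * l) := by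
        rw [Finset.mem_Icc]
        refine ⟨by omega, ?_⟩
        calc β + Q * t ≤ Q + Q * t := by omega
          _ = Q * (t + 1) := by ring
          _ ≤ Q * l := Nat.mul_le_mul_left _ ht
      obtain ⟨p, hp, hp0'⟩ := hω _ hb
      rcases Finset.mem_union.1 hp with hp' | hp'
      · exfalso
        have hdvd : p ∣ Q := by rw [hQ]; exact Finset.dvd_prod_of_mem _ hp'
        have := surv_W (hP0 p hp').1 (hP0 p hp').2 hdvd (hβp p hp') k t
        rw [this] at hp0'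
        exact one_ne_zero hp0'
      · rw [hw]
        refine Finset.prod_eq_zero hp' ?_
        rw [hp0', zero_div]
    have h1 : G β ω * (X β ω - l) ^ 2 = (l : ℝ) ^ 2 := by
      rw [hG1, hX0]
      ring
    show (l : ℝ) ^ 2 ≤ ∑ β ∈ Icc 1 Q, G β ω * (X β ω - l) ^ 2
    rw [← h1]
    exact Finset.single_le_sum (f := fun β => G β ω * (X β ω - l) ^ 2)
      (fun β' _ => mul_nonneg (hG0 β' ω) (sq_nonneg _)) hβ
  have hmk := mul_meas_ge_le_integral_of_nonneg (μ := μ)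
    (f := fun ω => ∑ β ∈ Icc 1 Q, G β ω * (X β ω - l) ^ 2)
    (Filter.Eventually.of_forall fun ω =>
      Finset.sum_nonneg fun β _ => mul_nonneg (hG0 β ω) (sq_nonneg _))
    (integrable_finsetSum _ fun β _ => hint β) ((l : ℝ) ^ 2)
  rw [integral_finsetSum _ fun β _ => hint β] at hmk
  have h3 : ∑ β ∈ Icc 1 Q, ∫ ω, G β ω * (X β ω - l) ^ 2 ∂μ ≤ V * (l : ℝ) ^ 2 := by
    calc ∑ β ∈ Icc 1 Q, ∫ ω, G β ω * (X β ω - l) ^ 2 ∂μ
        ≤ ∑ β ∈ Icc 1 Q, m β * (V * (l : ℝ) ^ 2) := Finset.sum_le_sum hval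
      _ = (∑ β ∈ Icc 1 Q, m β) * (V * (l : ℝ) ^ 2) := by rw [Finset.sum_mul]
      _ ≤ 1 * (V * (l : ℝ) ^ 2) := mul_le_mul_of_nonneg_right hsum (by positivity)
      _ = V * (l : ℝ) ^ 2 := one_mul _
  have h4 := measureReal_mono (μ := μ) hsub
  have h5 : (l : ℝ) ^ 2 * μ.real {ω | (l : ℝ) ^ 2 ≤ ∑ β ∈ Icc 1 Q, G β ω * (X β ω - l) ^ 2} ≤
      (l : ℝ) ^ 2 * V := by
    have := hmk.trans h3
    linarith
  exact h4.trans (le_of_mul_le_mul_left h5 (by positivity))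

end Pool.Agent.RSL
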