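import Pool.Agent.RSL.NumB
import Pool.Agent.RSL.NumC
import Pool.Agent.RSL.Comb
import Pool.Agent.RSL.SM

/-!
# RSL / LowP: with high probability some `b ≤ X/2` survives

`low_sum`: `comb` with `k = kk`, `z = zz`, `w = ww`, `D = DD`, `Q = QQ`, `l = ll`, `N = X`, `P = PP ε X`, `σ = s/log L` (`s` from `num_tail`),
and `num_pair`, `num_AA`, `num_tail`, `num_err`, `num_diag`. With `L = log X` and `l = ll`:
the sum is at most `(1 + 1/L) (1 + C/(log L)²) (l² + l²/L + l²/L) + l²/L ≤ (1 + C'/(log L)²) l²` for large `X` (`1/L ≤ 1/(log L)²`).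
Hypotheses of `comb`: the elements of `PP` are primes `> zz`, so coprime to `QQ` (product of primes `≤ zz`); `num_basic`, `num_box`, `num_DD`.

`low_prob`: `sm` with `P0 = oddP (zz ε X)`, `P = PP ε X`, `V = C/(log L)²`. `QQ * ll ≤ X/2`, and every odd prime `p ≤ yy (NN ε X)` is in
`P0 ∪ P`, so the event of `low_prob` is contained in the event of `sm`.
-/

namespace Pool.Agent.RSL

open Finset Filter MeasureTheory ProbabilityTheory Pool.Agent.RSC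

variable {Ω : Type*} [MeasurableSpace Ω] {μ : Measure Ω} [IsProbabilityMeasure μ] {a : ℕ → Ω → ℕ}

theorem LowP_num {u v C l E A T R M : ℝ} (hu : 0 ≤ u) (huv : u ≤ v) (hv : v ≤ 1) (hC : 0 ≤ C)
    (hl : 0 ≤ l) (hE : E ≤ 1 + u) (hA0 : 0 ≤ A) (hA : A ≤ 1 + C * v)
    (hR : R ≤ l * u) (hT : T ≤ u) (hM : M ≤ l ^ 2 * u)
    (hE0 : 0 ≤ E) :
    E * (A * (l ^ 2 + l * R + l ^ 2 * T)) + M ≤ (1 + (6 + 6 * C) * v) * l ^ 2 := by
  have hl2 : 0 ≤ l ^ 2 := by positivity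
  have h1 : l ^ 2 + l * R + l ^ 2 * T ≤ l ^ 2 * (1 + 2 * u) := by nlinarith
  have hCv : 0 ≤ C * v := mul_nonneg hC (hu.trans huv)
  have h2 : A * (l ^ 2 + l * R + l ^ 2 * T) ≤ (1 + C * v) * (l ^ 2 * (1 + 2 * u)) := by
    refine (mul_le_mul_of_nonneg_left h1 hA0).trans ?_
    exact mul_le_mul_of_nonneg_right hA (by positivity)
  have h3 : E * (A * (l ^ 2 + l * R + l ^ 2 * T)) ≤
      (1 + u) * ((1 + C * v) * (l ^ 2 * (1 + 2 * u))) := by
    refine (mul_le_mul_of_nonneg_left h2 hE0).trans ?_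
    exact mul_le_mul_of_nonneg_right hE (by positivity)
  have h4 : (1 + u) * (1 + 2 * u) ≤ 1 + 5 * v := by nlinarith
  have h5 : (1 + 5 * v) * (1 + C * v) ≤ 1 + (5 + 6 * C) * v := by
    have h6 : C * v * v ≤ C * v * 1 := mul_le_mul_of_nonneg_left hv hCv
    nlinarith
  have h6 : (1 + u) * (1 + 2 * u) * (1 + C * v) ≤ 1 + (5 + 6 * C) * v :=
    (mul_le_mul_of_nonneg_right h4 (by positivity)).trans h5
  have h7 : (1 + u) * ((1 + C * v) * (l ^ 2 * (1 + 2 * u))) ≤ (1 + (5 + 6 * C) * v) * l ^ 2 := by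
    calc (1 + u) * ((1 + C * v) * (l ^ 2 * (1 + 2 * u)))
        = ((1 + u) * (1 + 2 * u) * (1 + C * v)) * l ^ 2 := by ring
      _ ≤ _ := mul_le_mul_of_nonneg_right h6 hl2
  have h8 : l ^ 2 * u ≤ l ^ 2 * v := mul_le_mul_of_nonneg_left huv hl2
  nlinarith

theorem LowP_logs : ∀ᶠ X : ℕ in atTop, 1 ≤ Real.log (Real.log X) ∧ 0 < Real.log X ∧
    1 / Real.log X ≤ 1 / Real.log (Real.log X) ^ 2 := by
  have t1 : Tendsto (fun X : ℕ => Real.log (X : ℝ)) atTop atTop :=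
    Real.tendsto_log_atTop.comp tendsto_natCast_atTop_atTop
  have t2 : Tendsto (fun X : ℕ => Real.log (Real.log (X : ℝ))) atTop atTop :=
    Real.tendsto_log_atTop.comp t1
  have h3 : ∀ᶠ L : ℝ in atTop, Real.log L ^ 2 ≤ L := by
    have h := (Real.isLittleO_pow_log_id_atTop (n := 2)).bound (show (0 : ℝ) < 1 by norm_num)
    filter_upwards [h, eventually_ge_atTop (0 : ℝ)] with L hL hL0
    simp only [id, one_mul, Real.norm_eq_abs, abs_pow, sq_abs] at hL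
    rwa [abs_of_nonneg hL0] at hL
  filter_upwards [t2.eventually_ge_atTop 1, t1.eventually_gt_atTop 0, t1.eventually h3] with X h1 h2 h4
  refine ⟨h1, h2, ?_⟩
  exact one_div_le_one_div_of_le (by positivity) h4

theorem LowP_AA_nonneg {k p : ℕ} : 0 ≤ AA k p := by
  have hW : ∀ a b : ℕ, 0 ≤ W k p a b := by
    intro a b
    unfold W
    split_ifs <;> norm_num
  have hU : ∀ b b' : ℕ, 0 ≤ U k p b b' := by
    intro b b'
    unfold U
    exact div_nonneg (Finset.sum_nonneg fun i _ => mul_nonneg (hW _ _) (hW _ _)) (Nat.cast_nonneg _)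
  unfold AA
  refine div_nonneg (Finset.sum_nonneg fun b _ => Finset.sum_nonneg fun b' _ => ?_) (by positivity)
  unfold ff S1
  exact div_nonneg (hU _ _) (mul_nonneg (hU _ _) (hU _ _))

theorem LowP_mem_oddP {y p : ℕ} : p ∈ oddP y ↔ p ≤ y ∧ p.Prime ∧ p ≠ 2 := by
  unfold oddP
  rw [Finset.mem_filter, Finset.mem_range, Nat.lt_succ_iff]

theorem LowP_QQ_pos (ε : ℝ) (X : ℕ) : 1 ≤ QQ ε X := by
  unfold QQ
  exact Nat.one_le_iff_ne_zero.2 (Finset.prod_ne_zero_iff.2 fun p hp =>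
    (LowP_mem_oddP.1 hp).2.1.ne_zero)

theorem LowP_PP {ε : ℝ} {X p : ℕ} (hp : p ∈ PP ε X) :
    p.Prime ∧ zz ε X < p ∧ Nat.Coprime (QQ ε X) p := by
  unfold PP at hp
  rw [Finset.mem_filter] at hp
  have h1 := LowP_mem_oddP.1 hp.1
  refine ⟨h1.2.1, hp.2, ?_⟩
  unfold QQ
  refine Nat.Coprime.prod_left fun q hq => ?_
  have h2 := LowP_mem_oddP.1 hq
  exact (Nat.coprime_primes h2.2.1 h1.2.1).2 (by omega)

theorem low_sum {ε : ℝ} (h0 : 0 < ε) (h1 : ε < 1) : ∃ C : ℝ, 0 < C ∧ ∀ᶠ X : ℕ in atTop,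
    ∀ β ∈ Icc 1 (QQ ε X), ∑ t ∈ range (ll ε X), ∑ t' ∈ range (ll ε X),
      ∏ p ∈ PP ε X, ff (kk ε X) p (β + QQ ε X * t) (β + QQ ε X * t') ≤
      (1 + C / Real.log (Real.log X) ^ 2) * (ll ε X : ℝ) ^ 2 := by
  obtain ⟨C, hC, hAA⟩ := num_AA h0 h1
  obtain ⟨s, hs, htail⟩ := num_tail h0 h1
  refine ⟨6 + 6 * C, by positivity, ?_⟩
  filter_upwards [hAA, htail, num_basic h0 h1, num_DD h0 h1, num_err h0 h1, num_pair h0 h1,
    num_diag h0 h1, LowP_logs] with X hA hT hb hD herr hpair hdiag hlog β hβ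
  obtain ⟨hk, hz, h8, -, hzw, -, hX, hDD⟩ := hb
  obtain ⟨hl1, hl2, hl3⟩ := hlog
  have hσ : 0 ≤ s / Real.log (Real.log X) := div_nonneg hs.le (by linarith)
  have key := comb (k := kk ε X) (z := zz ε X) (w := ww X) (D := DD ε X) (Q := QQ ε X) (β := β)
    (l := ll ε X) (N := X) hk hz (by omega) (PP ε X) (fun p hp => LowP_PP hp) (LowP_QQ_pos ε X)
    (by omega) (fun t ht => (num_box hβ ht).trans (Nat.div_le_self _ _)) hDD hD hσ
  refine key.trans ?_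
  have hv0 : 1 / Real.log (Real.log X) ^ 2 ≤ 1 := by
    rw [div_le_one (by positivity)]
    nlinarith
  have hA0 : 0 ≤ ∏ p ∈ (PP ε X).filter (fun p => p ≤ ww X), AA (kk ε X) p :=
    Finset.prod_nonneg fun p _ => LowP_AA_nonneg
  have fin := LowP_num (u := 1 / Real.log X) (v := 1 / Real.log (Real.log X) ^ 2) (C := C)
    (l := (ll ε X : ℝ)) (R := 2 * (DD ε X : ℝ) ^ 2)
    (T := 4 * (∏ p ∈ (PP ε X).filter (fun p => p ≤ ww X), (1 + 3 * (kk ε X : ℝ) / p)) *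
      ((DD ε X : ℝ) ^ (-(s / Real.log (Real.log X))) *
        ∏ p ∈ (PP ε X).filter (fun p => p ≤ ww X),
          (1 + 6 * (kk ε X : ℝ) ^ 2 / (p : ℝ) ^ 2 * (p : ℝ) ^ (s / Real.log (Real.log X)))))
    (M := (kk ε X : ℝ) ^ 2 * ll ε X * ∏ p ∈ PP ε X, (1 - (kk ε X : ℝ) / p)⁻¹)
    (by positivity) hl3 hv0 hC.le (Nat.cast_nonneg _) hpair hA0
    (by rw [mul_one_div]; exact hA) (by rw [mul_one_div]; exact herr) hT
    (by rw [mul_one_div]; exact hdiag) (Real.exp_pos _).le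
  rw [mul_one_div] at fin
  refine le_trans (le_of_eq ?_) fin
  ring

theorem low_prob (h : Unif μ a) {ε : ℝ} (h0 : 0 < ε) (h1 : ε < 1) :
    ∃ C : ℝ, 0 < C ∧ ∀ᶠ X : ℕ in atTop,
      μ.real {ω | ∀ b ∈ Icc 1 (X / 2), ∃ p ∈ oddP (yy (NN ε X)), W (kk ε X) p (a p ω) b = 0} ≤
        C / Real.log (Real.log X) ^ 2 := by
  obtain ⟨C, hC, hsum⟩ := low_sum h0 h1
  refine ⟨C, hC, ?_⟩
  filter_upwards [hsum, num_basic h0 h1, num_DD h0 h1] with X hS hb hD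
  obtain ⟨hk, hz, h8, -, hzw, -, hX, hDD⟩ := hb
  have hl : 1 ≤ ll ε X := by
    refine le_trans ?_ hD
    exact Nat.one_le_iff_ne_zero.2 (Nat.mul_ne_zero (by omega) (by omega))
  have key := sm h (kk ε X) (oddP (zz ε X)) (PP ε X) (fun p hp => (LowP_mem_oddP.1 hp).2)
    (fun p hp => ⟨(LowP_PP hp).1, hz.trans (LowP_PP hp).2.1.le⟩)
    (by
      rw [Finset.disjoint_left]
      intro p hp hp'
      have h3 := (LowP_mem_oddP.1 hp).1
      have h4 := (LowP_PP hp').2.1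
      omega)
    hl (V := C / Real.log (Real.log X) ^ 2) (by positivity) hS
  refine le_trans (measureReal_mono ?_ (measure_ne_top _ _)) key
  intro ω hω b hb
  rw [Finset.mem_Icc] at hb
  have hQl : (∏ p ∈ oddP (zz ε X), p) * ll ε X ≤ X / 2 := by
    change QQ ε X * ll ε X ≤ X / 2
    unfold ll
    rw [← Nat.div_div_eq_div_mul]
    exact Nat.mul_div_le _ _
  obtain ⟨p, hp, hW⟩ := hω b (Finset.mem_Icc.2 ⟨hb.1, hb.2.trans hQl⟩)
  refine ⟨p, ?_, hW⟩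
  rw [Finset.mem_union]
  by_cases hpz : p ≤ zz ε X
  · exact Or.inl (LowP_mem_oddP.2 ⟨hpz, (LowP_mem_oddP.1 hp).2⟩)
  · refine Or.inr ?_
    unfold PP
    exact Finset.mem_filter.2 ⟨hp, by omega⟩

end Pool.Agent.RSL
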