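import Pool.Agent.RSL.UpA

/-!
# RSL / UpP: first moment, upper bound for the length

`L = log n`, `K = KK ε n ≥ (1+ε) L/log L`, `b = (n+1)/2` (`n` odd).

`up_prob`: `∫ ∏_{p good} W K p (a p) b = ∏ S1 K p b = ∏ (1 - K/p) ≤ exp (-K ∑ 1/p) ≤ exp (-K (log L - log log L - C)) ≤ exp (-(1 + ε/2) L) = n^(-(1+ε/2))`
for large `n` (`surv_le`, `up_sum`, `expect_prod`), because `K (log L - log log L - C) ≥ (1+ε) L (1 - (log log L + C)/log L)`.
The event is contained in `{∏_{p good} W = 1}` (Markov).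

`up_ae`: Borel-Cantelli (`∑ n^(-(1+ε/2)) < ∞`); `W` is `0` or `1`.
-/

namespace Pool.Agent.RSL

open Finset Filter MeasureTheory ProbabilityTheory Pool.Agent.RSC

variable {Ω : Type*} [MeasurableSpace Ω] {μ : Measure Ω} [IsProbabilityMeasure μ] {a : ℕ → Ω → ℕ}

private theorem UpP_W (k p c b : ℕ) : W k p c b = 0 ∨ W k p c b = 1 := by
  unfold W
  split_ifs
  · exact Or.inr rfl
  · exact Or.inl rfl

private theorem UpP_S1 (k p b : ℕ) : (∑ j ∈ range p, W k p j b) / (p : ℝ) = S1 k p b := by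
  unfold S1 U
  congr 1
  refine Finset.sum_congr rfl fun j _ => ?_
  rcases UpP_W k p j b with h | h <;> rw [h] <;> norm_num

/-- analytic part: the exponent -/
private theorem UpP_exp {ε : ℝ} (h0 : 0 < ε) (h1 : ε < 1) (C : ℝ) :
    ∀ᶠ n : ℕ in atTop, (1 + ε / 2) * Real.log n ≤
      (KK ε n : ℝ) * (Real.log (Real.log n) - Real.log (Real.log (Real.log n)) - C) := by
  have hL : Tendsto (fun n : ℕ => Real.log (n : ℝ)) atTop atTop :=
    Real.tendsto_log_atTop.comp tendsto_natCast_atTop_atTop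
  have hM : Tendsto (fun n : ℕ => Real.log (Real.log (n : ℝ))) atTop atTop :=
    Real.tendsto_log_atTop.comp hL
  -- log M ≤ δ M for large M
  have hlo : ∀ᶠ M : ℝ in atTop, Real.log M ≤ ε / 8 * M := by
    have h2 := Real.isLittleO_log_id_atTop.bound (show (0 : ℝ) < ε / 8 by positivity)
    filter_upwards [h2, eventually_ge_atTop (1 : ℝ)] with M hM1 hM2
    have h3 : (0 : ℝ) ≤ Real.log M := Real.log_nonneg hM2
    simp only [id, Real.norm_eq_abs] at hM1
    rw [abs_of_nonneg h3, abs_of_nonneg (by linarith)] at hM1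
    exact hM1
  have hC : ∀ᶠ M : ℝ in atTop, C ≤ ε / 8 * M := by
    filter_upwards [eventually_ge_atTop (C / (ε / 8))] with M hM1
    rw [div_le_iff₀ (by positivity)] at hM1
    linarith
  filter_upwards [hL.eventually_ge_atTop 1, hM.eventually_ge_atTop 1, hM.eventually hlo,
    hM.eventually hC] with n hn1 hn2 hn3 hn4
  set L := Real.log (n : ℝ) with hLdef
  set M := Real.log L with hMdef
  have hM0 : 0 < M := by linarith
  have hL0 : 0 < L := by linarith
  have hK : (1 + ε) * L / M ≤ (KK ε n : ℝ) := Nat.le_ceil _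
  have hb : (1 - ε / 4) * M ≤ M - Real.log M - C := by linarith
  have hb0 : 0 ≤ (1 - ε / 4) * M := by
    have : (0 : ℝ) < 1 - ε / 4 := by linarith
    positivity
  have hK0 : (0 : ℝ) ≤ (1 + ε) * L / M := by positivity
  calc (1 + ε / 2) * L ≤ ((1 + ε) * (1 - ε / 4)) * L := by
        refine mul_le_mul_of_nonneg_right ?_ hL0.le
        nlinarith
    _ = ((1 + ε) * L / M) * ((1 - ε / 4) * M) := by
        field_simp
    _ ≤ (KK ε n : ℝ) * (M - Real.log M - C) :=
        mul_le_mul hK hb hb0 (Nat.cast_nonneg _)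

theorem up_prob (h : Unif μ a) {ε : ℝ} (h0 : 0 < ε) (h1 : ε < 1) :
    ∀ᶠ n : ℕ in atTop, n % 2 = 1 →
      μ.real {ω | ∀ p ∈ oddP (yy n), W (KK ε n) p (a p ω) ((n + 1) / 2) = 1} ≤
        (n : ℝ) ^ (-(1 + ε / 2)) := by
  obtain ⟨C, hC⟩ := up_sum h0 h1
  filter_upwards [hC, UpP_exp h0 h1 C, eventually_ge_atTop 1] with n hn1 hn2 hn3 hodd
  have hs := hn1 hodd
  set K := KK ε n with hK
  set b := (n + 1) / 2 with hb
  set G := (oddP (yy n)).filter (fun p => K < p ∧ ¬ p ∣ b ∧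
        ∀ j ∈ Ico 1 K, ¬ p ∣ 2 ^ j - 1) with hG
  have hGP : ∀ p ∈ G, p ∈ oddP (yy n) := fun p hp => (Finset.mem_filter.mp hp).1
  have hGp : ∀ p ∈ G, p.Prime ∧ p ≠ 2 := fun p hp =>
    (Finset.mem_filter.mp (hGP p hp)).2
  have hGs : ∀ p ∈ G, S1 K p b = 1 - (K : ℝ) / p := by
    intro p hp
    have h2 := (Finset.mem_filter.mp hp).2
    exact surv_le (hGp p hp).1 (hGp p hp).2 h2.1 h2.2.1
      (fun j hj1 hj2 => h2.2.2 j (Finset.mem_Ico.mpr ⟨hj1, hj2⟩))
  have hW1 : ∀ p j, |W K p j b| ≤ 1 := by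
    intro p j
    rcases UpP_W K p j b with h | h <;> rw [h] <;> norm_num
  -- first moment
  have hexp := expect_prod h G (fun p hp => (hGp p hp).1) (fun p j => W K p j b) (B := 1) hW1
  have hint := integrable_prod h G (fun p hp => (hGp p hp).1) (fun p j => W K p j b) (B := 1) hW1
  have hprod : ∫ ω, ∏ p ∈ G, W K p (a p ω) b ∂μ = ∏ p ∈ G, (1 - (K : ℝ) / p) := by
    rw [hexp]
    refine Finset.prod_congr rfl fun p hp => ?_
    rw [UpP_S1, hGs p hp]
  -- Markov
  have hmark : μ.real {ω | ∀ p ∈ oddP (yy n), W K p (a p ω) b = 1} ≤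
      ∫ ω, ∏ p ∈ G, W K p (a p ω) b ∂μ := by
    have hsub : {ω | ∀ p ∈ oddP (yy n), W K p (a p ω) b = 1} ⊆
        {ω | 1 ≤ ∏ p ∈ G, W K p (a p ω) b} := by
      intro ω hω
      have h2 : ∏ p ∈ G, W K p (a p ω) b = 1 :=
        Finset.prod_eq_one fun p hp => hω p (hGP p hp)
      exact h2.ge
    have hm := mul_meas_ge_le_integral_of_nonneg (μ := μ)
      (f := fun ω => ∏ p ∈ G, W K p (a p ω) b)
      (Filter.Eventually.of_forall fun ω => Finset.prod_nonneg fun p _ => (Prob_W01 _ _ _ _).1)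
      hint 1
    rw [one_mul] at hm
    exact (measureReal_mono hsub).trans hm
  refine hmark.trans ?_
  rw [hprod]
  have hle : ∏ p ∈ G, (1 - (K : ℝ) / p) ≤ ∏ p ∈ G, Real.exp (-((K : ℝ) * (1 / (p : ℝ)))) := by
    refine Finset.prod_le_prod ?_ ?_
    · intro p hp
      have h2 := (Finset.mem_filter.mp hp).2.1
      have h3 : (0 : ℝ) < p := by exact_mod_cast (hGp p hp).1.pos
      have h4 : (K : ℝ) < p := by exact_mod_cast h2
      have h5 : (K : ℝ) / p ≤ 1 := by
        rw [div_le_one h3]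
        exact h4.le
      linarith
    · intro p hp
      have h3 := Real.add_one_le_exp (-((K : ℝ) * (1 / (p : ℝ))))
      have h4 : (K : ℝ) / p = (K : ℝ) * (1 / (p : ℝ)) := by ring
      rw [h4]
      linarith
  refine hle.trans ?_
  rw [← Real.exp_sum, Finset.sum_neg_distrib, ← Finset.mul_sum]
  have hn0 : (0 : ℝ) < n := by exact_mod_cast hn3
  rw [Real.rpow_def_of_pos hn0]
  refine Real.exp_le_exp.mpr ?_
  have h5 : (K : ℝ) * (Real.log (Real.log n) - Real.log (Real.log (Real.log n)) - C) ≤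
      (K : ℝ) * ∑ p ∈ G, 1 / (p : ℝ) := mul_le_mul_of_nonneg_left hs (Nat.cast_nonneg _)
  linarith

theorem up_ae (h : Unif μ a) {ε : ℝ} (h0 : 0 < ε) (h1 : ε < 1) :
    ∀ᵐ ω ∂μ, ∀ᶠ n : ℕ in atTop, n % 2 = 1 →
      ∃ p ∈ oddP (yy n), W (KK ε n) p (a p ω) ((n + 1) / 2) = 0 := by
  obtain ⟨N, hN⟩ := eventually_atTop.mp (up_prob h h0 h1)
  set B : ℕ → Set Ω := fun n => {ω | N ≤ n ∧ n % 2 = 1 ∧
    ∀ p ∈ oddP (yy n), W (KK ε n) p (a p ω) ((n + 1) / 2) = 1} with hB
  have hBle : ∀ n, μ (B n) ≤ ENNReal.ofReal ((n : ℝ) ^ (-(1 + ε / 2))) := by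
    intro n
    by_cases hn : N ≤ n ∧ n % 2 = 1
    · have h2 : B n ⊆ {ω | ∀ p ∈ oddP (yy n), W (KK ε n) p (a p ω) ((n + 1) / 2) = 1} :=
        fun ω hω => hω.2.2
      refine (measure_mono h2).trans ?_
      have h3 := hN n hn.1 hn.2
      rw [← ofReal_measureReal]
      exact ENNReal.ofReal_le_ofReal h3
    · have h2 : B n = ∅ := by
        ext ω
        simp only [hB, Set.mem_ofPred_eq, Set.mem_empty_iff_false, iff_false]
        rintro ⟨h3, h4, _⟩
        exact hn ⟨h3, h4⟩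
      rw [h2, measure_empty]
      exact zero_le
  have hsum : Summable (fun n : ℕ => (n : ℝ) ^ (-(1 + ε / 2))) :=
    Real.summable_nat_rpow.mpr (by linarith)
  have hfin : ∑' n, μ (B n) ≠ ⊤ := by
    refine ne_top_of_le_ne_top ?_ (ENNReal.tsum_le_tsum hBle)
    rw [← ENNReal.ofReal_tsum_of_nonneg (fun n => Real.rpow_nonneg (Nat.cast_nonneg n) _) hsum]
    exact ENNReal.ofReal_ne_top
  filter_upwards [ae_eventually_notMem hfin] with ω hω
  filter_upwards [hω, eventually_ge_atTop N] with n hn1 hn2 hodd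
  by_contra hc
  push Not at hc
  refine hn1 ⟨hn2, hodd, fun p hp => ?_⟩
  rcases UpP_W (KK ε n) p (a p ω) ((n + 1) / 2) with h3 | h3
  · exact absurd h3 (hc p hp)
  · exact h3

end Pool.Agent.RSL
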