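import Pool.Agent.RSL.BCL
import Pool.Agent.RSL.UpP
import Pool.Agent.RSL.FinM

/-!
# RSL / Main: the lengths of the Cunningham chains in the random sieve model
-/

namespace Pool.Agent.RSL

open Finset Filter MeasureTheory ProbabilityTheory Pool.Agent.RSC

variable {Ω : Type*} [MeasurableSpace Ω] {μ : Measure Ω} [IsProbabilityMeasure μ] {a : ℕ → Ω → ℕ}

theorem main_one (h : Unif μ a) {ε : ℝ} (h0 : 0 < ε) (h1 : ε < 1) :
    ∀ᵐ ω ∂μ, ∀ᶠ x : ℕ in atTop,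
      (∀ k : ℕ, 1 ≤ k → (k : ℝ) ≤ (1 - ε) * (Real.log x / Real.log (Real.log x)) →
        ∃ n, 1 ≤ n ∧ n ≤ x ∧ (∀ i < k, ch i n ∈ RS (fun p => a p ω)) ∧
          ch k n ∉ RS (fun p => a p ω)) ∧
      (∀ n ≤ x, ∀ k : ℕ, (∀ i < k, ch i n ∈ RS (fun p => a p ω)) →
        (k : ℝ) ≤ (1 + ε) * (Real.log x / Real.log (Real.log x))) := by
  have hd0 : 0 < ε / 10 := by positivity
  have hd1 : ε / 10 < 1 := by linarith
  filter_upwards [a_lt h, low_ae h hd0 hd1, up_ae h hd0 hd1, up_ae h h0 h1] with ω ha hL hU hU'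
  have e1 := chain_of_low hd0 hd1 (fun p => a p ω) ha hL
  have e2 := short_of_up hd0 hd1 (fun p => a p ω) ha hU
  have e3 := short_of_up h0 h1 (fun p => a p ω) ha hU'
  filter_upwards [lower h0 h1 (fun p => a p ω) e1 e2, upper h0 h1 (fun p => a p ω) e3] with x hx hx'
  exact ⟨hx, hx'⟩

/-- almost surely, for all `ε` and all large `x` -/
theorem main (h : Unif μ a) : ∀ᵐ ω ∂μ, ∀ ε : ℝ, 0 < ε → ε < 1 → ∀ᶠ x : ℕ in atTop,
      (∀ k : ℕ, 1 ≤ k → (k : ℝ) ≤ (1 - ε) * (Real.log x / Real.log (Real.log x)) →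
        ∃ n, 1 ≤ n ∧ n ≤ x ∧ (∀ i < k, ch i n ∈ RS (fun p => a p ω)) ∧
          ch k n ∉ RS (fun p => a p ω)) ∧
      (∀ n ≤ x, ∀ k : ℕ, (∀ i < k, ch i n ∈ RS (fun p => a p ω)) →
        (k : ℝ) ≤ (1 + ε) * (Real.log x / Real.log (Real.log x))) := by
  have h1 : ∀ m : ℕ, ∀ᵐ ω ∂μ, ∀ᶠ x : ℕ in atTop,
      (∀ k : ℕ, 1 ≤ k → (k : ℝ) ≤ (1 - 1 / ((m : ℝ) + 2)) *
          (Real.log x / Real.log (Real.log x)) →
        ∃ n, 1 ≤ n ∧ n ≤ x ∧ (∀ i < k, ch i n ∈ RS (fun p => a p ω)) ∧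
          ch k n ∉ RS (fun p => a p ω)) ∧
      (∀ n ≤ x, ∀ k : ℕ, (∀ i < k, ch i n ∈ RS (fun p => a p ω)) →
        (k : ℝ) ≤ (1 + 1 / ((m : ℝ) + 2)) * (Real.log x / Real.log (Real.log x))) := by
    intro m
    have hm : (0 : ℝ) ≤ m := Nat.cast_nonneg m
    refine main_one h (by positivity) ?_
    rw [div_lt_one (by positivity)]
    linarith
  filter_upwards [ae_all_iff.2 h1] with ω hω ε h0 _
  obtain ⟨m, hm⟩ := exists_nat_one_div_lt h0
  have hm2 : 1 / ((m : ℝ) + 2) ≤ ε := by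
    have hm0 : (0 : ℝ) ≤ m := Nat.cast_nonneg m
    have h2 : 1 / ((m : ℝ) + 2) ≤ 1 / ((m : ℝ) + 1) :=
      one_div_le_one_div_of_le (by positivity) (by linarith)
    linarith
  have hu : ∀ᶠ x : ℕ in atTop, 0 ≤ Real.log x / Real.log (Real.log x) := by
    filter_upwards [eventually_ge_atTop 3] with x hx
    have hx3 : (3 : ℝ) ≤ x := by exact_mod_cast hx
    have he : Real.exp 1 < 3 := lt_trans Real.exp_one_lt_d9 (by norm_num)
    have hl : 1 ≤ Real.log x := by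
      rw [Real.le_log_iff_exp_le (by linarith)]
      linarith
    exact div_nonneg (by linarith) (Real.log_nonneg hl)
  filter_upwards [hω m, hu] with x hx hux
  refine ⟨fun k hk hk2 => hx.1 k hk (hk2.trans ?_), fun n hn k hk => (hx.2 n hn k hk).trans ?_⟩
  · exact mul_le_mul_of_nonneg_right (by linarith) hux
  · exact mul_le_mul_of_nonneg_right (by linarith) hux

end Pool.Agent.RSL
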