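import Pool.Agent.RSL.LocX
import Pool.Agent.RSL.AvS
import Pool.Agent.RSL.DiagS

/-!
# RSL / Mid: the middle primes

For `p ∈ P1`: `ff = AA (1 + xx)` (`AA ≥ 1`); apply `avg2` to `P1` and the functions `t, t' ↦ xx k p (β + Q t) (β + Q t')`,
`Gm k p (β + Q t) (β + Q t')`, which are periodic modulo `p` in `t`, `t'` (`Q (t + p) = Q t + Q p`; iterate the period), with
`γ p = 3k/p ≤ 1`, `α p = 6k²/p²`; the sums over the residue classes are computed by `reindex` and `xx_sum`, `Gm_sum`.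
`∑∑ ∏ (1+xx) ≤ l² + error`; multiply by `∏ AA ≥ 0`. (`p > z ≥ 4k ≥ 4`, so `p ≠ 2`.)
-/

namespace Pool.Agent.RSL

open Finset Pool.Agent.RSC

private theorem mid_per {p Q β : ℕ} {G : ℕ → ℝ} (hG : ∀ b, G (b + p) = G b) (t : ℕ) :
    G (β + Q * (t + p)) = G (β + Q * t) := by
  have h1 : ∀ n b : ℕ, G (b + n * p) = G b := by
    intro n
    induction n with
    | zero => intro b; rw [Nat.zero_mul, Nat.add_zero]
    | succ n ih =>
      intro b
      rw [Nat.succ_mul, ← Nat.add_assoc, hG, ih]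
  rw [Nat.mul_add, ← Nat.add_assoc]
  exact h1 Q _

theorem mid {k z w D Q β l : ℕ} (hk : 1 ≤ k) (hz : 4 * k ≤ z) (P1 : Finset ℕ)
    (hP : ∀ p ∈ P1, p.Prime ∧ z < p ∧ p ≤ w ∧ Nat.Coprime Q p) (hD : 1 ≤ D) (hl : D * w ≤ l)
    {σ : ℝ} (hσ : 0 ≤ σ) :
    ∑ t ∈ range l, ∑ t' ∈ range l, ∏ p ∈ P1, ff k p (β + Q * t) (β + Q * t') ≤
      (∏ p ∈ P1, AA k p) * ((l : ℝ) ^ 2 + 2 * l * (D : ℝ) ^ 2 +
        4 * (l : ℝ) ^ 2 * (∏ p ∈ P1, (1 + 3 * (k : ℝ) / p)) *
        ((D : ℝ) ^ (-σ) * ∏ p ∈ P1, (1 + 6 * (k : ℝ) ^ 2 / (p : ℝ) ^ 2 * (p : ℝ) ^ σ))) := by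
  have h4 : ∀ p ∈ P1, 4 * k ≤ p := fun p hp => by
    have := (hP p hp).2.1
    omega
  have hp2 : ∀ p ∈ P1, p ≠ 2 := fun p hp => by
    have := h4 p hp
    omega
  have hpr : ∀ p ∈ P1, p.Prime := fun p hp => (hP p hp).1
  have hA : ∀ p ∈ P1, 1 ≤ AA k p := fun p hp => AA_ge (hpr p hp) (h4 p hp)
  have key := avg2 P1 hpr (fun p t t' => xx k p (β + Q * t) (β + Q * t'))
    (fun p t t' => Gm k p (β + Q * t) (β + Q * t')) (fun p => 3 * (k : ℝ) / p)
    (fun p => 6 * (k : ℝ) ^ 2 / (p : ℝ) ^ 2)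
    (fun p _ b b' => mid_per (G := fun y => xx k p y (β + Q * b')) (fun y => xx_per1 k p y _) b)
    (fun p _ b b' => mid_per (G := fun y => xx k p (β + Q * b) y) (fun y => xx_per2 k p _ y) b')
    (fun p hp => by
      have h := reindex (hpr p hp).pos (hP p hp).2.2.2 β (fun b b' => xx k p b b')
        (fun b b' => xx_per1 k p b b') (fun b b' => xx_per2 k p b b')
      exact h.trans (xx_sum (hpr p hp) (h4 p hp)))
    (fun p _ b b' => mid_per (G := fun y => Gm k p y (β + Q * b')) (fun y => Gm_per1 k p y _) b)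
    (fun p _ b b' => mid_per (G := fun y => Gm k p (β + Q * b) y) (fun y => Gm_per2 k p _ y) b')
    (fun p hp b b' => xx_abs (hpr p hp) (hp2 p hp) hk (h4 p hp) _ _)
    (fun p hp b b' => Gm_le (hpr p hp) (h4 p hp) _ _)
    (fun p hp => by
      have hp0 : (0 : ℝ) < p := by exact_mod_cast (hpr p hp).pos
      have h5 : 4 * (k : ℝ) ≤ p := by exact_mod_cast h4 p hp
      have hk0 : (0 : ℝ) ≤ k := Nat.cast_nonneg k
      show 3 * (k : ℝ) / p ≤ 1
      rw [div_le_one hp0]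
      linarith)
    (fun p _ => by positivity)
    (fun p hp => by
      have h := reindex (hpr p hp).pos (hP p hp).2.2.2 β (fun b b' => Gm k p b b')
        (fun b b' => Gm_per1 k p b b') (fun b b' => Gm_per2 k p b b')
      exact h.le.trans (Gm_sum (hpr p hp) (hp2 p hp) k))
    hD (fun p hp => (hP p hp).2.2.1) hl hσ
  have h6 : ∀ t t' : ℕ, ∏ p ∈ P1, ff k p (β + Q * t) (β + Q * t') =
      (∏ p ∈ P1, AA k p) * ∏ p ∈ P1, (1 + xx k p (β + Q * t) (β + Q * t')) := by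
    intro t t'
    rw [← Finset.prod_mul_distrib]
    refine Finset.prod_congr rfl fun p hp => ?_
    have h7 : AA k p ≠ 0 := (lt_of_lt_of_le one_pos (hA p hp)).ne'
    unfold xx
    rw [add_sub_cancel, mul_div_cancel₀ _ h7]
  simp only [h6, ← Finset.mul_sum]
  refine mul_le_mul_of_nonneg_left ?_ (Finset.prod_nonneg fun p hp => zero_le_one.trans (hA p hp))
  have h8 := (abs_le.1 key).2
  linarith

end Pool.Agent.RSL
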