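import Pool.Agent.RSL.Def

/-!
# RSL / NumA: the parameters, first part

`L = log X → ∞`, `0 < ε < 1`. `kk ≤ (1-ε) L/log L ≤ L / log L`, `zz ≥ ε L/16 - 1`, `ww ≤ L^5 + 1`, `DD ≥ exp (ε L/8) - 1`.

* `num_basic`: all are clear for large `X` (`(L/log L)/L → 0`, `L → ∞`).
* `num_QQ`: `QQ ε X ∣ primorial (zz ε X)`, `primorial n ≤ 4^n` (`primorial_le_four_pow`), so `QQ ≤ 4^zz ≤ exp (log 4 * ε L/16) ≤ exp (ε L/11)`
  since `log 4 < 16/11`.
* `num_box`: `β + Q t ≤ Q + Q (l - 1) = Q l ≤ X/2`.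
-/

namespace Pool.Agent.RSL

open Finset Filter Pool.Agent.RSC

theorem numA_L : Tendsto (fun X : ℕ => Real.log (X : ℝ)) atTop atTop :=
  Real.tendsto_log_atTop.comp tendsto_natCast_atTop_atTop

theorem numA_LL : Tendsto (fun X : ℕ => Real.log (Real.log (X : ℝ))) atTop atTop :=
  Real.tendsto_log_atTop.comp numA_L

theorem numA_little {c : ℝ} (hc : 0 < c) : ∀ᶠ X : ℕ in atTop,
    Real.log (Real.log (X : ℝ)) ≤ c * Real.log X := by
  have h := (Real.isLittleO_log_id_atTop.def hc)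
  have h2 := numA_L.eventually h
  filter_upwards [h2, numA_L.eventually_ge_atTop 1] with X hX h1
  simp only [id, Real.norm_eq_abs] at hX
  rw [abs_of_nonneg (by linarith : (0 : ℝ) ≤ Real.log X)] at hX
  exact (le_abs_self _).trans hX

theorem num_kk_le {ε : ℝ} (h0 : 0 < ε) (h1 : ε < 1) : ∀ᶠ X : ℕ in atTop,
    (kk ε X : ℝ) ≤ (1 - ε) * (Real.log X / Real.log (Real.log X)) := by
  filter_upwards [numA_L.eventually_ge_atTop 1] with X hX
  unfold kk
  have h2 : 0 ≤ Real.log (Real.log (X : ℝ)) := Real.log_nonneg hX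
  have h3 : 0 ≤ (1 - ε) * Real.log X / Real.log (Real.log X) := by
    apply div_nonneg _ h2
    apply mul_nonneg <;> linarith
  have h4 := Nat.floor_le h3
  rw [mul_div_assoc] at h4
  rw [mul_div_assoc]
  exact h4

theorem num_basic {ε : ℝ} (h0 : 0 < ε) (h1 : ε < 1) : ∀ᶠ X : ℕ in atTop,
    1 ≤ kk ε X ∧ 4 * kk ε X ≤ zz ε X ∧ 8 ≤ zz ε X ∧ ε * Real.log X / 17 ≤ zz ε X ∧
      zz ε X ≤ ww X ∧ ww X ≤ zz ε X ^ 16 ∧ 3 ≤ X ∧ 1 ≤ DD ε X := by
  have hε1 : 0 < 1 - ε := by linarith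
  filter_upwards [numA_L.eventually_ge_atTop 1, numA_little hε1, num_kk_le h0 h1,
    numA_LL.eventually_ge_atTop (64 / ε), numA_L.eventually_ge_atTop (272 / ε),
    numA_L.eventually_ge_atTop (2 * (17 / ε) ^ 16), eventually_ge_atTop 3] with X hL hlit hkk hLL hL2 hL3 hX3
  set L := Real.log (X : ℝ) with hLdef
  have hLpos : 0 < L := by linarith
  have hLLpos : 0 < Real.log L := lt_of_lt_of_le (by positivity) hLL
  have hεL : 272 ≤ ε * L := by
    rw [div_le_iff₀ h0] at hL2; linarith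
  have hzlow : ε * L / 16 - 1 < (zz ε X : ℝ) := by
    have := Nat.lt_floor_add_one (ε * L / 16)
    unfold zz
    rw [← hLdef]
    linarith
  have hzup : (zz ε X : ℝ) ≤ ε * L / 16 := by
    unfold zz
    rw [← hLdef]
    exact Nat.floor_le (by positivity)
  have hz17 : ε * L / 17 ≤ (zz ε X : ℝ) := by linarith
  have hwlow : L ^ 5 ≤ (ww X : ℝ) := by
    unfold ww
    rw [← hLdef]
    exact Nat.le_ceil _
  have hwup : (ww X : ℝ) ≤ L ^ 5 + 1 := by
    unfold ww
    rw [← hLdef]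
    exact (Nat.ceil_lt_add_one (by positivity)).le
  refine ⟨?_, ?_, ?_, hz17, ?_, ?_, hX3, ?_⟩
  · unfold kk
    rw [← hLdef]
    apply Nat.le_floor
    rw [Nat.cast_one, le_div_iff₀ hLLpos, one_mul]
    exact hlit
  · unfold zz
    rw [← hLdef]
    apply Nat.le_floor
    push_cast
    have h5 : L / Real.log L ≤ ε * L / 64 := by
      rw [div_le_iff₀ hLLpos]
      rw [div_le_iff₀ h0] at hLL
      have : 0 ≤ L * (Real.log L * ε - 64) := mul_nonneg hLpos.le (by linarith)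
      nlinarith
    have h6 : (1 - ε) * (L / Real.log L) ≤ L / Real.log L := by
      have : 0 ≤ L / Real.log L := by positivity
      nlinarith
    linarith
  · have : (8 : ℝ) ≤ (zz ε X : ℝ) := by linarith
    exact_mod_cast this
  · have h5 : ε * L / 16 ≤ L ^ 5 := by
      have h6 : L ≤ L ^ 5 := le_self_pow₀ hL (by norm_num)
      have h7 : ε * L ≤ L := by nlinarith
      linarith
    have : (zz ε X : ℝ) ≤ (ww X : ℝ) := by linarith
    exact_mod_cast this
  · have h5 : L ^ 5 + 1 ≤ (ε * L / 17) ^ 16 := by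
      have h6 : 1 ≤ L ^ 5 := one_le_pow₀ hL
      have h7 : (ε * L / 17) ^ 16 = (ε / 17) ^ 16 * L ^ 16 := by ring
      have h8 : L ≤ L ^ 11 := le_self_pow₀ hL (by norm_num)
      have h9 : 2 * (17 / ε) ^ 16 ≤ L ^ 11 := hL3.trans h8
      have h10 : (ε / 17) ^ 16 * (17 / ε) ^ 16 = 1 := by
        rw [← mul_pow]
        rw [show ε / 17 * (17 / ε) = 1 by field_simp]
        norm_num
      have h11 : 0 < (ε / 17) ^ 16 := by positivity
      have h12 : 2 ≤ (ε / 17) ^ 16 * L ^ 11 := by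
        calc (2 : ℝ) = (ε / 17) ^ 16 * (2 * (17 / ε) ^ 16) := by linarith [h10]
          _ ≤ _ := mul_le_mul_of_nonneg_left h9 h11.le
      have h13 : (ε / 17) ^ 16 * L ^ 16 = ((ε / 17) ^ 16 * L ^ 11) * L ^ 5 := by ring
      rw [h7, h13]
      nlinarith
    have h6 : (ε * L / 17) ^ 16 ≤ (zz ε X : ℝ) ^ 16 := pow_le_pow_left₀ (by positivity) hz17 16
    have : (ww X : ℝ) ≤ ((zz ε X ^ 16 : ℕ) : ℝ) := by
      push_cast
      linarith
    exact_mod_cast this
  · unfold DD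
    rw [← hLdef]
    apply Nat.le_floor
    rw [Nat.cast_one]
    exact Real.one_le_exp (by positivity)

theorem num_QQ {ε : ℝ} (h0 : 0 < ε) (h1 : ε < 1) : ∀ᶠ X : ℕ in atTop,
    (QQ ε X : ℝ) ≤ Real.exp (ε * Real.log X / 11) := by
  filter_upwards [numA_L.eventually_ge_atTop 1] with X hL
  set L := Real.log (X : ℝ) with hLdef
  have hLpos : 0 < L := by linarith
  have hzup : (zz ε X : ℝ) ≤ ε * L / 16 := by
    unfold zz
    rw [← hLdef]
    exact Nat.floor_le (by positivity)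
  have h1 : QQ ε X ≤ primorial (zz ε X) := by
    unfold QQ primorial
    apply Finset.prod_le_prod_of_subset_of_one_le'
    · intro p hp
      unfold oddP at hp
      simp only [Finset.mem_filter, Finset.mem_range] at hp ⊢
      exact ⟨hp.1, hp.2.1⟩
    · intro p hp _
      simp only [Finset.mem_filter] at hp
      exact hp.2.one_lt.le
  have h2 : QQ ε X ≤ 4 ^ (zz ε X) := h1.trans (primorial_le_four_pow _)
  have h3 : (QQ ε X : ℝ) ≤ (4 : ℝ) ^ (zz ε X) := by exact_mod_cast h2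
  refine h3.trans ?_
  rw [← Real.exp_log (show (0 : ℝ) < 4 ^ (zz ε X) by positivity)]
  apply Real.exp_le_exp.mpr
  rw [Real.log_pow]
  have h4 : Real.log 4 < 16 / 11 := by
    rw [show (4 : ℝ) = 2 ^ 2 by norm_num, Real.log_pow]
    have := Real.log_two_lt_d9
    push_cast
    linarith
  have h5 : 0 < Real.log 4 := Real.log_pos (by norm_num)
  have h6 : 0 ≤ ε * L := by positivity
  calc (zz ε X : ℝ) * Real.log 4 ≤ ε * L / 16 * Real.log 4 := mul_le_mul_of_nonneg_right hzup h5.le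
    _ ≤ ε * L / 16 * (16 / 11) := mul_le_mul_of_nonneg_left h4.le (by positivity)
    _ = ε * L / 11 := by ring

theorem num_box {ε : ℝ} {X β t : ℕ} (hβ : β ∈ Icc 1 (QQ ε X)) (ht : t < ll ε X) :
    β + QQ ε X * t ≤ X / 2 := by
  rw [Finset.mem_Icc] at hβ
  have h1 : QQ ε X * (X / (2 * QQ ε X)) ≤ X / 2 := by
    rw [← Nat.div_div_eq_div_mul]
    exact Nat.mul_div_le _ _
  unfold ll at ht
  have h2 : QQ ε X * (t + 1) ≤ QQ ε X * (X / (2 * QQ ε X)) := Nat.mul_le_mul_left _ ht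
  have h3 : QQ ε X * (t + 1) = QQ ε X * t + QQ ε X := by ring
  omega

end Pool.Agent.RSL
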