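import Pool.Agent.RSL.NumD
import Pool.Agent.RSL.Pmin

/-!
# RSL / NumB: the parameters, second part

`L = log X`, `k = kk ε X ≤ L/log L`, `z = zz ε X ≥ ε L/17`.

`num_pair`: `k² (k + log₂ X + 1) ≤ (L/log L)² (L + 2 L + 1) ≤ 4 L³` and `ww ≥ L^5`, so the exponent is at most `8/L² → 0`;
`exp y ≤ 1 + 2y` for `0 ≤ y ≤ 1`, so it is `≤ 1 + 16/L² ≤ 1 + 1/L`.

`num_diag`: `pmin` with `N = NN ε X` gives `∏ ≤ exp (k log log NN + k²/z)`. Here `log NN = L + k log 2 ≤ 2 L`, so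
`k log log NN ≤ (1-ε) (L/log L) (log L + log 2) ≤ (1-ε) L + L/log L` and `k²/z ≤ 17 L/(ε (log L)²)`. Both corrections are `o(L)`,
`ll ≥ exp ((1 - ε/8) L)` (`num_ll`), so `k² exp (k log log NN + k²/z) ≤ exp ((1 - ε/2) L) ≤ ll / L`.
-/

namespace Pool.Agent.RSL

open Finset Filter Pool.Agent.RSC

private theorem NumB_log_tendsto : Tendsto (fun X : ℕ => Real.log X) atTop atTop :=
  Real.tendsto_log_atTop.comp tendsto_natCast_atTop_atTop

private theorem NumB_loglog_tendsto : Tendsto (fun X : ℕ => Real.log (Real.log X)) atTop atTop :=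
  Real.tendsto_log_atTop.comp NumB_log_tendsto

private theorem NumB_exp_le {y : ℝ} (h0 : 0 ≤ y) (h1 : y ≤ 1 / 2) : Real.exp y ≤ 1 + 2 * y := by
  have e1 : 1 - y ≤ Real.exp (-y) := by
    have := Real.add_one_le_exp (-y)
    linarith
  have e2 : Real.exp y * Real.exp (-y) = 1 := by rw [← Real.exp_add]; simp
  have e3 : 0 < Real.exp y := Real.exp_pos y
  have e4 : Real.exp y * (1 - y) ≤ 1 := by
    calc Real.exp y * (1 - y) ≤ Real.exp y * Real.exp (-y) := mul_le_mul_of_nonneg_left e1 e3.le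
      _ = 1 := e2
  have e5 : 1 ≤ (1 + 2 * y) * (1 - y) := by nlinarith
  have e6 : Real.exp y * (1 - y) ≤ (1 + 2 * y) * (1 - y) := e4.trans e5
  exact le_of_mul_le_mul_right e6 (by linarith)

private theorem NumB_kk {ε L M : ℝ} {k : ℝ} (h0 : 0 < ε) (hL : 0 ≤ L) (hM : 1 ≤ M)
    (hk : k ≤ (1 - ε) * (L / M)) : k ≤ L := by
  have h1 : 0 ≤ L / M := div_nonneg hL (by linarith)
  have h2 : L / M ≤ L := div_le_self hL hM
  nlinarith

theorem num_pair {ε : ℝ} (h0 : 0 < ε) (h1 : ε < 1) : ∀ᶠ X : ℕ in atTop,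
    Real.exp (2 * ((kk ε X : ℝ) ^ 2 * (kk ε X + Nat.log 2 X + 1) / ww X)) ≤
      1 + 1 / Real.log X := by
  filter_upwards [num_kk_le h0 h1, NumB_log_tendsto.eventually_ge_atTop 16,
    NumB_loglog_tendsto.eventually_ge_atTop 1, eventually_ge_atTop 3] with X hk hL hM hX
  obtain ⟨L, hLd⟩ : ∃ L, L = Real.log X := ⟨_, rfl⟩
  rw [← hLd] at hk hL hM ⊢
  have hkL := NumB_kk h0 (by linarith) hM hk
  have hk0 : (0 : ℝ) ≤ kk ε X := Nat.cast_nonneg _
  have hlog2 : (Nat.log 2 X : ℝ) ≤ 2 * L := by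
    have e1 : (2 : ℝ) ^ (Nat.log 2 X) ≤ X := by
      exact_mod_cast Nat.pow_log_le_self 2 (by omega)
    have e2 := Real.log_le_log (by positivity) e1
    rw [Real.log_pow, ← hLd] at e2
    have e3 : (1 : ℝ) / 2 ≤ Real.log 2 := by
      have := Real.log_two_gt_d9
      linarith
    have e4 : (0 : ℝ) ≤ (Nat.log 2 X : ℝ) := Nat.cast_nonneg _
    nlinarith
  have hlog0 : (0 : ℝ) ≤ (Nat.log 2 X : ℝ) := Nat.cast_nonneg _
  have hw : L ^ 5 ≤ (ww X : ℝ) := by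
    unfold ww
    rw [← hLd]
    exact Nat.le_ceil _
  have hL5 : 0 < L ^ 5 := by positivity
  have hw0 : 0 < (ww X : ℝ) := hL5.trans_le hw
  have hnum : (kk ε X : ℝ) ^ 2 * (kk ε X + Nat.log 2 X + 1) ≤ 4 * L ^ 3 := by
    have e1 : (kk ε X : ℝ) ^ 2 ≤ L ^ 2 := pow_le_pow_left₀ hk0 hkL 2
    have e2 : (kk ε X : ℝ) + Nat.log 2 X + 1 ≤ 4 * L := by linarith
    calc (kk ε X : ℝ) ^ 2 * (kk ε X + Nat.log 2 X + 1) ≤ L ^ 2 * (4 * L) :=
          mul_le_mul e1 e2 (by positivity) (by positivity)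
      _ = 4 * L ^ 3 := by ring
  have hq : 2 * ((kk ε X : ℝ) ^ 2 * (kk ε X + Nat.log 2 X + 1) / ww X) ≤ 8 / L ^ 2 := by
    have e1 : (kk ε X : ℝ) ^ 2 * (kk ε X + Nat.log 2 X + 1) / ww X ≤ 4 / L ^ 2 := by
      rw [div_le_div_iff₀ hw0 (by positivity)]
      calc (kk ε X : ℝ) ^ 2 * (kk ε X + Nat.log 2 X + 1) * L ^ 2 ≤ 4 * L ^ 3 * L ^ 2 :=
            mul_le_mul_of_nonneg_right hnum (by positivity)
        _ = 4 * L ^ 5 := by ring
        _ ≤ 4 * (ww X : ℝ) := by linarith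
    have e2 : 8 / L ^ 2 = 2 * (4 / L ^ 2) := by ring
    rw [e2]
    linarith
  have hL2 : L ^ 2 ≥ 16 * L := by nlinarith
  have h8 : 8 / L ^ 2 ≤ 1 / 2 := by
    rw [div_le_iff₀ (by positivity)]
    nlinarith
  calc Real.exp (2 * ((kk ε X : ℝ) ^ 2 * (kk ε X + Nat.log 2 X + 1) / ww X))
      ≤ Real.exp (8 / L ^ 2) := Real.exp_le_exp.2 hq
    _ ≤ 1 + 2 * (8 / L ^ 2) := NumB_exp_le (by positivity) h8
    _ ≤ 1 + 1 / L := by
      have e1 : 2 * (8 / L ^ 2) = 16 / L ^ 2 := by ring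
      have e2 : 16 / L ^ 2 ≤ 1 / L := by
        rw [div_le_div_iff₀ (by positivity) (by linarith)]
        nlinarith
      linarith

theorem num_diag {ε : ℝ} (h0 : 0 < ε) (h1 : ε < 1) : ∀ᶠ X : ℕ in atTop,
    (kk ε X : ℝ) ^ 2 * ll ε X * ∏ p ∈ PP ε X, (1 - (kk ε X : ℝ) / p)⁻¹ ≤
      (ll ε X : ℝ) ^ 2 / Real.log X := by
  have hlo : ∀ᶠ X : ℕ in atTop, Real.log (Real.log X) ≤ (ε / 12) * Real.log X := by
    have e1 : ∀ᶠ y : ℝ in atTop, ‖Real.log y‖ ≤ (ε / 12) * ‖id y‖ :=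
      Real.isLittleO_log_id_atTop.def (by positivity)
    filter_upwards [NumB_log_tendsto.eventually e1, NumB_log_tendsto.eventually_ge_atTop 1]
      with X hX hX1
    have e2 : ‖id (Real.log X)‖ = Real.log X := by
      rw [id, Real.norm_eq_abs, abs_of_nonneg (by linarith)]
    rw [e2] at hX
    exact (le_abs_self _).trans hX
  filter_upwards [num_kk_le h0 h1, num_basic h0 h1, num_ll h0 h1, hlo,
    NumB_log_tendsto.eventually_ge_atTop 16,
    NumB_loglog_tendsto.eventually_ge_atTop (9 / ε)] with X hk hb hll hlo hL hM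
  obtain ⟨hk1, hkz, hz8, hzL, -, -, hX3, -⟩ := hb
  have hprod := pmin (k := kk ε X) (z := zz ε X) (N := NN ε X)
    (by
      unfold NN
      calc 3 ≤ X := hX3
        _ = 1 * X := (one_mul X).symm
        _ ≤ 2 ^ kk ε X * X := Nat.mul_le_mul_right X (Nat.one_le_two_pow)) (by omega) (by omega) (PP ε X)
    (by
      intro p hp
      unfold PP at hp
      rw [mem_filter] at hp
      obtain ⟨hp1, hp2⟩ := hp
      unfold oddP at hp1
      rw [mem_filter, mem_range] at hp1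
      exact ⟨hp1.2.1, hp2, by omega⟩)
  have hNN : Real.log (NN ε X) = Real.log X + kk ε X * Real.log 2 := by
    unfold NN
    have hX0 : (X : ℝ) ≠ 0 := by
      have : 0 < X := by omega
      exact_mod_cast this.ne'
    push_cast
    rw [Real.log_mul (by positivity) hX0, Real.log_pow]
    ring
  obtain ⟨L, hLd⟩ : ∃ L, L = Real.log X := ⟨_, rfl⟩
  rw [← hLd] at hk hll hlo hL hM hNN hzL ⊢
  obtain ⟨M, hMd⟩ : ∃ M, M = Real.log L := ⟨_, rfl⟩
  rw [← hMd] at hk hlo hM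
  have h9 : 9 ≤ 9 / ε := by
    rw [le_div_iff₀ h0]; nlinarith
  have hM9 : 9 ≤ M := h9.trans hM
  have hM0 : 0 < M := by linarith
  have hL0 : 0 < L := by linarith
  have hkL := NumB_kk h0 hL0.le (by linarith) hk
  have hk0 : (0 : ℝ) ≤ kk ε X := Nat.cast_nonneg _
  have hl2 : Real.log 2 ≤ 1 := by
    have := Real.log_two_lt_d9
    linarith
  have hl20 : 0 ≤ Real.log 2 := Real.log_nonneg (by norm_num)
  -- log log NN ≤ M + 1
  have hll2 : Real.log (Real.log (NN ε X)) ≤ M + 1 := by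
    rw [hNN]
    have e1 : L + kk ε X * Real.log 2 ≤ 2 * L := by nlinarith
    have e2 : 0 < L + kk ε X * Real.log 2 := by positivity
    have e3 := Real.log_le_log e2 e1
    rw [Real.log_mul (by norm_num) hL0.ne', ← hMd] at e3
    linarith
  have hkk : (kk ε X : ℝ) ≤ (1 - ε) * (L / M) := hk
  have hLM : 0 ≤ L / M := by positivity
  have hA : (kk ε X : ℝ) * Real.log (Real.log (NN ε X)) ≤ (1 - ε) * L + (ε / 4) * L := by
    have e1 : (kk ε X : ℝ) * Real.log (Real.log (NN ε X)) ≤ (kk ε X : ℝ) * (M + 1) :=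
      mul_le_mul_of_nonneg_left hll2 hk0
    have e2 : (kk ε X : ℝ) * (M + 1) ≤ (1 - ε) * (L / M) * (M + 1) :=
      mul_le_mul_of_nonneg_right hkk (by linarith)
    have e3 : (1 - ε) * (L / M) * (M + 1) = (1 - ε) * L + (1 - ε) * (L / M) := by
      field_simp
    have e4 : L / M ≤ (ε / 4) * L := by
      rw [div_le_iff₀ hM0]
      have e5 : 1 ≤ (ε / 4) * M := by
        have : 9 ≤ M * ε := by rwa [div_le_iff₀ h0] at hM
        linarith
      nlinarith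
    have e6 : (1 - ε) * (L / M) ≤ L / M := by nlinarith
    linarith
  have hB : (kk ε X : ℝ) ^ 2 / zz ε X ≤ (ε / 4) * L := by
    have hz0 : (0 : ℝ) < zz ε X := by
      have : 0 < zz ε X := by omega
      exact_mod_cast this
    have e1 : (kk ε X : ℝ) ≤ L / M := by nlinarith
    have e2 : (kk ε X : ℝ) ^ 2 ≤ (L / M) ^ 2 := pow_le_pow_left₀ hk0 e1 2
    rw [div_le_iff₀ hz0]
    have e3 : (L / M) ^ 2 ≤ (ε / 4) * L * (ε * L / 17) := by
      rw [div_pow, div_le_iff₀ (by positivity)]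
      have e5 : 9 ≤ M * ε := by rwa [div_le_iff₀ h0] at hM
      have e6 : (81 : ℝ) ≤ (M * ε) ^ 2 := by nlinarith
      have e7 : (ε / 4) * L * (ε * L / 17) * M ^ 2 = L ^ 2 * ((M * ε) ^ 2 / 68) := by ring
      rw [e7]
      have e8 : (1 : ℝ) ≤ (M * ε) ^ 2 / 68 := by linarith
      nlinarith [sq_nonneg L]
    calc (kk ε X : ℝ) ^ 2 ≤ (L / M) ^ 2 := e2
      _ ≤ (ε / 4) * L * (ε * L / 17) := e3
      _ ≤ (ε / 4) * L * zz ε X := mul_le_mul_of_nonneg_left hzL (by positivity)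
  have hC : L ^ 3 ≤ Real.exp ((ε / 4) * L) := by
    have e1 : L ^ 3 = Real.exp (3 * M) := by
      have : Real.exp (3 * M) = Real.exp M ^ 3 := by
        rw [← Real.exp_nat_mul]; norm_num
      rw [this, hMd, Real.exp_log hL0]
    rw [e1]
    exact Real.exp_le_exp.2 (by linarith)
  have hll0 : 0 < (ll ε X : ℝ) := (Real.exp_pos _).trans_le hll
  have hE : Real.exp (kk ε X * Real.log (Real.log (NN ε X)) + (kk ε X : ℝ) ^ 2 / zz ε X) ≤
      Real.exp ((1 - ε / 2) * L) := Real.exp_le_exp.2 (by linarith)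
  have hmain : (kk ε X : ℝ) ^ 2 * (∏ p ∈ PP ε X, (1 - (kk ε X : ℝ) / p)⁻¹) * L ≤ ll ε X := by
    have e1 : (kk ε X : ℝ) ^ 2 ≤ L ^ 2 := pow_le_pow_left₀ hk0 hkL 2
    calc (kk ε X : ℝ) ^ 2 * (∏ p ∈ PP ε X, (1 - (kk ε X : ℝ) / p)⁻¹) * L
        ≤ (kk ε X : ℝ) ^ 2 * Real.exp ((1 - ε / 2) * L) * L :=
          mul_le_mul_of_nonneg_right
            (mul_le_mul_of_nonneg_left (hprod.trans hE) (by positivity)) hL0.le
      _ ≤ L ^ 2 * Real.exp ((1 - ε / 2) * L) * L :=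
          mul_le_mul_of_nonneg_right
            (mul_le_mul_of_nonneg_right e1 (Real.exp_pos _).le) hL0.le
      _ = L ^ 3 * Real.exp ((1 - ε / 2) * L) := by ring
      _ ≤ Real.exp ((ε / 4) * L) * Real.exp ((1 - ε / 2) * L) :=
          mul_le_mul_of_nonneg_right hC (Real.exp_pos _).le
      _ = Real.exp ((ε / 4) * L + (1 - ε / 2) * L) := (Real.exp_add _ _).symm
      _ ≤ Real.exp ((1 - ε / 8) * L) := Real.exp_le_exp.2 (by nlinarith)
      _ ≤ (ll ε X : ℝ) := hll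
  rw [le_div_iff₀ hL0]
  calc (kk ε X : ℝ) ^ 2 * ll ε X * (∏ p ∈ PP ε X, (1 - (kk ε X : ℝ) / p)⁻¹) * L
      = (ll ε X : ℝ) * ((kk ε X : ℝ) ^ 2 * (∏ p ∈ PP ε X, (1 - (kk ε X : ℝ) / p)⁻¹) * L) := by ring
    _ ≤ (ll ε X : ℝ) * (ll ε X : ℝ) := mul_le_mul_of_nonneg_left hmain hll0.le
    _ = (ll ε X : ℝ) ^ 2 := by ring

end Pool.Agent.RSL
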