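import Pool.Agent.RSL.NumA

/-!
# RSL / NumD: the parameters, growth of `ll`

`L = log X → ∞`, `0 < ε < 1`, `ww ≤ L^5 + 1`, `DD ≤ exp (ε L/8)`, `QQ ≤ exp (ε L/11)` (`num_QQ`).

* `num_ll`: `ll ≥ X/(2 QQ) - 1 ≥ exp (L - ε L/11)/2 - 1 ≥ exp ((1 - ε/8) L)` for large `X`.
* `num_DD`: `DD * ww ≤ exp (ε L/8) (L^5 + 1) ≤ exp ((1 - ε/8) L) ≤ ll`.
* `num_err`: `2 DD² ≤ 2 exp (ε L/4)` and `ll / L ≥ exp ((1 - ε/8) L)/L`.
-/

namespace Pool.Agent.RSL

open Finset Filter Pool.Agent.RSC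

theorem num_ll {ε : ℝ} (h0 : 0 < ε) (h1 : ε < 1) : ∀ᶠ X : ℕ in atTop,
    Real.exp ((1 - ε / 8) * Real.log X) ≤ ll ε X := by
  filter_upwards [num_QQ h0 h1, numA_L.eventually_ge_atTop (88 / ε), eventually_ge_atTop 1]
    with X hQ hL hX
  have hX0 : (0 : ℝ) < X := by exact_mod_cast hX
  set L := Real.log (X : ℝ) with hLdef
  have hexpL : Real.exp L = X := Real.exp_log hX0
  have hQ1 : 1 ≤ QQ ε X := by
    unfold QQ
    apply Nat.one_le_iff_ne_zero.mpr
    rw [Finset.prod_ne_zero_iff]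
    intro p hp
    unfold oddP at hp
    simp only [Finset.mem_filter] at hp
    exact hp.2.1.ne_zero
  have hQ0 : (0 : ℝ) < QQ ε X := by exact_mod_cast hQ1
  have hεL : 88 ≤ ε * L := by
    rw [div_le_iff₀ h0] at hL; linarith
  have hLpos : 0 < L := by
    by_contra h
    have : ε * L ≤ 0 := mul_nonpos_of_nonneg_of_nonpos h0.le (not_lt.mp h)
    linarith
  have hfl : (X : ℝ) / (2 * QQ ε X) - 1 ≤ (ll ε X : ℝ) := by
    unfold ll
    have h3 : ((X / (2 * QQ ε X) : ℕ) : ℝ) = ((⌊(X : ℝ) / ((2 * QQ ε X : ℕ) : ℝ)⌋₊ : ℕ) : ℝ) := by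
      rw [Nat.floor_div_eq_div]
    rw [h3]
    have h4 := Nat.lt_floor_add_one ((X : ℝ) / ((2 * QQ ε X : ℕ) : ℝ))
    push_cast at h4 ⊢
    linarith
  have hA : Real.exp (L - ε * L / 11) / 2 ≤ (X : ℝ) / (2 * QQ ε X) := by
    rw [Real.exp_sub, hexpL, div_div]
    apply div_le_div_of_nonneg_left hX0.le (by positivity)
    linarith
  have hB : 4 ≤ Real.exp (3 * (ε * L) / 88) := by
    have := Real.add_one_le_exp (3 * (ε * L) / 88)
    linarith
  have hC : Real.exp (L - ε * L / 11) = Real.exp ((1 - ε / 8) * L) * Real.exp (3 * (ε * L) / 88) := by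
    rw [← Real.exp_add]
    congr 1
    ring
  have hD : 1 ≤ Real.exp ((1 - ε / 8) * L) := by
    apply Real.one_le_exp
    apply mul_nonneg _ hLpos.le
    linarith
  have hE : Real.exp ((1 - ε / 8) * L) * 4 ≤ Real.exp (L - ε * L / 11) := by
    rw [hC]
    exact mul_le_mul_of_nonneg_left hB (by linarith)
  linarith

theorem num_DD {ε : ℝ} (h0 : 0 < ε) (h1 : ε < 1) : ∀ᶠ X : ℕ in atTop,
    DD ε X * ww X ≤ ll ε X := by
  filter_upwards [num_ll h0 h1, numA_L.eventually_ge_atTop 8,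
    numA_little (show (0 : ℝ) < 1 / 8 by norm_num)] with X hll hL hlit
  set L := Real.log (X : ℝ) with hLdef
  have hLpos : 0 < L := by linarith
  have hDD : (DD ε X : ℝ) ≤ Real.exp (ε * L / 8) := by
    unfold DD
    rw [← hLdef]
    exact Nat.floor_le (Real.exp_pos _).le
  have hww : (ww X : ℝ) ≤ L ^ 5 + 1 := by
    unfold ww
    rw [← hLdef]
    exact (Nat.ceil_lt_add_one (by positivity)).le
  have hL5 : L ^ 5 ≤ Real.exp (5 / 8 * L) := by
    rw [← Real.exp_log (show (0 : ℝ) < L ^ 5 by positivity)]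
    apply Real.exp_le_exp.mpr
    rw [Real.log_pow]
    push_cast
    linarith
  have hone : 1 ≤ L ^ 5 := one_le_pow₀ (by linarith)
  have h2e : (2 : ℝ) ≤ Real.exp 1 := by
    have := Real.add_one_le_exp 1
    linarith
  have hww2 : (ww X : ℝ) ≤ Real.exp (5 / 8 * L + 1) := by
    rw [Real.exp_add]
    have h5 : (0 : ℝ) < Real.exp (5 / 8 * L) := Real.exp_pos _
    nlinarith
  have hfin : (DD ε X : ℝ) * ww X ≤ Real.exp ((1 - ε / 8) * L) := by
    calc (DD ε X : ℝ) * ww X ≤ Real.exp (ε * L / 8) * Real.exp (5 / 8 * L + 1) :=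
          mul_le_mul hDD hww2 (by positivity) (Real.exp_pos _).le
      _ = Real.exp (ε * L / 8 + (5 / 8 * L + 1)) := (Real.exp_add _ _).symm
      _ ≤ Real.exp ((1 - ε / 8) * L) := by
          apply Real.exp_le_exp.mpr
          nlinarith
  have : ((DD ε X * ww X : ℕ) : ℝ) ≤ ((ll ε X : ℕ) : ℝ) := by
    push_cast
    exact hfin.trans hll
  exact_mod_cast this

theorem num_err {ε : ℝ} (h0 : 0 < ε) (h1 : ε < 1) : ∀ᶠ X : ℕ in atTop,
    2 * (DD ε X : ℝ) ^ 2 ≤ ll ε X / Real.log X := by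
  filter_upwards [num_ll h0 h1, numA_L.eventually_ge_atTop 8,
    numA_little (show (0 : ℝ) < 1 / 8 by norm_num)] with X hll hL hlit
  set L := Real.log (X : ℝ) with hLdef
  have hLpos : 0 < L := by linarith
  have hDD : (DD ε X : ℝ) ≤ Real.exp (ε * L / 8) := by
    unfold DD
    rw [← hLdef]
    exact Nat.floor_le (Real.exp_pos _).le
  have hDD2 : (DD ε X : ℝ) ^ 2 ≤ Real.exp (ε * L / 4) := by
    calc (DD ε X : ℝ) ^ 2 ≤ Real.exp (ε * L / 8) ^ 2 := pow_le_pow_left₀ (by positivity) hDD 2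
      _ = Real.exp (ε * L / 4) := by
          rw [← Real.exp_nat_mul]
          congr 1
          push_cast
          ring
  have hL1 : L ≤ Real.exp (1 / 8 * L) := by
    nth_rewrite 1 [← Real.exp_log hLpos]
    exact Real.exp_le_exp.mpr hlit
  have h2e : (2 : ℝ) ≤ Real.exp 1 := by
    have := Real.add_one_le_exp 1
    linarith
  rw [le_div_iff₀ hLpos]
  refine le_trans ?_ hll
  calc 2 * (DD ε X : ℝ) ^ 2 * L ≤ Real.exp 1 * Real.exp (ε * L / 4) * Real.exp (1 / 8 * L) := by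
        apply mul_le_mul _ hL1 hLpos.le (by positivity)
        exact mul_le_mul h2e hDD2 (by positivity) (by positivity)
    _ = Real.exp (1 + ε * L / 4 + 1 / 8 * L) := by
        rw [Real.exp_add, Real.exp_add]
    _ ≤ Real.exp ((1 - ε / 8) * L) := by
        apply Real.exp_le_exp.mpr
        nlinarith

end Pool.Agent.RSL
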