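import Pool.Agent.RSL.Def

/-!
# RSL / Surv: the class modulo the product of the small primes

`surv`: Chinese remainder theorem (for instance `Nat.chineseRemainderOfFinset`, or induction on `P0`); take the representative
in `[1, Q]`, `Q = ∏_{p ∈ P0} p` (replace `0` by `Q`).
`surv_unique`: `phi p a β` and `phi p a β'` give `β ≡ β'` modulo every `p ∈ P0`, hence modulo `Q`; both are in `[1, Q]`.
`surv_W`: `β + Q t ≡ β` modulo `p`. If `β ≡ 0` then `2^i β ≡ 0 ≢ a + 1`; if `β ≡ 1` and `a + 1 ≡ 0` then `2^i ≢ 0` since `p` is odd.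
-/

namespace Pool.Agent.RSL

open Finset Pool.Agent.RSC

theorem surv (P0 : Finset ℕ) (hP0 : ∀ p ∈ P0, p.Prime) (a : ℕ → ℕ) :
    ∃ β ∈ Icc 1 (∏ p ∈ P0, p), ∀ p ∈ P0, phi p (a p) β := by
  have hQ : 0 < ∏ p ∈ P0, p := Finset.prod_pos fun p hp => (hP0 p hp).pos
  obtain ⟨k, hk⟩ := Nat.chineseRemainderOfFinset
    (fun p => if (a p + 1) % p ≠ 0 then 0 else 1) (fun p => p) P0
    (fun p hp => (hP0 p hp).ne_zero)
    (fun p hp q hq hpq => (Nat.coprime_primes (hP0 p hp) (hP0 q hq)).2 hpq)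
  refine ⟨if k % (∏ p ∈ P0, p) = 0 then ∏ p ∈ P0, p else k % (∏ p ∈ P0, p), ?_, ?_⟩
  · rw [Finset.mem_Icc]
    split_ifs with h
    · exact ⟨hQ, le_rfl⟩
    · exact ⟨Nat.one_le_iff_ne_zero.2 h, (Nat.mod_lt _ hQ).le⟩
  · intro p hp
    have hpd : p ∣ ∏ p ∈ P0, p := Finset.dvd_prod_of_mem _ hp
    have hmod : (if k % (∏ p ∈ P0, p) = 0 then ∏ p ∈ P0, p else k % (∏ p ∈ P0, p)) % p = k % p := by
      split_ifs with h
      · rw [Nat.mod_eq_zero_of_dvd hpd]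
        exact (Nat.mod_eq_zero_of_dvd (hpd.trans (Nat.dvd_of_mod_eq_zero h))).symm
      · exact Nat.mod_mod_of_dvd _ hpd
    have hkp := hk p hp
    have h1 : 1 % p = 1 := Nat.mod_eq_of_lt (hP0 p hp).one_lt
    unfold phi
    rw [hmod]
    by_cases h : (a p + 1) % p = 0
    · right
      refine ⟨h, ?_⟩
      have : k % p = (if (a p + 1) % p ≠ 0 then 0 else 1) % p := hkp
      rw [this, if_neg (not_not.2 h), h1]
    · left
      refine ⟨h, ?_⟩
      have : k % p = (if (a p + 1) % p ≠ 0 then 0 else 1) % p := hkp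
      rw [this, if_pos h, Nat.zero_mod]

theorem surv_unique (P0 : Finset ℕ) (hP0 : ∀ p ∈ P0, p.Prime) (a : ℕ → ℕ) {β β' : ℕ}
    (h : β ∈ Icc 1 (∏ p ∈ P0, p)) (h' : β' ∈ Icc 1 (∏ p ∈ P0, p))
    (hb : ∀ p ∈ P0, phi p (a p) β) (hb' : ∀ p ∈ P0, phi p (a p) β') : β = β' := by
  have hmod : ∀ p ∈ P0, β ≡ β' [MOD p] := by
    intro p hp
    rcases hb p hp with ⟨h1, h2⟩ | ⟨h1, h2⟩
    · rcases hb' p hp with ⟨h3, h4⟩ | ⟨h3, h4⟩
      · exact h2.trans h4.symm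
      · exact absurd h3 h1
    · rcases hb' p hp with ⟨h3, h4⟩ | ⟨h3, h4⟩
      · exact absurd h1 h3
      · exact h2.trans h4.symm
  have hall : β ≡ β' [MOD ∏ p ∈ P0, p] := by
    rw [Nat.modEq_iff_dvd]
    push_cast
    refine Finset.prod_dvd_of_coprime ?_ ?_
    · intro p hp q hq hpq
      exact Nat.isCoprime_iff_coprime.2 ((Nat.coprime_primes (hP0 p hp) (hP0 q hq)).2 hpq)
    · intro p hp
      exact (Nat.modEq_iff_dvd.1 (hmod p hp))
  rw [Finset.mem_Icc] at h h'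
  have hQ : 0 < ∏ p ∈ P0, p := Finset.prod_pos fun p hp => (hP0 p hp).pos
  obtain ⟨b, rfl⟩ : ∃ b, β = b + 1 := ⟨β - 1, by omega⟩
  obtain ⟨b', rfl⟩ : ∃ b, β' = b + 1 := ⟨β' - 1, by omega⟩
  have h2 : b ≡ b' [MOD ∏ p ∈ P0, p] := Nat.ModEq.add_right_cancel' 1 hall
  have h3 : b = b' := Nat.ModEq.eq_of_lt_of_lt h2 (by omega) (by omega)
  rw [h3]

theorem surv_W {p : ℕ} (hp : p.Prime) (h2 : p ≠ 2) {Q a β : ℕ} (hQ : p ∣ Q) (h : phi p a β)
    (k t : ℕ) : W k p a (β + Q * t) = 1 := by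
  have h2' := h2
  unfold W
  refine if_pos ?_
  intro i hi hc
  obtain ⟨q, rfl⟩ := hQ
  rcases h with ⟨h1, h2⟩ | ⟨h1, h2⟩
  · obtain ⟨b, rfl⟩ := Nat.dvd_of_mod_eq_zero h2
    have h3 : 2 ^ i * (p * b + p * q * t) = p * (2 ^ i * (b + q * t)) := by ring
    have h4 : (a + 1) % p = 0 := by
      have h5 : (2 ^ i * (p * b + p * q * t)) % p = (a + 1) % p := hc
      rw [← h5, h3, Nat.mul_mod_right]
    exact h1 h4
  · have h4 : p ∣ 2 ^ i * (β + p * q * t) := by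
      have h5 : (2 ^ i * (β + p * q * t)) % p = (a + 1) % p := hc
      rw [h1] at h5
      exact Nat.dvd_of_mod_eq_zero h5
    rcases (Nat.Prime.dvd_mul hp).1 h4 with h5 | h5
    · have h6 := (Nat.prime_dvd_prime_iff_eq hp Nat.prime_two).1 (hp.dvd_of_dvd_pow h5)
      exact absurd h6 h2'
    · have h6 : p ∣ β := by
        have h7 : p ∣ p * q * t := ⟨q * t, by ring⟩
        exact (Nat.dvd_add_left h7).1 h5
      rw [Nat.mod_eq_zero_of_dvd h6] at h2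
      exact absurd h2 (by norm_num)

end Pool.Agent.RSL
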