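import Pool.Agent.RSL.TwoU
import Pool.Agent.RSL.Def

/-!
# RSL / TwoD: chains of the second kind, deterministic part
-/

namespace Pool.Agent.RSL

open Finset Filter Pool.Agent.RSC

/-- Cunningham chain of the second kind -/
def cs (i n : ℕ) : ℕ := 2 ^ i * (n - 1) + 1

theorem sh_iff {p a c : ℕ} (hp : 2 ≤ p) (ha : a < p) :
    c ≡ sh p a + 1 [MOD p] ↔ (c + 1) % p = a := by
  have h1 : sh p a + 2 ≡ a [MOD p] := by
    unfold sh Nat.ModEq
    rw [Nat.mod_add_mod]
    have e2 : a + (p - 2) + 2 = a + p := by omega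
    rw [e2, Nat.add_mod_right]
  constructor
  · intro h
    have h2 : c + 1 ≡ sh p a + 1 + 1 [MOD p] := h.add_right 1
    have h3 : c + 1 ≡ a [MOD p] := h2.trans h1
    unfold Nat.ModEq at h3
    rwa [Nat.mod_eq_of_lt ha] at h3
  · intro h
    have h3 : c + 1 ≡ a [MOD p] := by
      unfold Nat.ModEq
      rw [Nat.mod_eq_of_lt ha, h]
    have h4 : c + 1 ≡ sh p a + 1 + 1 [MOD p] := h3.trans h1.symm
    exact Nat.ModEq.add_right_cancel' 1 h4

theorem W_eq_one {k p a b : ℕ} (h : W k p a b = 1) {i : ℕ} (hi : i ∈ Icc 1 k) :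
    ¬ (2 ^ i * b ≡ a + 1 [MOD p]) := by
  unfold W at h
  split_ifs at h with hc
  · exact hc i hi
  · norm_num at h

theorem W_eq_zero {k p a b : ℕ} (h : W k p a b = 0) :
    ∃ i ∈ Icc 1 k, 2 ^ i * b ≡ a + 1 [MOD p] := by
  unfold W at h
  split_ifs at h with hc
  · norm_num at h
  · push Not at hc
    exact hc

theorem XX_tendsto {ε : ℝ} (h0 : 0 < ε) : Tendsto (fun j => XX ε j) atTop atTop := by
  have h1 : Tendsto (fun j : ℕ => Real.exp ((1 + ε) ^ j)) atTop atTop :=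
    Real.tendsto_exp_atTop.comp (tendsto_pow_atTop_atTop_of_one_lt (by linarith))
  exact tendsto_nat_ceil_atTop.comp h1

/-- `k` members from a number `b` which survives for the reflected classes -/
theorem chain_two {X k : ℕ} (hX : 3 ≤ X) (a : ℕ → ℕ) (ha : ∀ p, p.Prime → a p < p)
    {b : ℕ} (hb : b ∈ Icc 1 (X / 2))
    (h : ∀ p ∈ oddP (yy (2 ^ k * X)), W k p (sh p (a p)) b = 1) :
    ∀ i < k, cs i (2 * b + 1) ∈ RS a := by
  intro i hi
  rw [mem_Icc] at hb
  have hcs : cs i (2 * b + 1) = 2 ^ (i + 1) * b + 1 := by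
    unfold cs
    rw [Nat.add_sub_cancel, pow_succ]
    ring
  have h2i : 1 ≤ 2 ^ (i + 1) * b := Nat.one_le_iff_ne_zero.2 (by
    have := hb.1
    positivity)
  have hle : cs i (2 * b + 1) ≤ 2 ^ k * X := by
    rw [hcs]
    have e1 : 2 ^ (i + 1) * b ≤ 2 ^ k * b :=
      Nat.mul_le_mul_right _ (Nat.pow_le_pow_right (by norm_num) hi)
    have e2 : 2 ^ k * b + 1 ≤ 2 ^ k * X := by
      have e3 : 2 * b ≤ X := by omega
      have e4 : b + 1 ≤ X := by omega
      have e5 : 2 ^ k * (b + 1) ≤ 2 ^ k * X := Nat.mul_le_mul_left _ e4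
      have e6 : 1 ≤ 2 ^ k := Nat.one_le_two_pow
      nlinarith
    omega
  refine ⟨?_, fun p hp hp2 hact => ?_⟩
  · rw [hcs]
    have e1 : 2 ^ (i + 1) * b = 2 * (2 ^ i * b) := by rw [pow_succ]; ring
    rw [e1]
    omega
  · have hc3 : 1 ≤ cs i (2 * b + 1) := by rw [hcs]; omega
    have hN3 : 3 ≤ 2 ^ k * X := le_trans hX (Nat.le_mul_of_pos_left _ (by positivity))
    have hact2 : 1 ≤ Real.log ((2 ^ k * X : ℕ) : ℝ) * th p := by
      refine hact.trans (mul_le_mul_of_nonneg_right ?_ (th_pos p).le)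
      exact Real.log_le_log (by exact_mod_cast hc3) (by exact_mod_cast hle)
    have hpy := (act_iff hN3).1 hact2
    have hmem : p ∈ oddP (yy (2 ^ k * X)) := by
      unfold oddP
      rw [mem_filter, mem_range]
      exact ⟨by omega, hp, hp2⟩
    have hW := W_eq_one (h p hmem) (i := i + 1) (mem_Icc.2 ⟨by omega, by omega⟩)
    rw [sh_iff hp.two_le (ha p hp)] at hW
    rw [hcs]
    exact hW

/-- a member of the chain which does not survive -/
theorem short_two {K m : ℕ} (hm : 3 ≤ m) (hodd : m % 2 = 1) (a : ℕ → ℕ)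
    (ha : ∀ p, p.Prime → a p < p)
    (h : ∃ p ∈ oddP (yy m), W K p (sh p (a p)) ((m + 1) / 2) = 0) :
    ∃ i < K, cs i (m + 2) ∉ RS a := by
  obtain ⟨p, hp, hW⟩ := h
  unfold oddP at hp
  rw [mem_filter, mem_range] at hp
  obtain ⟨hpy, hpp, hp2⟩ := hp
  obtain ⟨i, hi, hmod⟩ := W_eq_zero hW
  rw [mem_Icc] at hi
  rw [sh_iff hpp.two_le (ha p hpp)] at hmod
  refine ⟨i - 1, by omega, ?_⟩
  have hcs : cs (i - 1) (m + 2) = 2 ^ i * ((m + 1) / 2) + 1 := by
    unfold cs
    obtain ⟨c, hc⟩ : ∃ c, m + 1 = 2 * c := ⟨(m + 1) / 2, by omega⟩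
    have e1 : m + 2 - 1 = 2 * c := by omega
    have e2 : (m + 1) / 2 = c := by omega
    obtain ⟨j, rfl⟩ : ∃ j, i = j + 1 := ⟨i - 1, by omega⟩
    rw [e1, e2, Nat.add_sub_cancel, pow_succ]
    ring
  intro hmem
  have h2 := hmem.2 p hpp hp2 ?_
  · rw [hcs] at h2
    exact h2 hmod
  · have hact := (act_iff hm).2 (show p ≤ yy m by omega)
    refine hact.trans (mul_le_mul_of_nonneg_right ?_ (th_pos p).le)
    have hle : m ≤ cs (i - 1) (m + 2) := by
      unfold cs
      have : 1 ≤ 2 ^ (i - 1) := Nat.one_le_two_pow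
      have e : m + 2 - 1 = m + 1 := by omega
      rw [e]
      nlinarith
    exact Real.log_le_log (by exact_mod_cast (by omega : 0 < m)) (by exact_mod_cast hle)

end Pool.Agent.RSL
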