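import Pool.Agent.RSL.TwoD
import Pool.Agent.RSL.BCL
import Pool.Agent.RSL.UpP

/-!
# RSL / TwoE: chains of the second kind, almost sure bounds
-/

namespace Pool.Agent.RSL

open Finset Filter MeasureTheory ProbabilityTheory Pool.Agent.RSC

/-- `t/log t` is increasing for `t ≥ e` -/
theorem div_log_mono {s t : ℝ} (hs : Real.exp 1 ≤ s) (hst : s ≤ t) :
    s / Real.log s ≤ t / Real.log t := by
  have he : (0 : ℝ) < Real.exp 1 := Real.exp_pos 1
  have h1 := Real.log_div_self_antitoneOn (a := s) (b := t) hs (hs.trans hst) hst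
  have hs0 : 0 < s := lt_of_lt_of_le he hs
  have ht0 : 0 < t := lt_of_lt_of_le hs0 hst
  have hls : 1 ≤ Real.log s := by
    rw [Real.le_log_iff_exp_le hs0]; exact hs
  have hlt : 1 ≤ Real.log t := by
    rw [Real.le_log_iff_exp_le ht0]; exact hs.trans hst
  have h2 : 0 < Real.log t / t := by positivity
  have h3 := one_div_le_one_div_of_le h2 h1
  rw [one_div_div, one_div_div] at h3
  exact h3

theorem log_tendsto : Tendsto (fun n : ℕ => Real.log n) atTop atTop :=
  Real.tendsto_log_atTop.comp (tendsto_natCast_atTop_atTop (R := ℝ))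

theorem loglog_tendsto : Tendsto (fun n : ℕ => Real.log (Real.log n)) atTop atTop :=
  Real.tendsto_log_atTop.comp log_tendsto

/-- the choice of the scale -/
theorem scale {ε : ℝ} (h0 : 0 < ε) (h1 : ε < 1) {P : ℕ → Prop} (hP : ∀ᶠ j in atTop, P j) :
    ∀ᶠ x : ℕ in atTop, ∃ j, P j ∧ 3 ≤ XX (ε / 10) j ∧ XX (ε / 10) j + 1 ≤ x ∧
      (1 - ε) * (Real.log x / Real.log (Real.log x)) ≤ kk (ε / 10) (XX (ε / 10) j) := by
  obtain ⟨d, hd⟩ : ∃ d : ℝ, d = ε / 10 := ⟨_, rfl⟩
  rw [← hd]
  have hd0 : 0 < d := by rw [hd]; positivity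
  have hd1 : d < 1 / 10 := by rw [hd]; linarith
  have hX : ∀ᶠ j in atTop, 16 ≤ XX d j := (XX_tendsto hd0).eventually_ge_atTop 16
  obtain ⟨J, hJ⟩ := eventually_atTop.1 (hP.and hX)
  have hlog1 : ∀ᶠ x : ℕ in atTop, (1 + d) ^ J + 4 ≤ Real.log x :=
    log_tendsto.eventually_ge_atTop _
  have hlog2 : ∀ᶠ x : ℕ in atTop, 1 ≤ Real.log (Real.log x) :=
    loglog_tendsto.eventually_ge_atTop _
  have hlog3 : ∀ᶠ x : ℕ in atTop, Real.log (Real.log x) ≤ (ε / 2) * Real.log x := by
    have h3 := (Real.isLittleO_log_id_atTop.comp_tendsto log_tendsto).def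
      (show (0 : ℝ) < ε / 2 by positivity)
    filter_upwards [h3, log_tendsto.eventually_ge_atTop 1, hlog2] with x hx hx1 hx2
    simp only [Function.comp, id, Real.norm_eq_abs] at hx
    rw [abs_of_nonneg (by linarith), abs_of_nonneg (by linarith)] at hx
    exact hx
  have hlog4 : ∀ᶠ x : ℕ in atTop, 1 ≤ (ε / 10) * Real.log x := by
    have := log_tendsto.eventually_ge_atTop (10 / ε)
    filter_upwards [this] with x hx
    rw [div_le_iff₀ h0] at hx
    linarith
  filter_upwards [hlog1, hlog2, hlog3, hlog4, eventually_ge_atTop 16] with x hx1 hx2 hx3 hx4 hx16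
  have hxpos : (0 : ℝ) < x := by exact_mod_cast (by omega : 0 < x)
  have hex : ∃ j, Real.log x - 1 < (1 + d) ^ j := pow_unbounded_of_one_lt _ (by linarith)
  classical
  obtain ⟨j, hj1, hj2⟩ : ∃ j, (1 + d) ^ j ≤ Real.log x - 1 ∧ Real.log x - 1 < (1 + d) ^ (j + 1) := by
    have hf := Nat.find_spec hex
    have hne : Nat.find hex ≠ 0 := by
      intro e
      rw [e, pow_zero] at hf
      have : (1 : ℝ) ≤ (1 + d) ^ J := one_le_pow₀ (by linarith)
      linarith
    obtain ⟨j, hj⟩ := Nat.exists_eq_succ_of_ne_zero hne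
    refine ⟨j, ?_, ?_⟩
    · have := Nat.find_min hex (m := j) (by omega)
      push Not at this
      exact this
    · rw [hj] at hf
      exact hf
  have hjJ : J ≤ j := by
    by_contra hc
    push Not at hc
    have : (1 + d) ^ (j + 1) ≤ (1 + d) ^ J := pow_le_pow_right₀ (by linarith) hc
    linarith
  obtain ⟨hPj, hX16⟩ := hJ j hjJ
  refine ⟨j, hPj, by omega, ?_, ?_⟩
  · -- XX d j + 1 ≤ x
    have e1 : (XX d j : ℝ) < Real.exp ((1 + d) ^ j) + 1 := Nat.ceil_lt_add_one (Real.exp_pos _).le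
    have e2 : Real.exp ((1 + d) ^ j) ≤ Real.exp (Real.log x - 1) := Real.exp_le_exp.2 hj1
    rw [Real.exp_sub, Real.exp_log hxpos] at e2
    have e3 : (x : ℝ) / Real.exp 1 ≤ x / 2 := by
      apply div_le_div_of_nonneg_left hxpos.le (by norm_num)
      have := Real.exp_one_gt_d9
      linarith
    have e4 : (16 : ℝ) ≤ x := by exact_mod_cast hx16
    have e5 : (XX d j : ℝ) + 1 < x := by linarith
    exact_mod_cast e5.le
  · have hXpos : (0 : ℝ) < XX d j := by exact_mod_cast (by omega : 0 < XX d j)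
    have e1 : (1 + d) ^ j ≤ Real.log (XX d j) := by
      rw [Real.le_log_iff_exp_le hXpos]
      exact Nat.le_ceil _
    have e2 : (Real.log x - 1) / (1 + d) ≤ Real.log (XX d j) := by
      rw [div_le_iff₀ (by linarith)]
      have : (1 + d) ^ (j + 1) = (1 + d) ^ j * (1 + d) := pow_succ _ _
      rw [this] at hj2
      have : (1 + d) ^ j * (1 + d) ≤ Real.log (XX d j) * (1 + d) :=
        mul_le_mul_of_nonneg_right e1 (by linarith)
      linarith
    have e3 : (XX d j : ℝ) + 1 ≤ x := by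
      have e1 : (XX d j : ℝ) < Real.exp ((1 + d) ^ j) + 1 :=
        Nat.ceil_lt_add_one (Real.exp_pos _).le
      have e2 : Real.exp ((1 + d) ^ j) ≤ Real.exp (Real.log x - 1) := Real.exp_le_exp.2 hj1
      rw [Real.exp_sub, Real.exp_log hxpos] at e2
      have e3 : (x : ℝ) / Real.exp 1 ≤ x / 2 := by
        apply div_le_div_of_nonneg_left hxpos.le (by norm_num)
        have := Real.exp_one_gt_d9
        linarith
      have e4 : (16 : ℝ) ≤ x := by exact_mod_cast hx16
      linarith
    have hX16' : (16 : ℝ) ≤ XX d j := by exact_mod_cast hX16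
    have he3 : Real.exp 1 < 2.7182818286 := Real.exp_one_lt_d9
    have hlogX : 1 < Real.log (XX d j) := by
      rw [Real.lt_log_iff_exp_lt hXpos]
      linarith
    have hLX : Real.log (XX d j) ≤ Real.log x := Real.log_le_log hXpos (by linarith)
    have hLLX : Real.log (Real.log (XX d j)) ≤ Real.log (Real.log x) :=
      Real.log_le_log (by linarith) hLX
    have hLL0 : 0 < Real.log (Real.log (XX d j)) := Real.log_pos hlogX
    have hk : (1 - d) * Real.log (XX d j) / Real.log (Real.log (XX d j)) - 1 < kk d (XX d j) :=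
      Nat.sub_one_lt_floor _
    refine le_trans ?_ hk.le
    have hLx : 0 < Real.log (Real.log x) := by linarith
    have e4 : (1 - d) * Real.log (XX d j) / Real.log (Real.log x) ≤
        (1 - d) * Real.log (XX d j) / Real.log (Real.log (XX d j)) :=
      div_le_div_of_nonneg_left (mul_nonneg (by linarith) (by linarith)) hLL0 hLLX
    refine le_trans ?_ (sub_le_sub_right e4 1)
    rw [le_sub_iff_add_le, ← mul_div_assoc, le_div_iff₀ hLx, add_mul, one_mul,
      div_mul_cancel₀ _ hLx.ne']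
    have e5 : (1 - d) * ((Real.log x - 1) / (1 + d)) ≤ (1 - d) * Real.log (XX d j) :=
      mul_le_mul_of_nonneg_left e2 (by linarith)
    refine le_trans ?_ e5
    rw [← mul_div_assoc, le_div_iff₀ (by linarith)]
    have hLL : Real.log (Real.log x) ≤ ε / 2 * Real.log x := hx3
    have hdd : ε = 10 * d := by rw [hd]; ring
    rw [hdd] at hLL hx4 ⊢
    have hL0 : 0 < Real.log x := by linarith [one_le_pow₀ (n := J) (show (1 : ℝ) ≤ 1 + d by linarith)]
    have h6 : (1 - 10 * d) * Real.log x + Real.log (Real.log x) ≤ (1 - 5 * d) * Real.log x := by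
      linarith
    have h7 : ((1 - 10 * d) * Real.log x + Real.log (Real.log x)) * (1 + d) ≤
        (1 - 5 * d) * Real.log x * (1 + d) := mul_le_mul_of_nonneg_right h6 (by linarith)
    refine h7.trans ?_
    have h8 : (1 : ℝ) ≤ d * Real.log x := by linarith
    nlinarith

variable {Ω : Type*} [MeasurableSpace Ω] {μ : Measure Ω} [IsProbabilityMeasure μ] {a : ℕ → Ω → ℕ}

theorem two_lower (h : Unif μ a) {ε : ℝ} (h0 : 0 < ε) (h1 : ε < 1) :
    ∀ᵐ ω ∂μ, ∀ᶠ x : ℕ in atTop, ∃ n k : ℕ, 2 ≤ n ∧ n ≤ x ∧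
      (1 - ε) * (Real.log x / Real.log (Real.log x)) ≤ k ∧
        ∀ i < k, cs i n ∈ RS (fun p => a p ω) := by
  filter_upwards [a_lt h, low_ae (unif_sh h) (show 0 < ε / 10 by positivity)
    (show ε / 10 < 1 by linarith)] with ω ha hL
  filter_upwards [scale h0 h1 hL] with x hx
  obtain ⟨j, ⟨b, hb, hW⟩, hX3, hXx, hk⟩ := hx
  refine ⟨2 * b + 1, kk (ε / 10) (XX (ε / 10) j), ?_, ?_, hk, ?_⟩
  · rw [mem_Icc] at hb; omega
  · rw [mem_Icc] at hb; omega
  · exact chain_two hX3 (fun p => a p ω) ha hb hW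

theorem two_upper (h : Unif μ a) {ε : ℝ} (h0 : 0 < ε) (h1 : ε < 1) :
    ∀ᵐ ω ∂μ, ∀ᶠ n : ℕ in atTop, ∀ L : ℕ, (∀ i < L, cs i n ∈ RS (fun p => a p ω)) →
      (L : ℝ) ≤ (1 + ε) * (Real.log n / Real.log (Real.log n)) := by
  filter_upwards [a_lt h, up_ae (unif_sh h) h0 h1] with ω ha hU
  obtain ⟨N, hN⟩ := eventually_atTop.1 hU
  obtain ⟨N2, hN2⟩ := eventually_atTop.1 (log_tendsto.eventually_ge_atTop (Real.exp 1))
  filter_upwards [eventually_ge_atTop (N + N2 + 5)] with n hn L hL
  have hnL : Real.exp 1 ≤ Real.log n := hN2 n (by omega)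
  have he : (0 : ℝ) < Real.exp 1 := Real.exp_pos 1
  have hll : 0 ≤ Real.log (Real.log n) := by
    apply Real.log_nonneg
    have := Real.exp_one_gt_d9
    linarith
  rcases Nat.mod_two_eq_zero_or_one n with he | ho
  · have hL0 : L = 0 := by
      by_contra hne
      have := (hL 0 (by omega)).1
      unfold cs at this
      omega
    rw [hL0, Nat.cast_zero]
    exact mul_nonneg (by linarith) (div_nonneg (by linarith) hll)
  · obtain ⟨m, rfl⟩ : ∃ m, n = m + 2 := ⟨n - 2, by omega⟩
    obtain ⟨i, hi, hmem⟩ := short_two (m := m) (by omega) (by omega) (fun p => a p ω) ha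
      (hN m (by omega) (by omega))
    have hLi : L ≤ i := by
      by_contra hc
      push Not at hc
      exact hmem (hL i hc)
    have hLK : L < KK ε m := lt_of_le_of_lt hLi hi
    unfold KK at hLK
    rw [Nat.lt_ceil] at hLK
    have hmL : Real.exp 1 ≤ Real.log m := hN2 m (by omega)
    have hmono := div_log_mono hmL (Real.log_le_log
      (by exact_mod_cast (by omega : 0 < m)) (show (m : ℝ) ≤ ((m + 2 : ℕ) : ℝ) by push_cast; linarith))
    have h3 := mul_le_mul_of_nonneg_left hmono (show (0 : ℝ) ≤ 1 + ε by linarith)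
    rw [← mul_div_assoc] at h3
    linarith

end Pool.Agent.RSL
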