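import Pool.Agent.RSL.TwoE
import Pool.Agent.RSL.Main

/-!
# RSL / TwoF: both kinds, in terms of exact lengths (MP_bc85be)
-/

namespace Pool.Agent.RSL

open Finset Filter MeasureTheory ProbabilityTheory Pool.Agent.RSC

theorem cs_cs (i m n : ℕ) : cs i (cs m n) = cs (i + m) n := by
  unfold cs
  rw [Nat.add_sub_cancel, pow_add, mul_assoc]

theorem finite_two {a : ℕ → ℕ} {b : ℝ → ℝ}
    (h : ∀ᶠ n : ℕ in atTop, ∀ L : ℕ, (∀ i < L, cs i n ∈ RS a) → (L : ℝ) ≤ b n)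
    {n : ℕ} (hn : 2 ≤ n) : ∃ i, cs i n ∉ RS a := by
  by_contra hc
  push Not at hc
  obtain ⟨N, hN⟩ := eventually_atTop.1 h
  have hNle : N ≤ cs N n := by
    unfold cs
    have h1 : N < 2 ^ N := Nat.lt_two_pow_self
    have h2 : 1 ≤ n - 1 := by omega
    nlinarith
  have h1 := hN (cs N n) hNle (⌈b (cs N n)⌉₊ + 1) (fun i _ => by rw [cs_cs]; exact hc _)
  have h2 := Nat.le_ceil (b (cs N n))
  push_cast at h1
  linarith

/-- exact length -/
theorem exact_of_finite {R : Set ℕ} {f : ℕ → ℕ} (h : ∃ i, f i ∉ R) :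
    ∃ L, (∀ i < L, f i ∈ R) ∧ f L ∉ R := by
  classical
  refine ⟨Nat.find h, fun i hi => ?_, Nat.find_spec h⟩
  have := Nat.find_min h hi
  push Not at this
  exact this

variable {Ω : Type*} [MeasurableSpace Ω] {μ : Measure Ω} [IsProbabilityMeasure μ] {a : ℕ → Ω → ℕ}

theorem le_exact {R : Set ℕ} {f : ℕ → ℕ} {k L : ℕ} (h1 : ∀ i < k, f i ∈ R) (h2 : f L ∉ R) :
    k ≤ L := by
  by_contra hc
  push Not at hc
  exact h2 (h1 L hc)

theorem kind_two (h : Unif μ a) {ε : ℝ} (h0 : 0 < ε) (h1 : ε < 1) :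
    ∀ᵐ ω ∂μ,
      (∀ᶠ n : ℕ in atTop, ∀ L : ℕ, (∀ i < L, cs i n ∈ RS (fun p => a p ω)) →
        (L : ℝ) ≤ (1 + ε) * (Real.log n / Real.log (Real.log n))) ∧
      (∀ᶠ x : ℕ in atTop, ∃ n L : ℕ, 2 ≤ n ∧ n ≤ x ∧
        (1 - ε) * (Real.log x / Real.log (Real.log x)) ≤ L ∧
        (∀ i < L, cs i n ∈ RS (fun p => a p ω)) ∧ cs L n ∉ RS (fun p => a p ω)) := by
  filter_upwards [two_lower h h0 h1, two_upper h h0 h1] with ω hL hU
  refine ⟨hU, ?_⟩
  filter_upwards [hL] with x hx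
  obtain ⟨n, k, hn2, hnx, hk, hmem⟩ := hx
  have hfin := finite_two (b := fun t => (1 + ε) * (Real.log t / Real.log (Real.log t))) hU hn2
  obtain ⟨L, hL1, hL2⟩ := exact_of_finite hfin
  have hkL : k ≤ L := le_exact hmem hL2
  exact ⟨n, L, hn2, hnx, hk.trans (by exact_mod_cast hkL), hL1, hL2⟩

theorem kind_one (h : Unif μ a) {ε : ℝ} (h0 : 0 < ε) (h1 : ε < 1) :
    ∀ᵐ ω ∂μ,
      (∀ᶠ n : ℕ in atTop, ∀ L : ℕ, (∀ i < L, ch i n ∈ RS (fun p => a p ω)) →
        (L : ℝ) ≤ (1 + ε) * (Real.log n / Real.log (Real.log n))) ∧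
      (∀ᶠ x : ℕ in atTop, ∃ n L : ℕ, 2 ≤ n ∧ n ≤ x ∧
        (1 - ε) * (Real.log x / Real.log (Real.log x)) ≤ L ∧
        (∀ i < L, ch i n ∈ RS (fun p => a p ω)) ∧ ch L n ∉ RS (fun p => a p ω)) := by
  filter_upwards [main h] with ω hω
  constructor
  · filter_upwards [hω ε h0 h1] with x hx L hL
    exact hx.2 x le_rfl L hL
  · have hu : Tendsto (fun x : ℕ => Real.log x / Real.log (Real.log x)) atTop atTop := by
      have h1 : Tendsto (fun t : ℝ => Real.log t / t) atTop (nhds 0) := by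
        have := Real.isLittleO_log_id_atTop.tendsto_div_nhds_zero
        simpa using this
      have h2 : Tendsto (fun t : ℝ => Real.log t / t) atTop (nhdsWithin 0 (Set.Ioi 0)) := by
        rw [tendsto_nhdsWithin_iff]
        refine ⟨h1, ?_⟩
        filter_upwards [eventually_gt_atTop 1] with t ht
        exact div_pos (Real.log_pos ht) (by linarith)
      have h3 := (tendsto_inv_nhdsGT_zero (𝕜 := ℝ)).comp (h2.comp log_tendsto)
      refine h3.congr fun x => ?_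
      simp only [Function.comp]
      rw [inv_div]
    have e1 := hω (ε / 4) (by positivity) (by linarith)
    have e2 := hu.eventually_ge_atTop (4 / ε + 8)
    -- no long chain starts at `1`: the exact length at `1` is a constant
    have hfin : ∃ i, ch i 1 ∉ RS (fun p => a p ω) := by
      by_contra hc
      push Not at hc
      obtain ⟨N, hN⟩ := eventually_atTop.1 (hω (ε / 4) (by positivity) (by linarith))
      have h1 := (hN (N + 1) (by omega)).2 1 (by omega)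
        (⌈(1 + ε / 4) * (Real.log ((N + 1 : ℕ) : ℝ) / Real.log (Real.log ((N + 1 : ℕ) : ℝ)))⌉₊ + 1)
        (fun i _ => hc i)
      have h2 := Nat.le_ceil
        ((1 + ε / 4) * (Real.log ((N + 1 : ℕ) : ℝ) / Real.log (Real.log ((N + 1 : ℕ) : ℝ))))
      push_cast at h1 h2
      linarith
    obtain ⟨i1, hi1⟩ := hfin
    have e3 := hu.eventually_ge_atTop ((i1 + 4) * 2 : ℝ)
    filter_upwards [e1, e2, e3] with x hx hx2 hx3
    have hx1 := hx.1
    obtain ⟨u, hu⟩ : ∃ u : ℝ, u = Real.log x / Real.log (Real.log x) := ⟨_, rfl⟩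
    rw [← hu] at hx1 hx2 hx3 ⊢
    have hi0 : (0 : ℝ) ≤ i1 := Nat.cast_nonneg _
    have hu8 : 8 ≤ u := by
      have : 0 < 4 / ε := by positivity
      linarith
    have hue : 1 ≤ (3 * ε / 4) * u := by
      have h4 : 4 / ε ≤ u := by linarith
      rw [div_le_iff₀ h0] at h4
      linarith
    have hf1 : (⌊(1 - ε / 4) * u⌋₊ : ℝ) ≤ (1 - ε / 4) * u :=
      Nat.floor_le (mul_nonneg (by linarith) (by linarith))
    have hf2 : (1 - ε / 4) * u - 1 < (⌊(1 - ε / 4) * u⌋₊ : ℝ) := Nat.sub_one_lt_floor _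
    have hf3 : (i1 : ℝ) < (⌊(1 - ε / 4) * u⌋₊ : ℝ) := by nlinarith
    have hf4 : i1 < ⌊(1 - ε / 4) * u⌋₊ := by exact_mod_cast hf3
    obtain ⟨n, hn1, hnx, hn2, hn3⟩ := hx1 ⌊(1 - ε / 4) * u⌋₊ (by omega) hf1
    refine ⟨n, ⌊(1 - ε / 4) * u⌋₊, ?_, hnx, by linarith, hn2, hn3⟩
    by_contra hc
    have hn : n = 1 := by omega
    rw [hn] at hn2
    exact hi1 (hn2 i1 hf4)

end Pool.Agent.RSL
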