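import Pool.Agent.RSC.Prob

/-!
# RSL / TwoU: the reflected classes

For chains of the second kind, `2^i b + 1`, one uses the classes `a p - 2` instead of `a p`:
`2^i b + 1 ≡ a` iff `2^i b ≡ (a - 2) + 1`. They are again independent and uniformly distributed.
-/

namespace Pool.Agent.RSL

open Finset MeasureTheory ProbabilityTheory Pool.Agent.RSC

variable {Ω : Type*} [MeasurableSpace Ω] {μ : Measure Ω} [IsProbabilityMeasure μ] {a : ℕ → Ω → ℕ}

/-- the class `a - 2` modulo `p` -/
def sh (p a : ℕ) : ℕ := (a + (p - 2)) % p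

theorem unif_sh (h : Unif μ a) : Unif μ (fun p ω => sh p (a p ω)) := by
  refine ⟨fun p hp => ?_, ?_, fun p hp j hj => ?_⟩
  · exact (measurable_of_countable (sh p)).comp (h.meas p hp)
  · exact h.indep.comp (fun p => sh p) (fun p => measurable_of_countable _)
  · have h2 := hp.two_le
    have hlt : (j + 2) % p < p := Nat.mod_lt _ hp.pos
    rw [← h.unif p hp ((j + 2) % p) hlt]
    refine measureReal_congr ?_
    filter_upwards [Prob_lt_one h hp] with ω hω
    refine propext ?_
    show sh p (a p ω) = j ↔ a p ω = (j + 2) % p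
    unfold sh
    constructor
    · intro e
      rw [← e]
      have e1 : ((a p ω + (p - 2)) % p + 2) % p = (a p ω + (p - 2) + 2) % p := by
        rw [Nat.mod_add_mod]
      rw [e1]
      have e2 : a p ω + (p - 2) + 2 = a p ω + p := by omega
      rw [e2, Nat.add_mod_right, Nat.mod_eq_of_lt hω]
    · intro e
      rw [e, Nat.mod_add_mod]
      have e2 : j + 2 + (p - 2) = j + p := by omega
      rw [e2, Nat.add_mod_right, Nat.mod_eq_of_lt hj]

end Pool.Agent.RSL
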