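import Pool.Agent.RSL.LocS
import Pool.Agent.RSL.MertS
import Pool.Agent.RSL.Pmin

/-!
# RSL / UpA: upper bound for the length, the sum over the good primes

`surv_le`: for a prime `p > K`, `p ≠ 2`, which does not divide `b` nor any `2^j - 1`, `1 ≤ j < K`: the `K` residues `2^i b`, `1 ≤ i ≤ K`, are
distinct modulo `p`, so exactly `K` numbers `a < p` have `W K p a b = 0` and `S1 K p b = 1 - K/p`.

`up_sum`: `L = log n`, `K = KK ε n ≤ 3 L/log L`, `b = (n+1)/2`, `w' = ⌈L³⌉ > K`. At most `log₂ b + 1` primes divide `b`, at most `j` primes divide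
`2^j - 1` (`≥ 1`), total at most `log₂ b + 1 + K² ≤ w'`. So the sum of `1/p` over the good primes `p ∈ oddP (yy n)`, `p > w'`, is at least
`∑_{w' < p ≤ yy n} 1/p - (log₂ b + 1 + K²)/w' ≥ ∑_{w' < p ≤ yy n} 1/p - 1`, and `-log (1 - 1/p) ≤ 1/p + 1/p²` gives
`∑_{w' < p ≤ yy n} 1/p ≥ log (th w') - log (th (yy n)) - 1`, where `th w' ≥ c/log w' ≥ c/(4 log L)` (`th_low`) and `th (yy n) ≤ 2/L` (`th_yy`).
So it is at least `log L - log log L - C`.
-/

namespace Pool.Agent.RSL

open Finset Filter Pool.Agent.RSC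

private theorem upA_W01 (k p a b : ℕ) : W k p a b = 0 ∨ W k p a b = 1 := by
  unfold W
  split_ifs <;> simp

private theorem upA_W0 (k p a b : ℕ) :
    W k p a b = 0 ↔ ∃ i ∈ Icc 1 k, 2 ^ i * b ≡ a + 1 [MOD p] := by
  unfold W
  constructor
  · intro h
    by_contra hc
    push Not at hc
    rw [if_pos hc] at h
    exact one_ne_zero h
  · rintro ⟨i, hi, h⟩
    rw [if_neg]
    push Not
    exact ⟨i, hi, h⟩

/-- two different exponents give different residues -/
private theorem upA_inj {p K b i j : ℕ} (hp : p.Prime) (h2 : p ≠ 2) (hb : ¬ p ∣ b)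
    (hj : ∀ j, 1 ≤ j → j < K → ¬ p ∣ 2 ^ j - 1) (hi1 : 1 ≤ i) (hij : i < j) (hjK : j ≤ K)
    (h : 2 ^ i * b ≡ 2 ^ j * b [MOD p]) : False := by
  have hle : 2 ^ i * b ≤ 2 ^ j * b :=
    Nat.mul_le_mul_right b (Nat.pow_le_pow_right (by norm_num) hij.le)
  have h3 : p ∣ 2 ^ j * b - 2 ^ i * b := (Nat.modEq_iff_dvd' hle).1 h
  have e : 2 ^ j * b - 2 ^ i * b = 2 ^ i * b * (2 ^ (j - i) - 1) := by
    have e1 : 2 ^ j = 2 ^ i * 2 ^ (j - i) := by
      rw [← pow_add]
      congr 1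
      omega
    rw [e1, Nat.mul_sub, mul_one]
    congr 1
    ring
  rw [e] at h3
  have hp2 : ¬ p ∣ 2 ^ i := by
    intro hc
    exact h2 ((Nat.prime_dvd_prime_iff_eq hp Nat.prime_two).1 (hp.dvd_of_dvd_pow hc))
  rcases (hp.dvd_mul).1 h3 with h4 | h4
  · rcases (hp.dvd_mul).1 h4 with h5 | h5
    · exact hp2 h5
    · exact hb h5
  · exact hj (j - i) (by omega) (by omega) h4

theorem surv_le {p K b : ℕ} (hp : p.Prime) (h2 : p ≠ 2) (hK : K < p) (hb : ¬ p ∣ b)
    (hj : ∀ j, 1 ≤ j → j < K → ¬ p ∣ 2 ^ j - 1) : S1 K p b = 1 - (K : ℝ) / p := by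
  classical
  have hp0 : (0 : ℝ) < p := by exact_mod_cast hp.pos
  have hpos := hp.pos
  have hcard : ((range p).filter (fun a => W K p a b = 0)).card = K := by
    have e : (range p).filter (fun a => W K p a b = 0) =
        (Icc 1 K).image (fun i => (2 ^ i * b + (p - 1)) % p) := by
      ext a
      rw [mem_filter, mem_range, mem_image]
      constructor
      · rintro ⟨ha, h⟩
        obtain ⟨i, hi, h1⟩ := (upA_W0 K p a b).1 h
        refine ⟨i, hi, ?_⟩
        have h3 : 2 ^ i * b + (p - 1) ≡ a [MOD p] := by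
          have h4 : 2 ^ i * b + (p - 1) ≡ a + 1 + (p - 1) [MOD p] := h1.add_right _
          have h5 : a + 1 + (p - 1) = a + p := by omega
          rw [h5] at h4
          refine h4.trans ?_
          unfold Nat.ModEq
          simp
        have h6 : (2 ^ i * b + (p - 1)) % p = a % p := h3
        rw [h6, Nat.mod_eq_of_lt ha]
      · rintro ⟨i, hi, rfl⟩
        refine ⟨Nat.mod_lt _ hpos, (upA_W0 K p _ b).2 ⟨i, hi, ?_⟩⟩
        have h3 : (2 ^ i * b + (p - 1)) % p + 1 ≡ 2 ^ i * b + (p - 1) + 1 [MOD p] :=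
          (Nat.mod_modEq _ _).add_right 1
        have h5 : 2 ^ i * b + (p - 1) + 1 = 2 ^ i * b + p := by omega
        rw [h5] at h3
        refine (h3.trans ?_).symm
        unfold Nat.ModEq
        simp
    rw [e, card_image_of_injOn, Nat.card_Icc]
    · omega
    · intro i hi j hj' hij
      have hi' := mem_Icc.1 (mem_coe.1 hi)
      have hj'' := mem_Icc.1 (mem_coe.1 hj')
      have h3 : 2 ^ i * b + (p - 1) ≡ 2 ^ j * b + (p - 1) [MOD p] := hij
      have h4 : 2 ^ i * b ≡ 2 ^ j * b [MOD p] := Nat.ModEq.add_right_cancel' _ h3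
      rcases lt_trichotomy i j with h | h | h
      · exact (upA_inj hp h2 hb hj hi'.1 h hj''.2 h4).elim
      · exact h
      · exact (upA_inj hp h2 hb hj hj''.1 h hi'.2 h4.symm).elim
  have hsum : ∑ a ∈ range p, W K p a b * W K p a b = (p : ℝ) - K := by
    have h1 : ∑ a ∈ range p, (1 - W K p a b) = (K : ℝ) := by
      have h0 : ∑ a ∈ range p, (1 - W K p a b) =
          (((range p).filter (fun a => W K p a b = 0)).card : ℝ) := by
        rw [Finset.card_filter]
        push_cast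
        refine Finset.sum_congr rfl fun a _ => ?_
        rcases upA_W01 K p a b with h | h <;> simp [h]
      rw [h0, hcard]
    rw [Finset.sum_sub_distrib] at h1
    simp only [Finset.sum_const, Finset.card_range, nsmul_eq_mul, mul_one] at h1
    simp only [W_sq]
    linarith
  unfold S1 U
  rw [hsum]
  field_simp

/-- number of prime factors -/
private theorem upA_omega {m : ℕ} (hm : m ≠ 0) : (m.primeFactors.card : ℝ) ≤ 2 * Real.log m := by
  have h1 : 2 ^ m.primeFactors.card ≤ m := by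
    calc 2 ^ m.primeFactors.card = ∏ _p ∈ m.primeFactors, 2 := by rw [prod_const]
      _ ≤ ∏ p ∈ m.primeFactors, p :=
        prod_le_prod' fun p hp => (Nat.prime_of_mem_primeFactors hp).two_le
      _ ≤ m := Nat.le_of_dvd (Nat.pos_of_ne_zero hm) (Nat.prod_primeFactors_dvd m)
  have h2 : (2 : ℝ) ^ m.primeFactors.card ≤ m := by exact_mod_cast h1
  have h3 : Real.log ((2 : ℝ) ^ m.primeFactors.card) ≤ Real.log m :=
    Real.log_le_log (by positivity) h2
  rw [Real.log_pow] at h3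
  have h4 : (1 : ℝ) / 2 ≤ Real.log 2 := by
    have := Real.log_two_gt_d9
    linarith
  have h5 : (0 : ℝ) ≤ m.primeFactors.card := Nat.cast_nonneg _
  nlinarith

private theorem upA_omega2 (j : ℕ) (hj : 1 ≤ j) : (2 ^ j - 1).primeFactors.card ≤ j := by
  have h0 : 2 ^ j - 1 ≠ 0 := by
    have : 2 ^ 1 ≤ 2 ^ j := Nat.pow_le_pow_right (by norm_num) hj
    omega
  have h1 : 2 ^ (2 ^ j - 1).primeFactors.card ≤ 2 ^ j := by
    calc 2 ^ (2 ^ j - 1).primeFactors.card = ∏ _p ∈ (2 ^ j - 1).primeFactors, 2 := by rw [prod_const]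
      _ ≤ ∏ p ∈ (2 ^ j - 1).primeFactors, p :=
        prod_le_prod' fun p hp => (Nat.prime_of_mem_primeFactors hp).two_le
      _ ≤ 2 ^ j - 1 := Nat.le_of_dvd (Nat.pos_of_ne_zero h0) (Nat.prod_primeFactors_dvd _)
      _ ≤ 2 ^ j := Nat.sub_le _ _
  exact (Nat.pow_le_pow_iff_right (by norm_num)).1 h1

/-- the primes `> w` up to `y`: lower bound for the sum of `1/p` -/
private theorem upA_low {w y : ℕ} (hw : 1 ≤ w) (hw2 : 2 ≤ w) :
    Real.log (th w) - Real.log (th y) - 1 ≤ ∑ p ∈ (oddP y).filter (fun p => w < p), 1 / (p : ℝ) := by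
  have hnn : 0 ≤ ∑ p ∈ (oddP y).filter (fun p => w < p), 1 / (p : ℝ) :=
    sum_nonneg fun p _ => by positivity
  rcases le_total y w with h | h
  · have h1 : Real.log (th w) ≤ Real.log (th y) := Real.log_le_log (th_pos w) (th_anti h)
    linarith
  · have e1 : th y = th w * ∏ p ∈ (oddP y).filter (fun p => w < p), (1 - 1 / (p : ℝ)) := by
      unfold th
      rw [← prod_filter_mul_prod_filter_not ((range (y + 1)).filter Nat.Prime) (fun p => p ≤ w)]
      congr 1
      · apply prod_congr _ fun _ _ => rfl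
        ext p
        simp only [mem_filter, mem_range]
        constructor
        · rintro ⟨⟨h1, h2⟩, h3⟩
          exact ⟨by omega, h2⟩
        · rintro ⟨h1, h2⟩
          exact ⟨⟨by omega, h2⟩, by omega⟩
      · apply prod_congr _ fun _ _ => rfl
        ext p
        simp only [oddP, mem_filter, mem_range, not_le]
        constructor
        · rintro ⟨⟨h1, h2⟩, h3⟩
          exact ⟨⟨h1, h2, by omega⟩, h3⟩
        · rintro ⟨⟨h1, h2, h3⟩, h4⟩
          exact ⟨⟨h1, h2⟩, h4⟩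
    have hx : ∀ p ∈ (oddP y).filter (fun p => w < p), (0 : ℝ) < 1 - 1 / (p : ℝ) := by
      intro p hp
      rw [mem_filter] at hp
      have h3 : (2 : ℝ) < p := by exact_mod_cast lt_of_le_of_lt hw2 hp.2
      rw [sub_pos, div_lt_one (by linarith)]
      linarith
    have e2 : Real.log (th y) = Real.log (th w) +
        ∑ p ∈ (oddP y).filter (fun p => w < p), Real.log (1 - 1 / (p : ℝ)) := by
      rw [e1, Real.log_mul (th_pos w).ne' (prod_pos hx).ne', Real.log_prod (fun p hp => (hx p hp).ne')]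
    have h3 : ∀ p ∈ (oddP y).filter (fun p => w < p),
        -Real.log (1 - 1 / (p : ℝ)) ≤ 1 / (p : ℝ) + 1 / (p : ℝ) ^ 2 := by
      intro p hp
      have hpos := hx p hp
      rw [mem_filter] at hp
      have h4 : (2 : ℝ) < p := by exact_mod_cast lt_of_le_of_lt hw2 hp.2
      have h5 : (0 : ℝ) ≤ 1 / (p : ℝ) := by positivity
      have h6 : 1 / (p : ℝ) ≤ 1 / 2 := one_div_le_one_div_of_le (by norm_num) h4.le
      rw [← Real.log_inv, ← Real.log_exp (1 / (p : ℝ) + 1 / (p : ℝ) ^ 2)]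
      apply Real.log_le_log (inv_pos.2 hpos)
      set x : ℝ := 1 / (p : ℝ) with hxdef
      have e3 : 1 / (p : ℝ) ^ 2 = x ^ 2 := by rw [hxdef]; ring
      rw [e3]
      have ht : 0 ≤ x + x ^ 2 := by positivity
      have h2 := Real.quadratic_le_exp_of_nonneg ht
      have h3 : 0 < 1 - x := hpos
      have hx2 : x ^ 2 ≤ 1 / 2 * x := by nlinarith
      have hx3 : x ^ 3 ≤ 1 / 4 * x := by nlinarith [mul_nonneg h5 h5]
      have h4 : 0 ≤ 1 - x - x ^ 2 - x ^ 3 := by linarith
      have h5' : 1 ≤ (1 - x) * (1 + (x + x ^ 2) + (x + x ^ 2) ^ 2 / 2) := by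
        have e : (1 - x) * (1 + (x + x ^ 2) + (x + x ^ 2) ^ 2 / 2) - 1 =
            x ^ 2 * (1 - x - x ^ 2 - x ^ 3) / 2 := by ring
        have : 0 ≤ x ^ 2 * (1 - x - x ^ 2 - x ^ 3) / 2 := by positivity
        linarith
      rw [inv_le_iff_one_le_mul₀ h3]
      calc (1 : ℝ) ≤ (1 - x) * (1 + (x + x ^ 2) + (x + x ^ 2) ^ 2 / 2) := h5'
        _ ≤ (1 - x) * Real.exp (x + x ^ 2) := mul_le_mul_of_nonneg_left h2 h3.le
        _ = Real.exp (x + x ^ 2) * (1 - x) := mul_comm _ _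
    have h4 := sum_le_sum h3
    rw [sum_neg_distrib, sum_add_distrib] at h4
    have h5 := sum_sq hw ((oddP y).filter (fun p => w < p)) (fun p hp => (mem_filter.1 hp).2)
    have h6 : 1 / (w : ℝ) ≤ 1 := by
      have : (1 : ℝ) ≤ w := by exact_mod_cast hw
      rw [div_le_one (by linarith)]
      exact this
    linarith

/-- the bad primes `> w` -/
private theorem upA_bad {w y K b : ℕ} (hb : b ≠ 0) (hKw : K ≤ w) (hw : 1 ≤ w) :
    ∑ p ∈ (oddP y).filter (fun p => w < p), 1 / (p : ℝ) -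
      (2 * Real.log b + (K : ℝ) ^ 2) / w ≤
    ∑ p ∈ (oddP y).filter (fun p => K < p ∧ ¬ p ∣ b ∧ ∀ j ∈ Ico 1 K, ¬ p ∣ 2 ^ j - 1), 1 / (p : ℝ) := by
  classical
  set A := (oddP y).filter (fun p => w < p) with hA
  set G := (oddP y).filter (fun p => K < p ∧ ¬ p ∣ b ∧ ∀ j ∈ Ico 1 K, ¬ p ∣ 2 ^ j - 1) with hG
  set B := b.primeFactors ∪ (Ico 1 K).biUnion (fun j => (2 ^ j - 1).primeFactors) with hB
  have hw0 : (0 : ℝ) < w := by exact_mod_cast hw
  have hsub : A \ G ⊆ B := by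
    intro p hp
    rw [Finset.mem_sdiff, hA, hG, mem_filter, mem_filter] at hp
    obtain ⟨⟨h1, h2⟩, h3⟩ := hp
    have hpp : p.Prime := by
      unfold oddP at h1
      exact (mem_filter.1 h1).2.1
    have h4 : ¬ (K < p ∧ ¬ p ∣ b ∧ ∀ j ∈ Ico 1 K, ¬ p ∣ 2 ^ j - 1) := fun hc => h3 ⟨h1, hc⟩
    rw [hB, mem_union, mem_biUnion]
    by_cases h5 : p ∣ b
    · left
      exact Nat.mem_primeFactors.2 ⟨hpp, h5, hb⟩
    · right
      have h6 : ¬ ∀ j ∈ Ico 1 K, ¬ p ∣ 2 ^ j - 1 := fun hc => h4 ⟨by omega, h5, hc⟩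
      push Not at h6
      obtain ⟨j, hj, h7⟩ := h6
      refine ⟨j, hj, Nat.mem_primeFactors.2 ⟨hpp, h7, ?_⟩⟩
      have : 2 ^ 1 ≤ 2 ^ j := Nat.pow_le_pow_right (by norm_num) (mem_Ico.1 hj).1
      omega
  have hcard : ((A \ G).card : ℝ) ≤ 2 * Real.log b + (K : ℝ) ^ 2 := by
    have h1 : (A \ G).card ≤ b.primeFactors.card + K ^ 2 := by
      refine (card_le_card hsub).trans ((card_union_le _ _).trans ?_)
      apply Nat.add_le_add_left
      refine card_biUnion_le.trans ?_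
      calc ∑ j ∈ Ico 1 K, (2 ^ j - 1).primeFactors.card ≤ ∑ _j ∈ Ico 1 K, K := by
            refine sum_le_sum fun j hj => ?_
            have := mem_Ico.1 hj
            exact (upA_omega2 j this.1).trans this.2.le
        _ = (K - 1) * K := by rw [sum_const, Nat.card_Ico, smul_eq_mul]
        _ ≤ K * K := Nat.mul_le_mul_right K (Nat.sub_le _ _)
        _ = K ^ 2 := (sq K).symm
    have h2 : ((A \ G).card : ℝ) ≤ (b.primeFactors.card : ℝ) + (K : ℝ) ^ 2 := by exact_mod_cast h1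
    linarith [upA_omega hb]
  have h1 : ∑ p ∈ A, 1 / (p : ℝ) ≤ ∑ p ∈ G, 1 / (p : ℝ) + ∑ p ∈ A \ G, 1 / (p : ℝ) := by
    have h2 : A ⊆ G ∪ (A \ G) := by
      intro p hp
      rw [mem_union, Finset.mem_sdiff]
      by_cases h : p ∈ G
      · exact Or.inl h
      · exact Or.inr ⟨hp, h⟩
    calc ∑ p ∈ A, 1 / (p : ℝ) ≤ ∑ p ∈ G ∪ (A \ G), 1 / (p : ℝ) :=
          sum_le_sum_of_subset_of_nonneg h2 fun p _ _ => by positivity
      _ = ∑ p ∈ G, 1 / (p : ℝ) + ∑ p ∈ A \ G, 1 / (p : ℝ) := by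
          rw [sum_union]
          exact disjoint_sdiff
  have h2 : ∑ p ∈ A \ G, 1 / (p : ℝ) ≤ (2 * Real.log b + (K : ℝ) ^ 2) / w := by
    calc ∑ p ∈ A \ G, 1 / (p : ℝ) ≤ ∑ _p ∈ A \ G, 1 / (w : ℝ) := by
          refine sum_le_sum fun p hp => ?_
          have h3 : w < p := by
            rw [Finset.mem_sdiff, hA, mem_filter] at hp
            exact hp.1.2
          exact one_div_le_one_div_of_le hw0 (by exact_mod_cast h3.le)
      _ = ((A \ G).card : ℝ) * (1 / (w : ℝ)) := by rw [sum_const, nsmul_eq_mul]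
      _ ≤ (2 * Real.log b + (K : ℝ) ^ 2) * (1 / (w : ℝ)) :=
          mul_le_mul_of_nonneg_right hcard (by positivity)
      _ = (2 * Real.log b + (K : ℝ) ^ 2) / w := by ring
  linarith

theorem up_sum {ε : ℝ} (h0 : 0 < ε) (h1 : ε < 1) : ∃ C : ℝ, ∀ᶠ n : ℕ in atTop, n % 2 = 1 →
    Real.log (Real.log n) - Real.log (Real.log (Real.log n)) - C ≤
      ∑ p ∈ (oddP (yy n)).filter (fun p => KK ε n < p ∧ ¬ p ∣ (n + 1) / 2 ∧
        ∀ j ∈ Ico 1 (KK ε n), ¬ p ∣ 2 ^ j - 1), 1 / (p : ℝ) := by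
  obtain ⟨c, hc, hlow⟩ := th_low
  refine ⟨2 - Real.log (c / 8), ?_⟩
  have hL : Tendsto (fun n : ℕ => Real.log n) atTop atTop :=
    Real.tendsto_log_atTop.comp tendsto_natCast_atTop_atTop
  have hLL : Tendsto (fun n : ℕ => Real.log (Real.log n)) atTop atTop :=
    Real.tendsto_log_atTop.comp hL
  have hyy : ∀ᶠ n : ℕ in atTop, th (yy n) * Real.log n < 2 :=
    th_yy.eventually (gt_mem_nhds (by norm_num))
  filter_upwards [hL.eventually_ge_atTop 16, hLL.eventually_ge_atTop 4, hyy,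
    eventually_ge_atTop 3] with n hn1 hn2 hn3 hn4 _
  set L := Real.log n with hLdef
  set w := ⌈L ^ 3⌉₊ with hw
  have hLpos : 0 < L := by linarith
  have hw3 : L ^ 3 ≤ w := Nat.le_ceil _
  have hw4 : (w : ℝ) ≤ L ^ 4 := by
    have h2 : (w : ℝ) < L ^ 3 + 1 := Nat.ceil_lt_add_one (by positivity)
    have h3 : (1 : ℝ) ≤ L ^ 3 := one_le_pow₀ (by linarith)
    nlinarith
  have hw2r : (2 : ℝ) ≤ w := by
    have h3 : (16 : ℝ) ^ 3 ≤ L ^ 3 := pow_le_pow_left₀ (by norm_num) hn1 3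
    linarith
  have hw2 : 2 ≤ w := by exact_mod_cast hw2r
  -- the length
  have hK : (KK ε n : ℝ) ≤ L := by
    have h2 : (KK ε n : ℝ) < (1 + ε) * L / Real.log L + 1 := by
      unfold KK
      apply Nat.ceil_lt_add_one
      have : 0 ≤ Real.log L := by linarith
      positivity
    have h3 : (1 + ε) * L / Real.log L ≤ L / 2 := by
      rw [div_le_iff₀ (by linarith)]
      nlinarith
    linarith
  have hKw : KK ε n ≤ w := by
    have h3 : L ≤ L ^ 3 := by
      have : (1 : ℝ) ≤ L ^ 2 := one_le_pow₀ (by linarith)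
      nlinarith
    have h2 : (KK ε n : ℝ) ≤ w := by linarith
    exact_mod_cast h2
  have hb : (n + 1) / 2 ≠ 0 := by omega
  have hbn : Real.log (((n + 1) / 2 : ℕ) : ℝ) ≤ L := by
    apply Real.log_le_log
    · exact_mod_cast Nat.pos_of_ne_zero hb
    · have : (n + 1) / 2 ≤ n := by omega
      exact_mod_cast this
  have hA := upA_low (w := w) (y := yy n) (by omega) hw2
  have hB := upA_bad (w := w) (y := yy n) (K := KK ε n) (b := (n + 1) / 2) hb hKw (by omega)
  have hbad : (2 * Real.log (((n + 1) / 2 : ℕ) : ℝ) + (KK ε n : ℝ) ^ 2) / w ≤ 1 := by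
    rw [div_le_one (by linarith)]
    have h2 : (KK ε n : ℝ) ^ 2 ≤ L ^ 2 := pow_le_pow_left₀ (Nat.cast_nonneg _) hK 2
    have h3 : 2 * L + L ^ 2 ≤ L ^ 3 := by nlinarith
    linarith
  have hth1 : Real.log (c / (4 * Real.log L)) ≤ Real.log (th w) := by
    apply Real.log_le_log
    · have : 0 < Real.log L := by linarith
      positivity
    · refine le_trans ?_ (hlow w hw2)
      apply div_le_div_of_nonneg_left hc.le
      · exact Real.log_pos (by linarith)
      · have h3 : Real.log w ≤ Real.log (L ^ 4) := Real.log_le_log (by linarith) hw4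
        rw [Real.log_pow] at h3
        push_cast at h3
        exact h3
  have hth2 : Real.log (th (yy n)) ≤ Real.log (2 / L) := by
    apply Real.log_le_log (th_pos _)
    rw [le_div_iff₀ hLpos]
    exact hn3.le
  have e1 : Real.log (c / (4 * Real.log L)) - Real.log (2 / L) =
      Real.log L - Real.log (Real.log L) + Real.log (c / 8) := by
    have h2 : Real.log L ≠ 0 := by linarith
    have h3 : L ≠ 0 := hLpos.ne'
    have h4 : (4 : ℝ) ≠ 0 := by norm_num
    rw [Real.log_div hc.ne' (mul_ne_zero h4 h2), Real.log_mul h4 h2,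
      Real.log_div (by norm_num) h3, Real.log_div hc.ne' (by norm_num)]
    have h8 : Real.log (8 : ℝ) = Real.log 4 + Real.log 2 := by
      rw [← Real.log_mul (by norm_num) (by norm_num)]
      norm_num
    rw [h8]
    ring
  linarith

end Pool.Agent.RSL
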